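import Mathlib

/-!
An abstract criterion for a covering of a graph-with-triangles to be a bijection.
-/

namespace Pool.Agent.H84

/-- A graph with a height function satisfying descent conditions which make its
triangle complex simply connected. -/
structure HGraph (V : Type*) where
  adj : V → V → Prop
  symm : ∀ {v w}, adj v w → adj w v
  h : V → ℕ
  v0 : V
  hv0 : h v0 = 0
  h0 : ∀ v, h v = 0 → v = v0
  h1 : ∀ v, 0 < h v → ∃ w, adj v w ∧ h w < h v
  h2 : ∀ v w w', adj v w → adj v w' → h w < h v → h w' < h v →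
    Relation.ReflTransGen
      (fun x y => adj v x ∧ adj v y ∧ h x < h v ∧ h y < h v ∧ adj x y) w w'
  h3 : ∀ v w, adj v w → h v = h w → ∃ u, adj u v ∧ adj u w ∧ h u < h v

/-- A covering of a graph (lifting also the triangles). -/
structure HCover {V : Type*} (Γ : HGraph V) (E : Type*) where
  pr : E → V
  Adj : E → E → Prop
  symm : ∀ {x y}, Adj x y → Adj y x
  proj : ∀ {x y}, Adj x y → Γ.adj (pr x) (pr y)
  lift : ∀ x w, Γ.adj (pr x) w → ∃ y, Adj x y ∧ pr y = w
  uniq : ∀ {x y y'}, Adj x y → Adj x y' → pr y = pr y' → y = y'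
  tri : ∀ {x y z}, Adj x y → Adj x z → Γ.adj (pr y) (pr z) → Adj y z

namespace HCover

variable {V : Type*} {Γ : HGraph V} {E : Type*} (C : HCover Γ E) (x0 : E)

/-- ascending lifts -/
inductive Good : V → E → Prop
  | base : Good Γ.v0 x0
  | step {v w : V} {x y : E} : Good v x → Γ.adj v w → Γ.h v < Γ.h w → C.Adj x y →
      C.pr y = w → Good w y

variable {x0}

theorem Good.pr_eq (h0 : C.pr x0 = Γ.v0) {v : V} {x : E} (hg : C.Good x0 v x) :
    C.pr x = v := by
  cases hg with
  | base => exact h0
  | step _ _ _ _ h => exact h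

theorem Good.exists (h0 : C.pr x0 = Γ.v0) (v : V) : ∃ x, C.Good x0 v x := by
  have key : ∀ n v, Γ.h v = n → ∃ x, C.Good x0 v x := by
    intro n
    induction n using Nat.strong_induction_on with
    | _ n ih =>
      intro v hv
      rcases Nat.eq_zero_or_pos (Γ.h v) with h | h
      · rw [Γ.h0 v h]
        exact ⟨x0, Good.base⟩
      · obtain ⟨w, hw, hlt⟩ := Γ.h1 v h
        obtain ⟨x, hx⟩ := ih (Γ.h w) (hv ▸ hlt) w rfl
        obtain ⟨y, hy, hyv⟩ := C.lift x v (by rw [hx.pr_eq C h0]; exact Γ.symm hw)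
        exact ⟨y, Good.step hx (Γ.symm hw) hlt hy hyv⟩
  exact key _ v rfl

theorem Good.main (h0 : C.pr x0 = Γ.v0) (n : ℕ) :
    (∀ v, Γ.h v ≤ n → ∀ x x', C.Good x0 v x → C.Good x0 v x' → x = x') ∧
    (∀ v w, Γ.h v ≤ n → Γ.h w ≤ n → Γ.adj v w → ∀ x y, C.Good x0 v x → C.Good x0 w y →
      C.Adj x y) := by
  induction n with
  | zero =>
    constructor
    · intro v hv x x' hx hx'
      have hv' : Γ.h v = 0 := Nat.le_zero.mp hv
      cases hx with
      | base =>
        generalize hgen : Γ.v0 = v at hx'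
        cases hx' with
        | base => rfl
        | step _ _ hlt _ _ => rw [← hgen, Γ.hv0] at hlt; omega
      | step _ _ hlt _ _ => omega
    · intro v w hv hw hvw x y hx hy
      exfalso
      have hv' : Γ.h v = 0 := Nat.le_zero.mp hv
      have hw' : Γ.h w = 0 := Nat.le_zero.mp hw
      obtain ⟨u, _, _, hu⟩ := Γ.h3 v w hvw (by omega)
      omega
  | succ n ih =>
    obtain ⟨ihA, ihB⟩ := ih
    have A : ∀ v, Γ.h v ≤ n + 1 → ∀ x x', C.Good x0 v x → C.Good x0 v x' → x = x' := by
      intro v hv x x' hx hx'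
      rcases Nat.lt_or_ge (Γ.h v) (n + 1) with hlt | hge
      · exact ihA v (by omega) x x' hx hx'
      have hvn : Γ.h v = n + 1 := by omega
      -- both come from a step
      cases hx with
      | base => rw [Γ.hv0] at hvn; omega
      | @step w _ y _ hy hwv hlt hyx hxv =>
        generalize hgen : v = v1 at hx'
        cases hx' with
        | base => rw [hgen, Γ.hv0] at hvn; omega
        | @step w' _ y' _ hy' hwv' hlt' hyx' hxv' =>
          subst hgen
          -- chain from w to w'
          have hchain := Γ.h2 v w w' (Γ.symm hwv) (Γ.symm hwv') hlt hlt'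
          -- claim: along the chain the lift of v stays the same
          have claim : ∀ u, Relation.ReflTransGen
              (fun x y => Γ.adj v x ∧ Γ.adj v y ∧ Γ.h x < Γ.h v ∧ Γ.h y < Γ.h v ∧ Γ.adj x y) w u →
              ∀ z, C.Good x0 u z → C.Adj z x := by
            intro u hu
            induction hu with
            | refl =>
              intro z hz
              have : z = y := ihA w (by omega) z y hz hy
              rw [this]; exact hyx
            | @tail a b _ hab ihab =>
              intro z hz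
              obtain ⟨hva, hvb, hha, hhb, habadj⟩ := hab
              obtain ⟨za, hza⟩ := Good.exists C h0 a
              have h1 := ihab za hza
              have h2 : C.Adj za z := ihB a b (by omega) (by omega) habadj za z hza hz
              -- x and z are adjacent to za and pr z ~ v
              refine C.symm (C.tri h1 h2 ?_)
              rw [hxv, hz.pr_eq C h0]; exact hvb
          have h3 := claim w' hchain y' hy'
          exact C.uniq h3 hyx' (by rw [hxv, hxv'])
    refine ⟨A, ?_⟩
    -- strictly increasing case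
    have B1 : ∀ v w, Γ.h v < Γ.h w → Γ.h w ≤ n + 1 → Γ.adj v w → ∀ x y, C.Good x0 v x →
        C.Good x0 w y → C.Adj x y := by
      intro v w hlt hw hvw x y hx hy
      obtain ⟨y', hy', hyw'⟩ := C.lift x w (by rw [hx.pr_eq C h0]; exact hvw)
      have : C.Good x0 w y' := Good.step hx hvw hlt hy' hyw'
      rw [A w hw y y' hy this]
      exact hy'
    intro v w hv hw hvw x y hx hy
    rcases Nat.lt_trichotomy (Γ.h v) (Γ.h w) with hlt | heq | hgt
    · exact B1 v w hlt hw hvw x y hx hy
    · obtain ⟨u, huv, huw, hult⟩ := Γ.h3 v w hvw heq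
      obtain ⟨z, hz⟩ := Good.exists C h0 u
      have h1 := B1 u v hult hv huv z x hz hx
      have h2 := B1 u w (by omega) hw huw z y hz hy
      refine C.tri h1 h2 ?_
      rw [hx.pr_eq C h0, hy.pr_eq C h0]
      exact hvw
    · exact C.symm (B1 w v hgt hv (Γ.symm hvw) y x hy hx)

/-- Existence of a section of the covering through `x0` which respects adjacency. -/
theorem exists_section (h0 : C.pr x0 = Γ.v0) :
    ∃ σ : V → E, σ Γ.v0 = x0 ∧ (∀ v, C.pr (σ v) = v) ∧ ∀ v w, Γ.adj v w → C.Adj (σ v) (σ w) := by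
  choose σ hσ using fun v => Good.exists C h0 v
  refine ⟨σ, ?_, fun v => (hσ v).pr_eq C h0, ?_⟩
  · exact (Good.main C h0 (Γ.h Γ.v0)).1 Γ.v0 le_rfl _ _ (hσ _) Good.base
  · intro v w hvw
    exact (Good.main C h0 (max (Γ.h v) (Γ.h w))).2 v w (le_max_left _ _) (le_max_right _ _) hvw
      _ _ (hσ v) (hσ w)

/-- A covering whose total space is connected (in the form: every `Adj`-closed set containing
`x0` is everything) is injective. -/
theorem injective (h0 : C.pr x0 = Γ.v0)
    (hconn : ∀ S : Set E, x0 ∈ S → (∀ x y, x ∈ S → C.Adj x y → y ∈ S) → ∀ x, x ∈ S) :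
    Function.Injective C.pr := by
  obtain ⟨σ, hσ0, hσ1, hσ2⟩ := C.exists_section h0
  have key : ∀ x, x ∈ Set.range σ := by
    apply hconn
    · exact ⟨Γ.v0, hσ0⟩
    · rintro x y ⟨v, rfl⟩ hxy
      refine ⟨C.pr y, ?_⟩
      have h1 := C.proj hxy
      rw [hσ1] at h1
      exact C.uniq (hσ2 v (C.pr y) h1) hxy (hσ1 _)
  intro x y hxy
  obtain ⟨v, rfl⟩ := key x
  obtain ⟨w, rfl⟩ := key y
  rw [hσ1, hσ1] at hxy
  rw [hxy]

end HCover

end Pool.Agent.H84
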