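import Mathlib
import Pool.Agent.H84.Farey

/-!
Eisenstein integers and the Farey graph of `SL(2, Z[ω])`.
-/

namespace Pool.Agent.H84

/-- Eisenstein integers: `x + y ω` with `ω² = -1 - ω`. -/
abbrev Eis := QuadraticAlgebra ℤ (-1) (-1)

namespace Eis

/-- the norm form as an integer -/
def N (z : Eis) : ℤ := z.re * z.re - z.re * z.im + z.im * z.im

theorem N_def (z : Eis) : N z = z.re * z.re - z.re * z.im + z.im * z.im := rfl

theorem N_nonneg (z : Eis) : 0 ≤ N z := by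
  unfold N; nlinarith [sq_nonneg (z.re - z.im), sq_nonneg z.re, sq_nonneg z.im]

theorem N_mul (z w : Eis) : N (z * w) = N z * N w := by
  simp only [N, QuadraticAlgebra.re_mul, QuadraticAlgebra.im_mul]; ring

theorem N_eq_zero {z : Eis} (h : N z = 0) : z = 0 := by
  unfold N at h
  have h1 : z.re = 0 := by
    by_contra hne
    have : 0 < z.re * z.re := mul_self_pos.mpr hne
    nlinarith [sq_nonneg (z.re - z.im), sq_nonneg z.re, sq_nonneg (z.re - 2 * z.im)]
  have h2 : z.im = 0 := by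
    rw [h1] at h
    have : z.im * z.im = 0 := by linarith
    exact mul_self_eq_zero.mp this
  ext <;> simp [h1, h2]

theorem N_zero : N 0 = 0 := by simp [N]
theorem N_one : N 1 = 1 := by
  simp [N, QuadraticAlgebra.re_one, QuadraticAlgebra.im_one]
theorem N_neg (z : Eis) : N (-z) = N z := by simp [N]

theorem N_pos {z : Eis} (h : z ≠ 0) : 0 < N z :=
  lt_of_le_of_ne (N_nonneg z) (fun h' => h (N_eq_zero h'.symm))

/-- conjugation -/
def cj (z : Eis) : Eis := ⟨z.re - z.im, -z.im⟩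

theorem mul_cj (z : Eis) : z * cj z = ⟨N z, 0⟩ := by
  ext <;> simp [cj, N] <;> ring

theorem N_cj (z : Eis) : N (cj z) = N z := by simp [N, cj]; ring

/-- Euclidean division -/
theorem euclid (s q : Eis) (hq : q ≠ 0) : ∃ k : Eis, 4 * N (k * q + s) ≤ 3 * N q := by
  set n := N q with hn
  have hnpos : 0 < n := N_pos hq
  set z := s * cj q with hz
  obtain ⟨k1, hk1⟩ : ∃ k : ℤ, 2 * |z.re + n * k| ≤ n := by
    refine ⟨-((2 * z.re + n) / (2 * n)), ?_⟩
    have h1 := Int.emod_add_mul_ediv (2 * z.re + n) (2 * n)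
    have h2 := Int.emod_nonneg (2 * z.re + n) (show (2 * n) ≠ 0 by omega)
    have h3 := Int.emod_lt_of_pos (2 * z.re + n) (show 0 < 2 * n by omega)
    rw [show 2 * |z.re + n * -((2 * z.re + n) / (2 * n))| =
      |2 * (z.re + n * -((2 * z.re + n) / (2 * n)))| by rw [abs_mul]; norm_num, abs_le]
    constructor <;> nlinarith
  obtain ⟨k2, hk2⟩ : ∃ k : ℤ, 2 * |z.im + n * k| ≤ n := by
    refine ⟨-((2 * z.im + n) / (2 * n)), ?_⟩
    have h1 := Int.emod_add_mul_ediv (2 * z.im + n) (2 * n)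
    have h2 := Int.emod_nonneg (2 * z.im + n) (show (2 * n) ≠ 0 by omega)
    have h3 := Int.emod_lt_of_pos (2 * z.im + n) (show 0 < 2 * n by omega)
    rw [show 2 * |z.im + n * -((2 * z.im + n) / (2 * n))| =
      |2 * (z.im + n * -((2 * z.im + n) / (2 * n)))| by rw [abs_mul]; norm_num, abs_le]
    constructor <;> nlinarith
  refine ⟨⟨k1, k2⟩, ?_⟩
  set k : Eis := ⟨k1, k2⟩ with hk
  have h1 : (k * q + s) * cj q = ⟨z.re + n * k1, z.im + n * k2⟩ := by
    have : (k * q + s) * cj q = k * (q * cj q) + z := by rw [hz]; ring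
    rw [this, mul_cj]
    ext <;> simp [hk] <;> ring
  have h2 : N (k * q + s) * n = N ⟨z.re + n * k1, z.im + n * k2⟩ := by
    rw [← h1, N_mul, N_cj]
  have h3 : 4 * N ⟨z.re + n * k1, z.im + n * k2⟩ ≤ 3 * (n * n) := by
    simp only [N]
    set u := z.re + n * k1
    set v := z.im + n * k2
    have hu := abs_le.mp (show |2 * u| ≤ n by rw [abs_mul]; simpa using hk1)
    have hv := abs_le.mp (show |2 * v| ≤ n by rw [abs_mul]; simpa using hk2)
    nlinarith [mul_nonneg (show 0 ≤ n - 2 * u by linarith) (show 0 ≤ n + 2 * u by linarith),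
      mul_nonneg (show 0 ≤ n - 2 * v by linarith) (show 0 ≤ n + 2 * v by linarith),
      mul_nonneg (show 0 ≤ n - 2 * u by linarith) (show 0 ≤ n + 2 * v by linarith),
      mul_nonneg (show 0 ≤ n + 2 * u by linarith) (show 0 ≤ n - 2 * v by linarith)]
  have h4 : 4 * N (k * q + s) * n ≤ 3 * n * n := by
    calc 4 * N (k * q + s) * n = 4 * (N (k * q + s) * n) := by ring
      _ = 4 * N ⟨z.re + n * k1, z.im + n * k2⟩ := by rw [h2]
      _ ≤ 3 * (n * n) := h3
      _ = 3 * n * n := by ring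
  exact le_of_mul_le_mul_right h4 hnpos

/-- bilinear form -/
def B (z w : Eis) : ℤ := 2 * z.re * w.re - z.re * w.im - z.im * w.re + 2 * z.im * w.im

theorem N_add (z w : Eis) : N (z + w) = N z + B z w + N w := by
  simp [N, B]; ring

theorem N_le_one_cases {z : Eis} (h : N z = 1) :
    z = ⟨1, 0⟩ ∨ z = ⟨-1, 0⟩ ∨ z = ⟨0, 1⟩ ∨ z = ⟨0, -1⟩ ∨ z = ⟨1, 1⟩ ∨ z = ⟨-1, -1⟩ := by
  obtain ⟨x, y⟩ := z
  simp only [N] at h
  have hx : x ≤ 1 := by nlinarith [sq_nonneg (x - 2 * y), sq_nonneg (x - 1), sq_nonneg (x + 1)]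
  have hx' : -1 ≤ x := by nlinarith [sq_nonneg (x - 2 * y), sq_nonneg (x - 1), sq_nonneg (x + 1)]
  have hy : y ≤ 1 := by nlinarith [sq_nonneg (y - 2 * x), sq_nonneg (y - 1), sq_nonneg (y + 1)]
  have hy' : -1 ≤ y := by nlinarith [sq_nonneg (y - 2 * x), sq_nonneg (y - 1), sq_nonneg (y + 1)]
  interval_cases x <;> interval_cases y <;> simp_all

theorem N_three_cases {z : Eis} (h : N z < 4) (h0 : z ≠ 0) (h1 : N z ≠ 1) :
    ∃ e1 e2 : Eis, e1 + e2 = z ∧ N e1 = 1 ∧ N e2 = 1 ∧ N (e1 - e2) = 1 ∧ N z = 3 := by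
  obtain ⟨x, y⟩ := z
  simp only [N] at h h1
  have hx : x ≤ 2 := by nlinarith [sq_nonneg (x - 2 * y), sq_nonneg (x - 1), sq_nonneg (x + 1)]
  have hx' : -2 ≤ x := by nlinarith [sq_nonneg (x - 2 * y), sq_nonneg (x - 1), sq_nonneg (x + 1)]
  have hy : y ≤ 2 := by nlinarith [sq_nonneg (y - 2 * x), sq_nonneg (y - 1), sq_nonneg (y + 1)]
  have hy' : -2 ≤ y := by nlinarith [sq_nonneg (y - 2 * x), sq_nonneg (y - 1), sq_nonneg (y + 1)]
  have h00 : ¬ (x = 0 ∧ y = 0) := by
    rintro ⟨rfl, rfl⟩; exact h0 rfl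
  have key : (x = 1 ∧ y = -1) ∨ (x = -1 ∧ y = 1) ∨ (x = 2 ∧ y = 1) ∨ (x = -2 ∧ y = -1) ∨
      (x = 1 ∧ y = 2) ∨ (x = -1 ∧ y = -2) := by
    interval_cases x <;> interval_cases y <;> simp_all
  rcases key with ⟨rfl, rfl⟩ | ⟨rfl, rfl⟩ | ⟨rfl, rfl⟩ | ⟨rfl, rfl⟩ | ⟨rfl, rfl⟩ | ⟨rfl, rfl⟩
  · exact ⟨⟨1, 0⟩, ⟨0, -1⟩, by decide, by decide, by decide, by decide, by decide⟩
  · exact ⟨⟨-1, 0⟩, ⟨0, 1⟩, by decide, by decide, by decide, by decide, by decide⟩
  · exact ⟨⟨1, 0⟩, ⟨1, 1⟩, by decide, by decide, by decide, by decide, by decide⟩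
  · exact ⟨⟨-1, 0⟩, ⟨-1, -1⟩, by decide, by decide, by decide, by decide, by decide⟩
  · exact ⟨⟨0, 1⟩, ⟨1, 1⟩, by decide, by decide, by decide, by decide, by decide⟩
  · exact ⟨⟨0, -1⟩, ⟨-1, -1⟩, by decide, by decide, by decide, by decide, by decide⟩

/-- two lattice points at distance `< 1` from a common centre: path of length `≤ 2` -/
theorem short_chain (A q d : Eis) (hA : N A < N q) (hA' : N (A + d * q) < N q) (hd : d ≠ 0)
    (hd1 : N d ≠ 1) : ∃ e : Eis, N e = 1 ∧ N (d - e) = 1 ∧ N (A + e * q) < N q := by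
  have hq : 0 < N q := lt_of_le_of_lt (N_nonneg _) hA
  have hd4 : N d < 4 := by
    have h1 : N (d * q) ≤ 2 * N A + 2 * N (A + d * q) := by
      have : d * q = (A + d * q) + (-A) := by ring
      have h2 : N (d * q) = N (A + d * q) + B (A + d * q) (-A) + N (-A) := by
        conv_lhs => rw [this]
        exact N_add _ _
      have h3 : 0 ≤ N ((A + d * q) + A) := N_nonneg _
      rw [N_add] at h3
      have h4 : B (A + d * q) (-A) = - B (A + d * q) A := by simp [B]; ring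
      rw [h2, h4, N_neg]
      linarith
    rw [N_mul] at h1
    have h5 : N d * N q < 4 * N q := by linarith
    exact lt_of_mul_lt_mul_right h5 hq.le
  obtain ⟨e1, e2, he, h1, h2, h12, h3⟩ := N_three_cases hd4 hd hd1
  refine ⟨e1, h1, ?_, ?_⟩
  · rw [← he]; simpa using h2
  · have ha := N_add A (e1 * q)
    have hb := N_add A (e2 * q)
    have hc := N_add A (d * q)
    have hB : B A (d * q) = B A (e1 * q) + B A (e2 * q) := by
      rw [← he]; simp only [B]; simp; ring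
    rw [N_mul] at ha hb hc
    have := N_nonneg (A + e2 * q)
    rw [h1] at ha; rw [h2] at hb; rw [h3] at hc
    linarith

/-- equal heights: a common neighbour of smaller height -/
theorem equal_height (A q : Eis) (hA : N A = N q) (hq : 0 < N q) :
    ∃ e : Eis, N e = 1 ∧ N (A + e * q) < N q := by
  by_contra hcon
  push Not at hcon
  have h1 := hcon ⟨1, 0⟩ (by decide)
  have h2 := hcon ⟨-1, 0⟩ (by decide)
  have h3 := hcon ⟨0, 1⟩ (by decide)
  have h4 := hcon ⟨0, -1⟩ (by decide)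
  have h5 := hcon ⟨1, 1⟩ (by decide)
  have h6 := hcon ⟨-1, -1⟩ (by decide)
  rw [N_add, N_mul] at h1 h2 h3 h4 h5 h6
  have e1 : N (⟨1, 0⟩ : Eis) = 1 := by decide
  have e2 : N (⟨-1, 0⟩ : Eis) = 1 := by decide
  have e3 : N (⟨0, 1⟩ : Eis) = 1 := by decide
  have e4 : N (⟨0, -1⟩ : Eis) = 1 := by decide
  have e5 : N (⟨1, 1⟩ : Eis) = 1 := by decide
  have e6 : N (⟨-1, -1⟩ : Eis) = 1 := by decide
  rw [e1] at h1; rw [e2] at h2; rw [e3] at h3; rw [e4] at h4; rw [e5] at h5; rw [e6] at h6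
  obtain ⟨u, v⟩ := A
  obtain ⟨x, y⟩ := q
  set n := N (⟨x, y⟩ : Eis) with hn
  have hNA : N (⟨u, v⟩ : Eis) = n := hA
  rw [hNA] at h1 h2 h3 h4 h5 h6
  simp only [B] at h1 h2 h3 h4 h5 h6
  simp at h1 h2 h3 h4 h5 h6
  have hA' : u * u - u * v + v * v = n := hA
  have hn' : x * x - x * y + y * y = n := hn.symm
  clear_value n
  clear hcon hNA hA hn e1 e2 e3 e4 e5 e6
  -- the three traces
  set t1 := 2 * u * x - u * y - v * x + 2 * v * y with ht1
  set t3 := -(u * x) - u * y + 2 * v * x - v * y with ht3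
  have b1 : |t1| ≤ n := by rw [abs_le]; constructor <;> linarith
  have b3 : |t3| ≤ n := by rw [abs_le]; constructor <;> linarith
  have b5 : |t1 + t3| ≤ n := by rw [abs_le]; constructor <;> linarith
  have s1 : t1 * t1 ≤ n * n := by
    have := mul_self_le_mul_self (abs_nonneg t1) b1
    rwa [abs_mul_abs_self] at this
  have s3 : t3 * t3 ≤ n * n := by
    have := mul_self_le_mul_self (abs_nonneg t3) b3
    rwa [abs_mul_abs_self] at this
  have s5 : (t1 + t3) * (t1 + t3) ≤ n * n := by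
    have := mul_self_le_mul_self (abs_nonneg (t1 + t3)) b5
    rwa [abs_mul_abs_self] at this
  have key : t1 * t1 + t3 * t3 + (t1 + t3) * (t1 + t3) =
      6 * ((u * u - u * v + v * v) * (x * x - x * y + y * y)) := by
    rw [ht1, ht3]; ring
  rw [hA', hn'] at key
  have hnn : 0 < n * n := mul_pos hq hq
  linarith

end Eis

end Pool.Agent.H84
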