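import Mathlib
import Pool.Agent.H84.Eis

/-!
The Farey graph of `SL(2, Z[ω])` as an `HGraph`.
-/

namespace Pool.Agent.H84

open Eis

abbrev SLE := Matrix.SpecialLinearGroup (Fin 2) Eis

theorem mul00 (X Y : SLE) : (X * Y) 0 0 = X 0 0 * Y 0 0 + X 0 1 * Y 1 0 := by
  rw [Matrix.SpecialLinearGroup.coe_mul, Matrix.mul_apply, Fin.sum_univ_two]
theorem mul01 (X Y : SLE) : (X * Y) 0 1 = X 0 0 * Y 0 1 + X 0 1 * Y 1 1 := by
  rw [Matrix.SpecialLinearGroup.coe_mul, Matrix.mul_apply, Fin.sum_univ_two]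
theorem mul10 (X Y : SLE) : (X * Y) 1 0 = X 1 0 * Y 0 0 + X 1 1 * Y 1 0 := by
  rw [Matrix.SpecialLinearGroup.coe_mul, Matrix.mul_apply, Fin.sum_univ_two]
theorem mul11 (X Y : SLE) : (X * Y) 1 1 = X 1 0 * Y 0 1 + X 1 1 * Y 1 1 := by
  rw [Matrix.SpecialLinearGroup.coe_mul, Matrix.mul_apply, Fin.sum_univ_two]
theorem inv00 (X : SLE) : X⁻¹ 0 0 = X 1 1 := by
  rw [Matrix.SpecialLinearGroup.coe_inv, Matrix.adjugate_fin_two]; rfl
theorem inv01 (X : SLE) : X⁻¹ 0 1 = - X 0 1 := by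
  rw [Matrix.SpecialLinearGroup.coe_inv, Matrix.adjugate_fin_two]; rfl
theorem inv10 (X : SLE) : X⁻¹ 1 0 = - X 1 0 := by
  rw [Matrix.SpecialLinearGroup.coe_inv, Matrix.adjugate_fin_two]; rfl
theorem inv11 (X : SLE) : X⁻¹ 1 1 = X 0 0 := by
  rw [Matrix.SpecialLinearGroup.coe_inv, Matrix.adjugate_fin_two]; rfl
theorem detE (X : SLE) : X 0 0 * X 1 1 - X 0 1 * X 1 0 = 1 := by
  have := X.2
  rw [Matrix.det_fin_two] at this
  exact this
theorem one00 : (1 : SLE) 0 0 = 1 := by simp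
theorem one10 : (1 : SLE) 1 0 = 0 := by simp

/-- upper triangular subgroup -/
def U : Subgroup SLE where
  carrier := {X | X 1 0 = 0}
  mul_mem' := by
    intro X Y hX hY
    simp only [Set.mem_ofPred_eq] at *
    rw [mul10, hX, hY]; ring
  one_mem' := by simp
  inv_mem' := by
    intro X hX
    simp only [Set.mem_ofPred_eq] at *
    rw [inv10, hX]; ring

theorem mem_U {X : SLE} : X ∈ U ↔ X 1 0 = 0 := Iff.rfl

/-- determinant of the first columns -/
def cr (X Y : SLE) : Eis := X 0 0 * Y 1 0 - X 1 0 * Y 0 0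

theorem inv_mul_10 (X Y : SLE) : (X⁻¹ * Y) 1 0 = cr X Y := by
  rw [mul10, inv10, inv11]; unfold cr; ring

/-- cusps -/
abbrev VV := SLE ⧸ U

theorem mk_eq_iff (X Y : SLE) : ((X : VV) = (Y : VV)) ↔ cr X Y = 0 := by
  rw [QuotientGroup.eq, mem_U, inv_mul_10]

theorem N_diag_of_mem_U {X : SLE} (h : X ∈ U) : N (X 0 0) = 1 ∧ N (X 1 1) = 1 := by
  rw [mem_U] at h
  have hd := detE X
  rw [h] at hd
  have h1 : X 0 0 * X 1 1 = 1 := by linear_combination hd
  have h2 : N (X 0 0) * N (X 1 1) = 1 := by rw [← N_mul, h1]; exact N_one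
  have h3 := N_nonneg (X 0 0)
  have h4 := N_nonneg (X 1 1)
  constructor
  · exact Int.eq_one_of_mul_eq_one_right h3 h2
  · rw [mul_comm] at h2; exact Int.eq_one_of_mul_eq_one_right h4 h2

theorem cr_mul_U {X Y u w : SLE} (hu : u ∈ U) (hw : w ∈ U) :
    N (cr (X * u) (Y * w)) = N (cr X Y) := by
  obtain ⟨h1, _⟩ := N_diag_of_mem_U hu
  obtain ⟨h2, _⟩ := N_diag_of_mem_U hw
  rw [mem_U] at hu hw
  have : cr (X * u) (Y * w) = u 0 0 * w 0 0 * cr X Y := by
    unfold cr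
    rw [mul00, mul10, mul00, mul10, hu, hw]; ring
  rw [this, N_mul, N_mul, h1, h2]; ring

theorem ht_wd (X Y : SLE) (h : (X : VV) = (Y : VV)) : N (X 1 0) = N (Y 1 0) := by
  have h' : X⁻¹ * Y ∈ U := QuotientGroup.eq.mp h
  obtain ⟨h1, _⟩ := N_diag_of_mem_U h'
  have hY : Y = X * (X⁻¹ * Y) := by group
  have h2 : Y 1 0 = X 1 0 * (X⁻¹ * Y) 0 0 := by
    conv_lhs => rw [hY]
    rw [mul10 X, mem_U.mp h']; ring
  rw [h2, N_mul, h1, mul_one]

/-- height -/
noncomputable def ht (v : VV) : ℕ := (N (v.out 1 0)).toNat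

theorem ht_mk (X : SLE) : (ht (X : VV) : ℤ) = N (X 1 0) := by
  unfold ht
  rw [Int.toNat_of_nonneg (N_nonneg _)]
  exact ht_wd _ _ (QuotientGroup.out_eq' _)

/-- adjacency of cusps -/
def adjV (v w : VV) : Prop := ∃ X Y : SLE, v = (X : VV) ∧ w = (Y : VV) ∧ N (cr X Y) = 1

theorem adjV_mk (X Y : SLE) : adjV (X : VV) (Y : VV) ↔ N (cr X Y) = 1 := by
  constructor
  · rintro ⟨X', Y', hX, hY, h⟩
    have h1 : X'⁻¹ * X ∈ U := QuotientGroup.eq.mp hX.symm
    have h2 : Y'⁻¹ * Y ∈ U := QuotientGroup.eq.mp hY.symm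
    have hX' : X = X' * (X'⁻¹ * X) := by group
    have hY' : Y = Y' * (Y'⁻¹ * Y) := by group
    rw [hX', hY', cr_mul_U h1 h2, h]
  · intro h
    exact ⟨X, Y, rfl, rfl, h⟩

theorem adjV_symm {v w : VV} (h : adjV v w) : adjV w v := by
  obtain ⟨X, Y, hX, hY, h⟩ := h
  refine ⟨Y, X, hY, hX, ?_⟩
  rw [show cr Y X = - cr X Y by unfold cr; ring, N_neg, h]

/-- matrix sending `∞` to `k` -/
def nbm (k : Eis) : SLE := ⟨!![k, -1; 1, 0], by simp [Matrix.det_fin_two]⟩

theorem nbm00 (k : Eis) : nbm k 0 0 = k := rfl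
theorem nbm01 (k : Eis) : nbm k 0 1 = -1 := rfl
theorem nbm10 (k : Eis) : nbm k 1 0 = 1 := rfl
theorem nbm11 (k : Eis) : nbm k 1 1 = 0 := rfl

theorem cr_mul_left (X Y Z : SLE) : cr (X * Y) (X * Z) = cr Y Z := by
  rw [← inv_mul_10, ← inv_mul_10]; group

theorem adj_nb (X : SLE) (k : Eis) : adjV (X : VV) ((X * nbm k : SLE) : VV) := by
  rw [adjV_mk]
  have : cr X (X * nbm k) = 1 := by
    have h := cr_mul_left X 1 (nbm k)
    rw [mul_one] at h
    rw [h]; unfold cr; rw [nbm10, nbm00, one00, one10]; ring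
  rw [this, N_one]

theorem adj_nb_nb (X : SLE) (k l : Eis) :
    adjV ((X * nbm k : SLE) : VV) ((X * nbm l : SLE) : VV) ↔ N (k - l) = 1 := by
  rw [adjV_mk, cr_mul_left]
  have : cr (nbm k) (nbm l) = k - l := by unfold cr; rw [nbm10, nbm00, nbm10, nbm00]; ring
  rw [this]

theorem nb_inj (X : SLE) (k l : Eis) (h : ((X * nbm k : SLE) : VV) = ((X * nbm l : SLE) : VV)) :
    k = l := by
  rw [mk_eq_iff, cr_mul_left] at h
  have : cr (nbm k) (nbm l) = k - l := by unfold cr; rw [nbm10, nbm00, nbm10, nbm00]; ring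
  rw [this] at h
  exact sub_eq_zero.mp h

theorem exists_nb (X : SLE) (w : VV) (h : adjV (X : VV) w) :
    ∃ k : Eis, w = ((X * nbm k : SLE) : VV) := by
  obtain ⟨Y, rfl⟩ := QuotientGroup.mk_surjective w
  rw [adjV_mk] at h
  refine ⟨(X⁻¹ * Y) 0 0 * cj (cr X Y), ?_⟩
  rw [mk_eq_iff]
  have h1 : cr Y (X * nbm ((X⁻¹ * Y) 0 0 * cj (cr X Y))) =
      - cr (X * nbm ((X⁻¹ * Y) 0 0 * cj (cr X Y))) (X * (X⁻¹ * Y)) := by
    have : X * (X⁻¹ * Y) = Y := by group
    rw [this]; unfold cr; ring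
  rw [h1, cr_mul_left]
  have h2 : (X⁻¹ * Y) 1 0 = cr X Y := inv_mul_10 X Y
  have h3 := mul_cj (cr X Y)
  rw [h] at h3
  have h4 : cr X Y * cj (cr X Y) = 1 := by rw [h3]; rfl
  unfold cr at *
  rw [nbm10, nbm00, h2]
  linear_combination (-(X⁻¹ * Y) 0 0) * h4

theorem ht_nb (X : SLE) (k : Eis) :
    (ht ((X * nbm k : SLE) : VV) : ℤ) = N (k * X 1 0 + X 1 1) := by
  rw [ht_mk, mul10, nbm00, nbm10]; congr 1; ring

/-- the Farey graph of the Eisenstein integers -/
noncomputable def farey : HGraph VV where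
  adj := adjV
  symm := adjV_symm
  h := ht
  v0 := ((1 : SLE) : VV)
  hv0 := by
    have := ht_mk 1
    rw [one10, N_zero] at this
    exact_mod_cast this
  h0 := by
    intro v hv
    obtain ⟨X, rfl⟩ := QuotientGroup.mk_surjective v
    have h1 := ht_mk X
    rw [hv] at h1
    have h2 : X 1 0 = 0 := N_eq_zero (by exact_mod_cast h1.symm)
    rw [mk_eq_iff]
    unfold cr; rw [one00, one10, h2]; ring
  h1 := by
    intro v hv
    obtain ⟨X, rfl⟩ := QuotientGroup.mk_surjective v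
    have h1 := ht_mk X
    have h2 : X 1 0 ≠ 0 := by
      intro h0; rw [h0, N_zero] at h1; omega
    obtain ⟨k, hk⟩ := euclid (X 1 1) (X 1 0) h2
    refine ⟨((X * nbm k : SLE) : VV), adj_nb X k, ?_⟩
    have h3 := ht_nb X k
    have h4 := N_pos h2
    zify
    rw [h3, h1]; linarith
  h2 := by
    intro v w w' hw hw' hlt hlt'
    obtain ⟨X, rfl⟩ := QuotientGroup.mk_surjective v
    obtain ⟨k, rfl⟩ := exists_nb X w hw
    obtain ⟨l, rfl⟩ := exists_nb X w' hw'
    have h1 := ht_mk X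
    have hk := ht_nb X k
    have hl := ht_nb X l
    by_cases hkl : k = l
    · rw [hkl]
    by_cases hN : N (l - k) = 1
    · refine Relation.ReflTransGen.single ⟨hw, hw', hlt, hlt', ?_⟩
      rw [adj_nb_nb, ← N_neg, neg_sub, hN]
    · have hlt1 : N (k * X 1 0 + X 1 1) < N (X 1 0) := by
        rw [← hk, ← h1]; exact_mod_cast hlt
      have hlt2 : N ((k * X 1 0 + X 1 1) + (l - k) * X 1 0) < N (X 1 0) := by
        rw [show (k * X 1 0 + X 1 1) + (l - k) * X 1 0 = l * X 1 0 + X 1 1 by ring,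
          ← hl, ← h1]; exact_mod_cast hlt'
      obtain ⟨e, he1, he2, he3⟩ := short_chain _ _ (l - k) hlt1 hlt2
        (sub_ne_zero.mpr (Ne.symm hkl)) hN
      have hm := ht_nb X (k + e)
      have hmlt : ht ((X * nbm (k + e) : SLE) : VV) < ht (X : VV) := by
        zify
        rw [hm, h1, show (k + e) * X 1 0 + X 1 1 = (k * X 1 0 + X 1 1) + e * X 1 0 by ring]
        exact he3
      refine Relation.ReflTransGen.trans
        (Relation.ReflTransGen.single ⟨hw, adj_nb X (k + e), hlt, hmlt, ?_⟩)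
        (Relation.ReflTransGen.single ⟨adj_nb X (k + e), hw', hmlt, hlt', ?_⟩)
      · rw [adj_nb_nb, show k - (k + e) = -e by ring, N_neg, he1]
      · rw [adj_nb_nb, show k + e - l = -(l - k - e) by ring, N_neg, he2]
  h3 := by
    intro v w hvw hh
    obtain ⟨X, rfl⟩ := QuotientGroup.mk_surjective v
    obtain ⟨k, rfl⟩ := exists_nb X w hvw
    have h1 := ht_mk X
    have hk := ht_nb X k
    have hNeq : N (k * X 1 0 + X 1 1) = N (X 1 0) := by
      rw [← hk, ← h1]; exact_mod_cast hh.symm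
    have hpos : 0 < N (X 1 0) := by
      rcases eq_or_ne (X 1 0) 0 with h0 | h0
      · exfalso
        rw [h0, N_zero] at hNeq
        have h2 : X 1 1 = 0 := by
          have := N_eq_zero hNeq
          simpa using this
        have := detE X
        rw [h0, h2] at this
        simp at this
      · exact N_pos h0
    obtain ⟨e, he1, he2⟩ := equal_height _ _ hNeq hpos
    refine ⟨((X * nbm (k + e) : SLE) : VV), adjV_symm (adj_nb X (k + e)), ?_, ?_⟩
    · rw [adj_nb_nb, show k + e - k = e by ring, he1]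
    · have hm := ht_nb X (k + e)
      zify
      rw [hm, h1, show (k + e) * X 1 0 + X 1 1 = (k * X 1 0 + X 1 1) + e * X 1 0 by ring]
      exact he2

end Pool.Agent.H84
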