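import Mathlib

/-!
Word identities in a group with two elements satisfying the figure-eight knot relation.
-/

set_option linter.unusedSimpArgs false
set_option linter.unusedSectionVars false

namespace Pool.Agent.H84

variable {G : Type*} [Group G]

/-- the figure eight relator -/
def rel8 (a b : G) : G := a⁻¹ * b * a * b⁻¹ * a * b * a⁻¹ * b⁻¹ * a * b⁻¹

/-- the longitude -/
def lam (a b : G) : G := b * a⁻¹ * b⁻¹ * a * a * b⁻¹ * a⁻¹ * b

def s0 (a b : G) : G := b * a * b⁻¹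
def s1 (_a b : G) : G := b
def s2 (a b : G) : G := b * a⁻¹ * b⁻¹
def s3 (a b : G) : G := b * a⁻¹ * b⁻¹ * a * a * b⁻¹

section
variable (a b : G) (h : rel8 a b = 1)
include h

theorem lam_comm : a * lam a b = lam a b * a := by
  have h2 : a * lam a b * a⁻¹ * (lam a b)⁻¹ =
      (b * a⁻¹ * b⁻¹ * a) * rel8 a b * (b * a⁻¹ * b⁻¹ * a)⁻¹ *
      ((b * a⁻¹ * b⁻¹ * a * a * b⁻¹) * (rel8 a b)⁻¹ * (b * a⁻¹ * b⁻¹ * a * a * b⁻¹)⁻¹) := by
    unfold rel8 lam; group
  rw [h] at h2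
  have h3 : a * lam a b * a⁻¹ * (lam a b)⁻¹ = 1 := by rw [h2]; group
  calc a * lam a b = (a * lam a b * a⁻¹ * (lam a b)⁻¹) * (lam a b * a) := by group
    _ = lam a b * a := by rw [h3, one_mul]

theorem id01 : a * s0 a b = s0 a b * a * s3 a b := by
  have h2 : (a * s0 a b) * (s0 a b * a * s3 a b)⁻¹ =
      ((a) * (rel8 a b)⁻¹ * (a)⁻¹) := by
    simp only [rel8, lam, s0, s1, s2, s3, mul_inv_rev, inv_inv, mul_assoc, inv_mul_cancel_left,
      mul_inv_cancel_left, mul_inv_cancel, inv_mul_cancel, mul_one, one_mul]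
  rw [h] at h2
  exact mul_inv_eq_one.mp (by rw [h2]; group)

theorem id11 : a * s1 a b = s1 a b * (lam a b)⁻¹ * s2 a b * a * a := by
  simp only [lam, s0, s1, s2, s3, mul_inv_rev, inv_inv, mul_assoc, inv_mul_cancel_left,
      mul_inv_cancel_left, mul_inv_cancel, inv_mul_cancel, mul_one, one_mul]

theorem id21 : a * s2 a b = s2 a b * a * s1 a b * a⁻¹ := by
  have h2 : (a * s2 a b) * (s2 a b * a * s1 a b * a⁻¹)⁻¹ =
      ((b * a⁻¹ * b⁻¹ * a) * rel8 a b * (b * a⁻¹ * b⁻¹ * a)⁻¹) := by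
    simp only [rel8, lam, s0, s1, s2, s3, mul_inv_rev, inv_inv, mul_assoc, inv_mul_cancel_left,
      mul_inv_cancel_left, mul_inv_cancel, inv_mul_cancel, mul_one, one_mul]
  rw [h] at h2
  exact mul_inv_eq_one.mp (by rw [h2]; group)

theorem id31 : a * s3 a b = s3 a b * a⁻¹ * s0 a b * a := by
  have h2 : (a * s3 a b) * (s3 a b * a⁻¹ * s0 a b * a)⁻¹ =
      ((b * a⁻¹ * b⁻¹ * a) * rel8 a b * (b * a⁻¹ * b⁻¹ * a)⁻¹) * ((b * a⁻¹ * b⁻¹ * a * a * b⁻¹) * (rel8 a b)⁻¹ * (b * a⁻¹ * b⁻¹ * a * a * b⁻¹)⁻¹) := by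
    simp only [rel8, lam, s0, s1, s2, s3, mul_inv_rev, inv_inv, mul_assoc, inv_mul_cancel_left,
      mul_inv_cancel_left, mul_inv_cancel, inv_mul_cancel, mul_one, one_mul]
  rw [h] at h2
  exact mul_inv_eq_one.mp (by rw [h2]; group)

theorem id02 : a * s1 a b = s0 a b * a * s2 a b * a := by
  have h2 : (a * s1 a b) * (s0 a b * a * s2 a b * a)⁻¹ =
      ((a) * (rel8 a b)⁻¹ * (a)⁻¹) := by
    simp only [rel8, lam, s0, s1, s2, s3, mul_inv_rev, inv_inv, mul_assoc, inv_mul_cancel_left,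
      mul_inv_cancel_left, mul_inv_cancel, inv_mul_cancel, mul_one, one_mul]
  rw [h] at h2
  exact mul_inv_eq_one.mp (by rw [h2]; group)

theorem id12 : a * s2 a b = s1 a b * (lam a b)⁻¹ * a⁻¹ * s2 a b * a := by
  have h2 : (a * s2 a b) * (s1 a b * (lam a b)⁻¹ * a⁻¹ * s2 a b * a)⁻¹ =
      ((a * b * a⁻¹ * b⁻¹) * rel8 a b * (a * b * a⁻¹ * b⁻¹)⁻¹) := by
    simp only [rel8, lam, s0, s1, s2, s3, mul_inv_rev, inv_inv, mul_assoc, inv_mul_cancel_left,
      mul_inv_cancel_left, mul_inv_cancel, inv_mul_cancel, mul_one, one_mul]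
  rw [h] at h2
  exact mul_inv_eq_one.mp (by rw [h2]; group)

theorem id22 : a * s3 a b = s2 a b * a * s0 a b := by
  have h2 : (a * s3 a b) * (s2 a b * a * s0 a b)⁻¹ =
      ((b * a⁻¹ * b⁻¹ * a) * rel8 a b * (b * a⁻¹ * b⁻¹ * a)⁻¹) := by
    simp only [rel8, lam, s0, s1, s2, s3, mul_inv_rev, inv_inv, mul_assoc, inv_mul_cancel_left,
      mul_inv_cancel_left, mul_inv_cancel, inv_mul_cancel, mul_one, one_mul]
  rw [h] at h2
  exact mul_inv_eq_one.mp (by rw [h2]; group)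

theorem id32 : lam a b * a⁻¹ * s0 a b = s3 a b * a⁻¹ * a⁻¹ * s0 a b * a := by
  have h2 : (lam a b * a⁻¹ * s0 a b) * (s3 a b * a⁻¹ * a⁻¹ * s0 a b * a)⁻¹ =
      ((b * a⁻¹ * b⁻¹ * a * a * b⁻¹ * a⁻¹) * (rel8 a b)⁻¹ * (b * a⁻¹ * b⁻¹ * a * a * b⁻¹ * a⁻¹)⁻¹) := by
    simp only [rel8, lam, s0, s1, s2, s3, mul_inv_rev, inv_inv, mul_assoc, inv_mul_cancel_left,
      mul_inv_cancel_left, mul_inv_cancel, inv_mul_cancel, mul_one, one_mul]
  rw [h] at h2
  exact mul_inv_eq_one.mp (by rw [h2]; group)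

theorem id03 : s1 a b = s0 a b * s1 a b * a⁻¹ := by
  simp only [lam, s0, s1, s2, s3, mul_inv_rev, inv_inv, mul_assoc, inv_mul_cancel_left,
      mul_inv_cancel_left, mul_inv_cancel, inv_mul_cancel, mul_one, one_mul]

theorem id23 : s1 a b = s2 a b * s1 a b * a := by
  simp only [lam, s0, s1, s2, s3, mul_inv_rev, inv_inv, mul_assoc, inv_mul_cancel_left,
      mul_inv_cancel_left, mul_inv_cancel, inv_mul_cancel, mul_one, one_mul]

theorem id33 : s2 a b = s3 a b * s1 a b * a⁻¹ * a⁻¹ := by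
  simp only [lam, s0, s1, s2, s3, mul_inv_rev, inv_inv, mul_assoc, inv_mul_cancel_left,
      mul_inv_cancel_left, mul_inv_cancel, inv_mul_cancel, mul_one, one_mul]

theorem id43 : lam a b * a⁻¹ * a⁻¹ * s0 a b = s3 a b * a⁻¹ * a⁻¹ * s1 a b * (lam a b)⁻¹ := by
  simp only [lam, s0, s1, s2, s3, mul_inv_rev, inv_inv, mul_assoc, inv_mul_cancel_left,
      mul_inv_cancel_left, mul_inv_cancel, inv_mul_cancel, mul_one, one_mul]

theorem idr0 : (s0 a b)⁻¹ = s2 a b := by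
  simp only [lam, s0, s1, s2, s3, mul_inv_rev, inv_inv, mul_assoc, inv_mul_cancel_left,
      mul_inv_cancel_left, mul_inv_cancel, inv_mul_cancel, mul_one, one_mul]

theorem idr1 : s1 a b * (lam a b)⁻¹ * s3 a b = a := by
  simp only [lam, s0, s1, s2, s3, mul_inv_rev, inv_inv, mul_assoc, inv_mul_cancel_left,
      mul_inv_cancel_left, mul_inv_cancel, inv_mul_cancel, mul_one, one_mul]

theorem idr3 : s3 a b * a⁻¹ * s1 a b = lam a b := by
  simp only [lam, s0, s1, s2, s3, mul_inv_rev, inv_inv, mul_assoc, inv_mul_cancel_left,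
      mul_inv_cancel_left, mul_inv_cancel, inv_mul_cancel, mul_one, one_mul]

end

end Pool.Agent.H84
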