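import Mathlib
import Pool.Agent.H84.FareyE
import Pool.Agent.H84.Fig8Rel

/-!
The figure-eight knot group acts on the Farey graph; faithfulness of the holonomy.
-/

set_option linter.unusedSectionVars false

namespace Pool.Agent.H84

open Eis

section words

variable {G : Type*} [Group G] (a b : G)

/-- the four representatives -/
def ss (r : ℤ) : G :=
  if r = 0 then s0 a b else if r = 1 then s1 a b else if r = 2 then s2 a b else s3 a b

/-- group elements sending `∞` to `x + y ω` -/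
def gam (x y : ℤ) : G := lam a b ^ (y / 4) * a ^ (x - 2 * (y / 4) - 1) * ss a b (y % 4)

theorem gam_eq {x y : ℤ} (j i l : ℤ) (hl0 : 0 ≤ l) (hl : l < 4) (hx : x = i + 2 * j + 1)
    (hy : y = 4 * j + l) : gam a b x y = lam a b ^ j * a ^ i * ss a b l := by
  have h1 : y / 4 = j := by omega
  have h2 : y % 4 = l := by omega
  unfold gam
  rw [h1, h2, hx]
  congr 3
  ring

/-- peripheral subgroup -/
def PP : Subgroup G := Subgroup.closure {a, lam a b}

theorem a_mem_PP : a ∈ PP a b := Subgroup.subset_closure (by simp)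
theorem lam_mem_PP : lam a b ∈ PP a b := Subgroup.subset_closure (by simp)

variable (h : rel8 a b = 1)
include h

theorem comm_al : Commute a (lam a b) := lam_comm a b h

theorem T_mul_gam (i j m n : ℤ) :
    lam a b ^ j * a ^ i * gam a b m n = gam a b (m + i + 2 * j) (n + 4 * j) := by
  have hc : a ^ i * lam a b ^ (n / 4) = lam a b ^ (n / 4) * a ^ i :=
    ((comm_al a b h).zpow_zpow i (n / 4)).eq
  rw [gam_eq a b (x := m + i + 2 * j) (y := n + 4 * j) (j + n / 4) (i + (m - 2 * (n / 4) - 1))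
    (n % 4) (Int.emod_nonneg _ (by norm_num)) (Int.emod_lt_of_pos _ (by norm_num)) (by ring)
    (by have := Int.emod_add_mul_ediv n 4; linarith)]
  unfold gam
  calc lam a b ^ j * a ^ i * (lam a b ^ (n / 4) * a ^ (m - 2 * (n / 4) - 1) * ss a b (n % 4))
      = lam a b ^ j * (a ^ i * lam a b ^ (n / 4)) * a ^ (m - 2 * (n / 4) - 1) * ss a b (n % 4) := by
        simp only [mul_assoc]
    _ = lam a b ^ (j + n / 4) * a ^ (i + (m - 2 * (n / 4) - 1)) * ss a b (n % 4) := by
        rw [hc, zpow_add, zpow_add]; simp only [mul_assoc]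

theorem mem_PP_iff (g : G) : g ∈ PP a b ↔ ∃ i j : ℤ, g = lam a b ^ j * a ^ i := by
  constructor
  · intro hg
    unfold PP at hg
    induction hg using Subgroup.closure_induction with
    | mem x hx =>
      rcases hx with rfl | hx
      · exact ⟨1, 0, by simp⟩
      · rw [Set.mem_singleton_iff] at hx
        exact ⟨0, 1, by simp [hx]⟩
    | one => exact ⟨0, 0, by simp⟩
    | mul x y _ _ hx hy =>
      obtain ⟨i, j, rfl⟩ := hx
      obtain ⟨i', j', rfl⟩ := hy
      refine ⟨i + i', j + j', ?_⟩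
      have hc : a ^ i * lam a b ^ j' = lam a b ^ j' * a ^ i :=
        ((comm_al a b h).zpow_zpow i j').eq
      calc lam a b ^ j * a ^ i * (lam a b ^ j' * a ^ i')
          = lam a b ^ j * (a ^ i * lam a b ^ j') * a ^ i' := by simp only [mul_assoc]
        _ = lam a b ^ (j + j') * a ^ (i + i') := by
          rw [hc, zpow_add, zpow_add]; simp only [mul_assoc]
    | inv x _ hx =>
      obtain ⟨i, j, rfl⟩ := hx
      refine ⟨-i, -j, ?_⟩
      have hc : a ^ (-i) * lam a b ^ (-j) = lam a b ^ (-j) * a ^ (-i) :=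
        ((comm_al a b h).zpow_zpow (-i) (-j)).eq
      rw [mul_inv_rev, ← zpow_neg, ← zpow_neg, hc]
  · rintro ⟨i, j, rfl⟩
    exact mul_mem (zpow_mem (lam_mem_PP a b) _) (zpow_mem (a_mem_PP a b) _)

omit h

/-- adjacency of cosets -/
def AdjE (x y : G ⧸ PP a b) : Prop :=
  ∃ (g : G) (m n : ℤ), x = (g : G ⧸ PP a b) ∧ y = ((g * gam a b m n : G) : G ⧸ PP a b)

theorem AdjE_smul {g1 g2 : G} (g : G)
    (hh : AdjE a b (g1 : G ⧸ PP a b) (g2 : G ⧸ PP a b)) :
    AdjE a b ((g * g1 : G) : G ⧸ PP a b) ((g * g2 : G) : G ⧸ PP a b) := by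
  obtain ⟨k, m, n, h1, h2⟩ := hh
  refine ⟨g * k, m, n, ?_, ?_⟩
  · rw [QuotientGroup.eq] at h1 ⊢
    rw [show (g * g1)⁻¹ * (g * k) = g1⁻¹ * k by group]; exact h1
  · rw [QuotientGroup.eq] at h2 ⊢
    rw [show (g * g2)⁻¹ * (g * k * gam a b m n) = g2⁻¹ * (k * gam a b m n) by group]; exact h2

include h

theorem reverse (m n : ℤ) : ∃ m' n' : ℤ, gam a b m n * gam a b m' n' ∈ PP a b := by
  have key : ∃ m' n' : ℤ, ss a b (n % 4) * gam a b m' n' ∈ PP a b := by
    have h0 := Int.emod_nonneg n (show (4 : ℤ) ≠ 0 by norm_num)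
    have h4 := Int.emod_lt_of_pos n (show (0 : ℤ) < 4 by norm_num)
    obtain h' | h' | h' | h' : n % 4 = 0 ∨ n % 4 = 1 ∨ n % 4 = 2 ∨ n % 4 = 3 := by omega
    · refine ⟨1, 2, ?_⟩
      rw [h', gam_eq a b 0 0 2 (by norm_num) (by norm_num) (by norm_num) (by norm_num)]
      have : ss a b 0 * (lam a b ^ (0 : ℤ) * a ^ (0 : ℤ) * ss a b 2) = 1 := by
        simp only [ss]; norm_num
        rw [← idr0 a b h]; group
      rw [this]; exact one_mem _
    · refine ⟨-1, -1, ?_⟩
      rw [h', gam_eq a b (-1) 0 3 (by norm_num) (by norm_num) (by norm_num) (by norm_num)]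
      have : ss a b 1 * (lam a b ^ (-1 : ℤ) * a ^ (0 : ℤ) * ss a b 3) = a := by
        simp only [ss]; norm_num
        rw [← mul_assoc]; exact (idr1 a b h)
      rw [this]; exact a_mem_PP a b
    · refine ⟨1, 0, ?_⟩
      rw [h', gam_eq a b 0 0 0 (by norm_num) (by norm_num) (by norm_num) (by norm_num)]
      have : ss a b 2 * (lam a b ^ (0 : ℤ) * a ^ (0 : ℤ) * ss a b 0) = 1 := by
        simp only [ss]; norm_num
        rw [← idr0 a b h]; group
      rw [this]; exact one_mem _
    · refine ⟨0, 1, ?_⟩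
      rw [h', gam_eq a b 0 (-1) 1 (by norm_num) (by norm_num) (by norm_num) (by norm_num)]
      have : ss a b 3 * (lam a b ^ (0 : ℤ) * a ^ (-1 : ℤ) * ss a b 1) = lam a b := by
        simp only [ss]; norm_num
        rw [← mul_assoc]; exact (idr3 a b h)
      rw [this]; exact lam_mem_PP a b
  obtain ⟨m', n', hk⟩ := key
  refine ⟨m', n', ?_⟩
  unfold gam at hk ⊢
  rw [mul_assoc]
  exact mul_mem (mul_mem (zpow_mem (lam_mem_PP a b) _) (zpow_mem (a_mem_PP a b) _)) hk

theorem AdjE_symm {x y : G ⧸ PP a b} (hh : AdjE a b x y) : AdjE a b y x := by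
  obtain ⟨g, m, n, rfl, rfl⟩ := hh
  obtain ⟨m', n', hk⟩ := reverse a b h m n
  refine ⟨g * gam a b m n, m', n', rfl, ?_⟩
  rw [QuotientGroup.eq]
  rw [show g⁻¹ * (g * gam a b m n * gam a b m' n') = gam a b m n * gam a b m' n' by group]
  exact hk

theorem AdjE_of_eq {g1 g2 p : G} (m n : ℤ) (hp : p ∈ PP a b) (he : g2 = g1 * gam a b m n * p) :
    AdjE a b (g1 : G ⧸ PP a b) (g2 : G ⧸ PP a b) := by
  refine ⟨g1, m, n, rfl, ?_⟩
  rw [QuotientGroup.eq, he]
  rw [show (g1 * gam a b m n * p)⁻¹ * (g1 * gam a b m n) = p⁻¹ by group]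
  exact inv_mem hp

theorem tri_base (l : ℤ) (h0 : 0 ≤ l) (h4 : l < 4) (u1 u2 : ℤ)
    (hu : (u1 = 1 ∧ u2 = 0) ∨ (u1 = 1 ∧ u2 = 1) ∨ (u1 = 0 ∧ u2 = 1)) :
    AdjE a b ((ss a b l : G) : G ⧸ PP a b) ((gam a b (1 + u1) (l + u2) : G) : G ⧸ PP a b) := by
  have ha := a_mem_PP a b
  have hl := lam_mem_PP a b
  obtain rfl | rfl | rfl | rfl : l = 0 ∨ l = 1 ∨ l = 2 ∨ l = 3 := by omega
  · rcases hu with ⟨rfl, rfl⟩ | ⟨rfl, rfl⟩ | ⟨rfl, rfl⟩
    · refine AdjE_of_eq a b h 2 3 (one_mem _) ?_
      rw [gam_eq a b 0 1 0 (by norm_num) (by norm_num) (by norm_num) (by norm_num),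
        gam_eq a b 0 1 3 (by norm_num) (by norm_num) (by norm_num) (by norm_num)]
      simp only [ss]; norm_num
      rw [id01 a b h]; simp only [mul_assoc]
    · refine AdjE_of_eq a b h 2 2 ha ?_
      rw [gam_eq a b 0 1 1 (by norm_num) (by norm_num) (by norm_num) (by norm_num),
        gam_eq a b 0 1 2 (by norm_num) (by norm_num) (by norm_num) (by norm_num)]
      simp only [ss]; norm_num
      rw [id02 a b h]; simp only [mul_assoc]
    · refine AdjE_of_eq a b h 1 1 (inv_mem ha) ?_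
      rw [gam_eq a b 0 0 1 (by norm_num) (by norm_num) (by norm_num) (by norm_num),
        gam_eq a b 0 0 1 (by norm_num) (by norm_num) (by norm_num) (by norm_num)]
      simp only [ss]; norm_num
      exact id03 a b h
  · rcases hu with ⟨rfl, rfl⟩ | ⟨rfl, rfl⟩ | ⟨rfl, rfl⟩
    · refine AdjE_of_eq a b h (-1) (-2) (mul_mem ha ha) ?_
      rw [gam_eq a b 0 1 1 (by norm_num) (by norm_num) (by norm_num) (by norm_num),
        gam_eq a b (-1) 0 2 (by norm_num) (by norm_num) (by norm_num) (by norm_num)]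
      simp only [ss]; norm_num
      rw [id11 a b h]; simp only [mul_assoc]
    · refine AdjE_of_eq a b h (-2) (-2) ha ?_
      rw [gam_eq a b 0 1 2 (by norm_num) (by norm_num) (by norm_num) (by norm_num),
        gam_eq a b (-1) (-1) 2 (by norm_num) (by norm_num) (by norm_num) (by norm_num)]
      simp only [ss]; norm_num
      rw [id12 a b h]; simp only [mul_assoc]
    · apply AdjE_symm a b h
      refine AdjE_of_eq a b h 1 1 ha ?_
      rw [gam_eq a b 0 0 2 (by norm_num) (by norm_num) (by norm_num) (by norm_num),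
        gam_eq a b 0 0 1 (by norm_num) (by norm_num) (by norm_num) (by norm_num)]
      simp only [ss]; norm_num
      exact id23 a b h
  · rcases hu with ⟨rfl, rfl⟩ | ⟨rfl, rfl⟩ | ⟨rfl, rfl⟩
    · refine AdjE_of_eq a b h 2 1 (inv_mem ha) ?_
      rw [gam_eq a b 0 1 2 (by norm_num) (by norm_num) (by norm_num) (by norm_num),
        gam_eq a b 0 1 1 (by norm_num) (by norm_num) (by norm_num) (by norm_num)]
      simp only [ss]; norm_num
      rw [id21 a b h]; simp only [mul_assoc]
    · refine AdjE_of_eq a b h 2 0 (one_mem _) ?_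
      rw [gam_eq a b 0 1 3 (by norm_num) (by norm_num) (by norm_num) (by norm_num),
        gam_eq a b 0 1 0 (by norm_num) (by norm_num) (by norm_num) (by norm_num)]
      simp only [ss]; norm_num
      rw [id22 a b h]; simp only [mul_assoc]
    · apply AdjE_symm a b h
      refine AdjE_of_eq a b h 1 1 (inv_mem (mul_mem ha ha)) ?_
      rw [gam_eq a b 0 0 3 (by norm_num) (by norm_num) (by norm_num) (by norm_num),
        gam_eq a b 0 0 1 (by norm_num) (by norm_num) (by norm_num) (by norm_num)]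
      simp only [ss]; norm_num
      rw [id33 a b h]; simp only [mul_assoc]
  · rcases hu with ⟨rfl, rfl⟩ | ⟨rfl, rfl⟩ | ⟨rfl, rfl⟩
    · refine AdjE_of_eq a b h 0 0 ha ?_
      rw [gam_eq a b 0 1 3 (by norm_num) (by norm_num) (by norm_num) (by norm_num),
        gam_eq a b 0 (-1) 0 (by norm_num) (by norm_num) (by norm_num) (by norm_num)]
      simp only [ss]; norm_num
      rw [id31 a b h]; simp only [mul_assoc]
    · refine AdjE_of_eq a b h (-1) 0 ha ?_
      rw [gam_eq a b 1 (-1) 0 (by norm_num) (by norm_num) (by norm_num) (by norm_num),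
        gam_eq a b 0 (-2) 0 (by norm_num) (by norm_num) (by norm_num) (by norm_num)]
      simp only [ss]; norm_num
      rw [show (a ^ 2)⁻¹ = a⁻¹ * a⁻¹ by group]
      rw [id32 a b h]; simp only [mul_assoc]
    · refine AdjE_of_eq a b h (-1) 1 (inv_mem hl) ?_
      rw [gam_eq a b 1 (-2) 0 (by norm_num) (by norm_num) (by norm_num) (by norm_num),
        gam_eq a b 0 (-2) 1 (by norm_num) (by norm_num) (by norm_num) (by norm_num)]
      simp only [ss]; norm_num
      rw [show (a ^ 2)⁻¹ = a⁻¹ * a⁻¹ by group]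
      rw [← mul_assoc (lam a b), id43 a b h]; simp only [mul_assoc]

theorem tri_pos (x y u1 u2 : ℤ)
    (hu : (u1 = 1 ∧ u2 = 0) ∨ (u1 = 1 ∧ u2 = 1) ∨ (u1 = 0 ∧ u2 = 1)) :
    AdjE a b ((gam a b x y : G) : G ⧸ PP a b) ((gam a b (x + u1) (y + u2) : G) : G ⧸ PP a b) := by
  have h1 := tri_base a b h (y % 4) (Int.emod_nonneg _ (by norm_num))
    (Int.emod_lt_of_pos _ (by norm_num)) u1 u2 hu
  have h2 := AdjE_smul a b (lam a b ^ (y / 4) * a ^ (x - 2 * (y / 4) - 1)) h1
  rw [T_mul_gam a b h] at h2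
  have h3 := Int.emod_add_mul_ediv y 4
  rw [show 1 + u1 + (x - 2 * (y / 4) - 1) + 2 * (y / 4) = x + u1 by ring,
    show y % 4 + u2 + 4 * (y / 4) = y + u2 by linarith] at h2
  exact h2

theorem tri_all (x y x' y' : ℤ) (hN : N (⟨x, y⟩ - ⟨x', y'⟩ : Eis) = 1) :
    AdjE a b ((gam a b x y : G) : G ⧸ PP a b) ((gam a b x' y' : G) : G ⧸ PP a b) := by
  have hc := N_le_one_cases hN
  have e : (⟨x, y⟩ - ⟨x', y'⟩ : Eis) = ⟨x - x', y - y'⟩ := rfl
  rw [e] at hc
  simp only [QuadraticAlgebra.mk.injEq] at hc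
  rcases hc with hc | hc | hc | hc | hc | hc
  · apply AdjE_symm a b h
    have := tri_pos a b h x' y' 1 0 (by simp)
    rwa [show x' + 1 = x by omega, show y' + 0 = y by omega] at this
  · have := tri_pos a b h x y 1 0 (by simp)
    rwa [show x + 1 = x' by omega, show y + 0 = y' by omega] at this
  · apply AdjE_symm a b h
    have := tri_pos a b h x' y' 0 1 (by simp)
    rwa [show x' + 0 = x by omega, show y' + 1 = y by omega] at this
  · have := tri_pos a b h x y 0 1 (by simp)
    rwa [show x + 0 = x' by omega, show y + 1 = y' by omega] at this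
  · apply AdjE_symm a b h
    have := tri_pos a b h x' y' 1 1 (by simp)
    rwa [show x' + 1 = x by omega, show y' + 1 = y by omega] at this
  · have := tri_pos a b h x y 1 1 (by simp)
    rwa [show x + 1 = x' by omega, show y + 1 = y' by omega] at this

end words

end Pool.Agent.H84
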