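import Mathlib
import Pool.Agent.H84.Fig8Cover

/-!
The holonomy representation of the figure-eight knot group into `SL(2, Z[ω])`, its
faithfulness and its peripheral structure.
-/

set_option linter.unusedSectionVars false
set_option linter.unusedSimpArgs false

namespace Pool.Agent.H84

open Eis

def A8 : SLE := ⟨!![1, 1; 0, 1], by simp [Matrix.det_fin_two]⟩
def B8 : SLE := ⟨!![1, 0; ⟨0, -1⟩, 1], by simp [Matrix.det_fin_two]⟩

theorem A800 : A8 0 0 = 1 := rfl
theorem A801 : A8 0 1 = 1 := rfl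
theorem A810 : A8 1 0 = 0 := rfl
theorem A811 : A8 1 1 = 1 := rfl
theorem B800 : B8 0 0 = 1 := rfl
theorem B801 : B8 0 1 = 0 := rfl
theorem B810 : B8 1 0 = ⟨0, -1⟩ := rfl
theorem B811 : B8 1 1 = 1 := rfl

theorem ext4 {X Y : SLE} (h00 : X 0 0 = Y 0 0) (h01 : X 0 1 = Y 0 1) (h10 : X 1 0 = Y 1 0)
    (h11 : X 1 1 = Y 1 1) : X = Y := by
  refine Matrix.SpecialLinearGroup.ext _ _ ?_
  intro i j
  fin_cases i <;> fin_cases j
  · exact h00
  · exact h01
  · exact h10
  · exact h11

theorem rel8_AB : rel8 A8 B8 = 1 := by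
  unfold rel8
  apply ext4 <;> simp only [mul00, mul01, mul10, mul11, inv00, inv01, inv10, inv11, A800, A801,
    A810, A811, B800, B801, B810, B811] <;> decide

theorem lam_AB : lam A8 B8 = ⟨!![-1, ⟨-2, -4⟩; 0, -1], by decide⟩ := by
  unfold lam
  apply ext4 <;> simp only [mul00, mul01, mul10, mul11, inv00, inv01, inv10, inv11, A800, A801,
    A810, A811, B800, B801, B810, B811] <;> decide

/-- sign -/
def sg (j : ℤ) : Eis := (((-1 : Eisˣ) ^ j : Eisˣ) : Eis)

theorem sg_add (i j : ℤ) : sg (i + j) = sg i * sg j := by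
  unfold sg; rw [zpow_add, Units.val_mul]

theorem sg_zero : sg 0 = 1 := by simp [sg]
theorem sg_one : sg 1 = -1 := by simp [sg]
theorem sg_mul_self (j : ℤ) : sg j * sg j = 1 := by
  unfold sg
  rw [← Units.val_mul, ← mul_zpow]; simp

/-- the peripheral matrices -/
def Tm (j i : ℤ) : SLE := ⟨!![sg j, sg j * ⟨i + 2 * j, 4 * j⟩; 0, sg j], by
  rw [Matrix.det_fin_two_of, sg_mul_self]; ring⟩

theorem Tm00 (j i : ℤ) : Tm j i 0 0 = sg j := rfl
theorem Tm01 (j i : ℤ) : Tm j i 0 1 = sg j * ⟨i + 2 * j, 4 * j⟩ := rfl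
theorem Tm10 (j i : ℤ) : Tm j i 1 0 = 0 := rfl
theorem Tm11 (j i : ℤ) : Tm j i 1 1 = sg j := rfl

theorem Tm_add (j i j' i' : ℤ) : Tm (j + j') (i + i') = Tm j i * Tm j' i' := by
  apply ext4
  · rw [mul00, Tm00, Tm00, Tm00, Tm01, Tm10, sg_add]; ring
  · rw [mul01, Tm00, Tm01, Tm01, Tm01, Tm11, sg_add]
    have : (⟨i + i' + 2 * (j + j'), 4 * (j + j')⟩ : Eis) = ⟨i + 2 * j, 4 * j⟩ + ⟨i' + 2 * j', 4 * j'⟩ := by
      ext <;> simp <;> ring
    rw [this]; ring
  · rw [mul10, Tm10, Tm10, Tm10]; ring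
  · rw [mul11, Tm10, Tm11, Tm11, Tm11, sg_add]; ring

theorem Tm_zero : Tm 0 0 = 1 := by
  apply ext4
  · rw [Tm00, sg_zero]; rfl
  · rw [Tm01, sg_zero]; rfl
  · rw [Tm10]; rfl
  · rw [Tm11, sg_zero]; rfl

theorem Tm_zpow (j i n : ℤ) : (Tm j i) ^ n = Tm (n * j) (n * i) := by
  induction n using Int.induction_on with
  | zero => simp [Tm_zero]
  | succ n ih =>
    rw [zpow_add_one, ih, ← Tm_add]; congr 1 <;> ring
  | pred n ih =>
    rw [zpow_sub_one, ih]
    have : (Tm j i)⁻¹ = Tm (-j) (-i) := by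
      rw [inv_eq_iff_mul_eq_one, ← Tm_add]
      rw [show j + -j = 0 by ring, show i + -i = 0 by ring, Tm_zero]
    rw [this, ← Tm_add]; congr 1 <;> ring

theorem A8_eq : A8 = Tm 0 1 := by
  apply ext4
  · rw [Tm00, sg_zero]; rfl
  · rw [Tm01, sg_zero]; rfl
  · rw [Tm10]; rfl
  · rw [Tm11, sg_zero]; rfl

theorem lam_eq : lam A8 B8 = Tm 1 0 := by
  rw [lam_AB]
  apply ext4
  · rw [Tm00, sg_one]; rfl
  · rw [Tm01, sg_one]; decide
  · rw [Tm10]; rfl
  · rw [Tm11, sg_one]; rfl

/-- the values of the representatives: they send `∞` to `1 + l ω`. -/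
theorem ss_AB (l : ℤ) (h0 : 0 ≤ l) (h4 : l < 4) :
    (ss A8 B8 l) 0 0 = ⟨1, l⟩ * (ss A8 B8 l) 1 0 := by
  obtain rfl | rfl | rfl | rfl : l = 0 ∨ l = 1 ∨ l = 2 ∨ l = 3 := by omega
  · have e : ss A8 B8 0 = s0 A8 B8 := rfl
    rw [e]; unfold s0
    simp only [mul00, mul01, mul10, mul11, inv00, inv01, inv10, inv11, A800, A801,
    A810, A811, B800, B801, B810, B811]; decide
  · have e : ss A8 B8 1 = s1 A8 B8 := rfl
    rw [e]; unfold s1
    simp only [B800, B810]; decide
  · have e : ss A8 B8 2 = s2 A8 B8 := rfl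
    rw [e]; unfold s2
    simp only [mul00, mul01, mul10, mul11, inv00, inv01, inv10, inv11, A800, A801,
    A810, A811, B800, B801, B810, B811]; decide
  · have e : ss A8 B8 3 = s3 A8 B8 := rfl
    rw [e]; unfold s3
    simp only [mul00, mul01, mul10, mul11, inv00, inv01, inv10, inv11, A800, A801,
    A810, A811, B800, B801, B810, B811]; decide

section
variable {G : Type*} [Group G] (a b : G) (h : rel8 a b = 1) (f : G →* SLE) (fa : f a = A8)
  (fb : f b = B8)
include fa fb

theorem f_lam : f (lam a b) = Tm 1 0 := by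
  rw [← lam_eq]; unfold lam; simp only [map_mul, map_inv, fa, fb]

theorem f_lam_a (j i : ℤ) : f (lam a b ^ j * a ^ i) = Tm j i := by
  rw [map_mul, map_zpow, map_zpow, f_lam a b f fa fb, fa, A8_eq, Tm_zpow, Tm_zpow, ← Tm_add]
  congr 1 <;> ring

theorem f_ss (l : ℤ) : f (ss a b l) = ss A8 B8 l := by
  unfold ss
  split_ifs <;> simp only [s0, s1, s2, s3, map_mul, map_inv, fa, fb]

theorem f_gam (x y : ℤ) : (f (gam a b x y)) 0 0 = ⟨x, y⟩ * (f (gam a b x y)) 1 0 := by
  unfold gam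
  rw [map_mul, f_lam_a a b f fa fb, f_ss a b f fa fb, mul00, mul10, Tm00, Tm01, Tm10, Tm11,
    ss_AB _ (Int.emod_nonneg _ (by norm_num)) (Int.emod_lt_of_pos _ (by norm_num))]
  have e : (⟨x, y⟩ : Eis) = ⟨1, y % 4⟩ + ⟨x - 2 * (y / 4) - 1 + 2 * (y / 4), 4 * (y / 4)⟩ := by
    have := Int.emod_add_mul_ediv y 4
    ext
    · simp; ring
    · simp; linarith
  rw [e]; ring

theorem mk_f_gam (X : SLE) (x y : ℤ) :
    ((X * f (gam a b x y) : SLE) : VV) = ((X * nbm ⟨x, y⟩ : SLE) : VV) := by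
  rw [mk_eq_iff, cr_mul_left]
  unfold cr
  rw [nbm10, nbm00, f_gam a b f fa fb]; ring

theorem f_PP {p : G} (hp : p ∈ PP a b) : f p ∈ U := by
  unfold PP at hp
  induction hp using Subgroup.closure_induction with
  | mem x hx =>
    rcases hx with rfl | hx
    · rw [fa]; rfl
    · rw [Set.mem_singleton_iff] at hx
      rw [hx, f_lam a b f fa fb]; rfl
  | one => rw [map_one]; exact one_mem _
  | mul x y _ _ hx hy => rw [map_mul]; exact mul_mem hx hy
  | inv x _ hx => rw [map_inv]; exact inv_mem hx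

omit fa fb in
/-- projection -/
noncomputable def prE (x : G ⧸ PP a b) : VV := ((f x.out : SLE) : VV)

theorem prE_mk (g : G) : prE a b f (g : G ⧸ PP a b) = ((f g : SLE) : VV) := by
  unfold prE
  have h1 : ((g : G ⧸ PP a b).out)⁻¹ * g ∈ PP a b := by
    rw [← QuotientGroup.eq]; exact QuotientGroup.out_eq' _
  have h2 := f_PP a b f fa fb h1
  rw [QuotientGroup.eq, ← map_inv, ← map_mul]
  exact h2

include h in
/-- The covering of the Farey graph. -/
noncomputable def cover8 : HCover farey (G ⧸ PP a b) where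
  pr := prE a b f
  Adj := AdjE a b
  symm := AdjE_symm a b h
  proj := by
    rintro _ _ ⟨g, m, n, rfl, rfl⟩
    rw [prE_mk a b f fa fb, prE_mk a b f fa fb, map_mul, mk_f_gam a b f fa fb]
    exact adj_nb _ _
  lift := by
    intro x w hw
    obtain ⟨g, rfl⟩ := QuotientGroup.mk_surjective x
    rw [prE_mk a b f fa fb] at hw
    obtain ⟨⟨m, n⟩, rfl⟩ := exists_nb _ _ hw
    refine ⟨_, ⟨g, m, n, rfl, rfl⟩, ?_⟩
    rw [prE_mk a b f fa fb, map_mul, mk_f_gam a b f fa fb]
  uniq := by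
    rintro x y y' ⟨g, m, n, rfl, rfl⟩ ⟨g', m', n', hx, rfl⟩ hp
    rw [prE_mk a b f fa fb, prE_mk a b f fa fb] at hp
    rw [QuotientGroup.eq] at hx
    obtain ⟨i, j, hij⟩ := (mem_PP_iff a b h _).mp hx
    have hg' : g' = g * (lam a b ^ j * a ^ i) := by rw [← hij]; group
    have e : g' * gam a b m' n' = g * gam a b (m' + i + 2 * j) (n' + 4 * j) := by
      rw [hg', mul_assoc, T_mul_gam a b h]
    rw [e] at hp ⊢
    rw [map_mul, map_mul, mk_f_gam a b f fa fb, mk_f_gam a b f fa fb] at hp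
    have := nb_inj _ _ _ hp
    rw [QuadraticAlgebra.mk.injEq] at this
    rw [this.1, this.2]
  tri := by
    rintro x y z ⟨g, m, n, rfl, rfl⟩ ⟨g', m', n', hx, rfl⟩ hp
    rw [prE_mk a b f fa fb, prE_mk a b f fa fb] at hp
    rw [QuotientGroup.eq] at hx
    obtain ⟨i, j, hij⟩ := (mem_PP_iff a b h _).mp hx
    have hg' : g' = g * (lam a b ^ j * a ^ i) := by rw [← hij]; group
    have e : g' * gam a b m' n' = g * gam a b (m' + i + 2 * j) (n' + 4 * j) := by
      rw [hg', mul_assoc, T_mul_gam a b h]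
    rw [e] at hp ⊢
    rw [map_mul, map_mul, mk_f_gam a b f fa fb, mk_f_gam a b f fa fb] at hp
    exact AdjE_smul a b g (tri_all a b h _ _ _ _ ((adj_nb_nb _ _ _).mp hp))

include h in
/-- **Faithfulness, peripheral form**: an element fixing the cusp `∞` is peripheral. -/
theorem mem_PP_of_f_mem_U (hgen : Subgroup.closure {a, b} = ⊤) {g : G} (hg : f g ∈ U) :
    g ∈ PP a b := by
  have hinj := HCover.injective (cover8 a b h f fa fb) (x0 := ((1 : G) : G ⧸ PP a b))
    (by
      change prE a b f ((1 : G) : G ⧸ PP a b) = ((1 : SLE) : VV)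
      rw [prE_mk a b f fa fb, map_one])
    (by
      intro S h1 hS
      have key : ∀ k : G, ∀ g : G, ((g : G) : G ⧸ PP a b) ∈ S → ((g * k : G) : G ⧸ PP a b) ∈ S := by
        intro k
        have hk : k ∈ Subgroup.closure ({a, b} : Set G) := by rw [hgen]; trivial
        have hb : ∀ g : G, ((g : G) : G ⧸ PP a b) ∈ S → ((g * b : G) : G ⧸ PP a b) ∈ S := by
          intro g hgS
          refine hS _ _ hgS ?_
          have e : gam a b 1 1 = b := by
            rw [gam_eq a b 0 0 1 (by norm_num) (by norm_num) (by norm_num) (by norm_num)]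
            simp [ss, s1]
          exact AdjE_of_eq a b h 1 1 (one_mem _) (by rw [e, mul_one])
        have hbi : ∀ g : G, ((g : G) : G ⧸ PP a b) ∈ S → ((g * b⁻¹ : G) : G ⧸ PP a b) ∈ S := by
          intro g hgS
          refine hS _ _ hgS ?_
          apply AdjE_symm a b h
          have e : gam a b 1 1 = b := by
            rw [gam_eq a b 0 0 1 (by norm_num) (by norm_num) (by norm_num) (by norm_num)]
            simp [ss, s1]
          exact AdjE_of_eq a b h 1 1 (one_mem _) (by rw [e]; group)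
        have ha : ∀ g : G, ((g : G) : G ⧸ PP a b) ∈ S → ((g * a : G) : G ⧸ PP a b) ∈ S := by
          intro g hgS
          have : ((g * a : G) : G ⧸ PP a b) = ((g : G) : G ⧸ PP a b) := by
            rw [QuotientGroup.eq, show (g * a)⁻¹ * g = a⁻¹ by group]
            exact inv_mem (a_mem_PP a b)
          rw [this]; exact hgS
        have hai : ∀ g : G, ((g : G) : G ⧸ PP a b) ∈ S → ((g * a⁻¹ : G) : G ⧸ PP a b) ∈ S := by
          intro g hgS
          have : ((g * a⁻¹ : G) : G ⧸ PP a b) = ((g : G) : G ⧸ PP a b) := by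
            rw [QuotientGroup.eq, show (g * a⁻¹)⁻¹ * g = a by group]
            exact a_mem_PP a b
          rw [this]; exact hgS
        have both : (∀ g : G, ((g : G) : G ⧸ PP a b) ∈ S → ((g * k : G) : G ⧸ PP a b) ∈ S) ∧
            (∀ g : G, ((g : G) : G ⧸ PP a b) ∈ S → ((g * k⁻¹ : G) : G ⧸ PP a b) ∈ S) := by
          induction hk using Subgroup.closure_induction with
          | mem x hx =>
            rcases hx with rfl | hx
            · exact ⟨ha, hai⟩
            · rw [Set.mem_singleton_iff] at hx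
              rw [hx]; exact ⟨hb, hbi⟩
          | one => simp
          | mul x y _ _ hx hy =>
            constructor
            · intro g hgS
              rw [← mul_assoc]; exact hy.1 _ (hx.1 _ hgS)
            · intro g hgS
              rw [mul_inv_rev, ← mul_assoc]; exact hx.2 _ (hy.2 _ hgS)
          | inv x _ hx =>
            refine ⟨hx.2, ?_⟩
            rw [inv_inv]; exact hx.1
        exact both.1
      intro x
      obtain ⟨g, rfl⟩ := QuotientGroup.mk_surjective x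
      have := key g 1 h1
      rwa [one_mul] at this)
  have : ((g : G) : G ⧸ PP a b) = ((1 : G) : G ⧸ PP a b) := by
    apply hinj
    change prE a b f _ = prE a b f _
    rw [prE_mk a b f fa fb, prE_mk a b f fa fb, map_one, mk_eq_iff]
    unfold cr
    rw [one00, one10, mem_U.mp hg]; ring
  rw [QuotientGroup.eq] at this
  have h2 := inv_mem this
  simpa using h2

include h in
theorem exists_ij (hgen : Subgroup.closure {a, b} = ⊤) {g : G} (hg : f g ∈ U) :
    ∃ i j : ℤ, g = lam a b ^ j * a ^ i ∧ f g = Tm j i := by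
  obtain ⟨i, j, hij⟩ := (mem_PP_iff a b h _).mp (mem_PP_of_f_mem_U a b h f fa fb hgen hg)
  exact ⟨i, j, hij, by rw [hij, f_lam_a a b f fa fb]⟩

include h in
/-- **Faithfulness of the holonomy**, modulo the centre. -/
theorem faithful8 (hgen : Subgroup.closure {a, b} = ⊤) {g : G} (hg1 : (f g) 0 1 = 0)
    (hg2 : (f g) 1 0 = 0) : g = 1 := by
  obtain ⟨i, j, h1, h2⟩ := exists_ij a b h f fa fb hgen hg2
  rw [h2, Tm01] at hg1
  have h3 : (⟨i + 2 * j, 4 * j⟩ : Eis) = 0 := by
    have : sg j * (sg j * ⟨i + 2 * j, 4 * j⟩) = 0 := by rw [hg1, mul_zero]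
    rwa [← mul_assoc, sg_mul_self, one_mul] at this
  have h4 : i + 2 * j = 0 := congrArg QuadraticAlgebra.re h3
  have h5 : 4 * j = 0 := congrArg QuadraticAlgebra.im h3
  have h6 : j = 0 := by omega
  have h7 : i = 0 := by omega
  rw [h1, h6, h7]; simp

end

end Pool.Agent.H84
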