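import Mathlib
import Pool.Agent.H84.Fig8Rep

/-!
Embedding into `SL(2, ℂ)`, presentations, discreteness, torsion-freeness.
-/

set_option linter.unusedSectionVars false
set_option linter.unusedSimpArgs false

namespace Pool.Agent.H84

open Eis

/-- `ω = (-1 + i √3)/2` -/
noncomputable def om : ℂ := ⟨-1 / 2, Real.sqrt 3 / 2⟩

theorem om_mul_om : om * om = -1 - om := by
  have h3 : Real.sqrt 3 * Real.sqrt 3 = 3 := Real.mul_self_sqrt (by norm_num)
  apply Complex.ext
  · simp [om]; nlinarith
  · simp [om]; ring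

/-- the embedding of the Eisenstein integers -/
noncomputable def emb : Eis →+* ℂ where
  toFun z := (z.re : ℂ) + z.im * om
  map_one' := by simp [QuadraticAlgebra.re_one, QuadraticAlgebra.im_one]
  map_zero' := by simp
  map_add' x y := by simp; ring
  map_mul' x y := by
    simp only [QuadraticAlgebra.re_mul, QuadraticAlgebra.im_mul]
    push_cast
    linear_combination (-(x.im : ℂ) * y.im) * om_mul_om

theorem emb_apply (z : Eis) : emb z = (z.re : ℂ) + z.im * om := rfl

theorem emb_re (z : Eis) : (emb z).re = z.re - z.im / 2 := by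
  rw [emb_apply]; simp [om]; ring

theorem emb_im (z : Eis) : (emb z).im = z.im * (Real.sqrt 3 / 2) := by
  rw [emb_apply]; simp [om]

theorem normSq_emb (z : Eis) : Complex.normSq (emb z) = N z := by
  have h3 : Real.sqrt 3 * Real.sqrt 3 = 3 := Real.mul_self_sqrt (by norm_num)
  rw [Complex.normSq_apply, emb_re, emb_im, N_def]
  push_cast
  have : (z.im : ℝ) * (Real.sqrt 3 / 2) * (z.im * (Real.sqrt 3 / 2)) =
    z.im * z.im * (Real.sqrt 3 * Real.sqrt 3) / 4 := by ring
  rw [this, h3]; ring

theorem emb_injective : Function.Injective emb := by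
  rw [injective_iff_map_eq_zero]
  intro z hz
  apply N_eq_zero
  have := normSq_emb z
  rw [hz, map_zero] at this
  exact_mod_cast this.symm

abbrev SLC := Matrix.SpecialLinearGroup (Fin 2) ℂ

/-- the embedding of special linear groups -/
noncomputable def embSL : SLE →* SLC := Matrix.SpecialLinearGroup.map emb

theorem embSL_apply (X : SLE) (i j : Fin 2) : (embSL X) i j = emb (X i j) := rfl

theorem embSL_injective : Function.Injective embSL := by
  intro X Y h
  refine Matrix.SpecialLinearGroup.ext _ _ fun i j => ?_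
  apply emb_injective
  rw [← embSL_apply, ← embSL_apply, h]

theorem cmul00 (X Y : SLC) : (X * Y) 0 0 = X 0 0 * Y 0 0 + X 0 1 * Y 1 0 := by
  rw [Matrix.SpecialLinearGroup.coe_mul, Matrix.mul_apply, Fin.sum_univ_two]
theorem cmul01 (X Y : SLC) : (X * Y) 0 1 = X 0 0 * Y 0 1 + X 0 1 * Y 1 1 := by
  rw [Matrix.SpecialLinearGroup.coe_mul, Matrix.mul_apply, Fin.sum_univ_two]
theorem cmul10 (X Y : SLC) : (X * Y) 1 0 = X 1 0 * Y 0 0 + X 1 1 * Y 1 0 := by
  rw [Matrix.SpecialLinearGroup.coe_mul, Matrix.mul_apply, Fin.sum_univ_two]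
theorem cmul11 (X Y : SLC) : (X * Y) 1 1 = X 1 0 * Y 0 1 + X 1 1 * Y 1 1 := by
  rw [Matrix.SpecialLinearGroup.coe_mul, Matrix.mul_apply, Fin.sum_univ_two]
theorem cinv00 (X : SLC) : X⁻¹ 0 0 = X 1 1 := by
  rw [Matrix.SpecialLinearGroup.coe_inv, Matrix.adjugate_fin_two]; rfl
theorem cinv01 (X : SLC) : X⁻¹ 0 1 = - X 0 1 := by
  rw [Matrix.SpecialLinearGroup.coe_inv, Matrix.adjugate_fin_two]; rfl
theorem cinv10 (X : SLC) : X⁻¹ 1 0 = - X 1 0 := by
  rw [Matrix.SpecialLinearGroup.coe_inv, Matrix.adjugate_fin_two]; rfl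
theorem cinv11 (X : SLC) : X⁻¹ 1 1 = X 0 0 := by
  rw [Matrix.SpecialLinearGroup.coe_inv, Matrix.adjugate_fin_two]; rfl
theorem cdet (X : SLC) : X 0 0 * X 1 1 - X 0 1 * X 1 0 = 1 := by
  have := X.2
  rw [Matrix.det_fin_two] at this
  exact this
theorem cext4 {X Y : SLC} (h00 : X 0 0 = Y 0 0) (h01 : X 0 1 = Y 0 1) (h10 : X 1 0 = Y 1 0)
    (h11 : X 1 1 = Y 1 1) : X = Y := by
  refine Matrix.SpecialLinearGroup.ext _ _ ?_
  intro i j
  fin_cases i <;> fin_cases j
  · exact h00
  · exact h01
  · exact h10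
  · exact h11

/-- discreteness of every subgroup of `SL(2, Z[ω])` in `SL(2, ℂ)` -/
theorem discrete_of_le (Γ : Subgroup SLC) (h : Γ ≤ embSL.range) : DiscreteTopology Γ := by
  rw [discreteTopology_iff_isOpen_singleton_one]
  have hopen : IsOpen {g : SLC | Complex.normSq (g 0 0 - 1) < 1 ∧ Complex.normSq (g 0 1) < 1 ∧
      Complex.normSq (g 1 0) < 1 ∧ Complex.normSq (g 1 1 - 1) < 1} := by
    have hc : ∀ i j : Fin 2, Continuous fun g : SLC => g i j := by
      intro i j
      exact (continuous_subtype_val.matrix_elem i j)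
    refine ((isOpen_lt (Complex.continuous_normSq.comp ((hc 0 0).sub continuous_const))
      continuous_const).inter ?_)
    refine ((isOpen_lt (Complex.continuous_normSq.comp (hc 0 1)) continuous_const).inter ?_)
    refine ((isOpen_lt (Complex.continuous_normSq.comp (hc 1 0)) continuous_const).inter ?_)
    exact (isOpen_lt (Complex.continuous_normSq.comp ((hc 1 1).sub continuous_const))
      continuous_const)
  have : ({1} : Set Γ) = Subtype.val ⁻¹' {g : SLC | Complex.normSq (g 0 0 - 1) < 1 ∧
      Complex.normSq (g 0 1) < 1 ∧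
      Complex.normSq (g 1 0) < 1 ∧ Complex.normSq (g 1 1 - 1) < 1} := by
    ext g
    constructor
    · intro hg
      rw [Set.mem_singleton_iff] at hg
      subst hg
      simp
    · rintro ⟨h1, h2, h3, h4⟩
      obtain ⟨X, hX⟩ := h g.2
      have e : ∀ z : Eis, Complex.normSq (emb z) < 1 → z = 0 := by
        intro z hz
        rw [normSq_emb] at hz
        have h0 : N z < 1 := by exact_mod_cast hz
        have := N_nonneg z
        exact N_eq_zero (by omega)
      rw [← hX] at h1 h2 h3 h4
      simp only [embSL_apply] at h1 h2 h3 h4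
      rw [← map_one emb, ← map_sub] at h1 h4
      have e1 := e _ h1
      have e2 := e _ h2
      have e3 := e _ h3
      have e4 := e _ h4
      have hX1 : X = 1 := by
        apply ext4
        · rw [sub_eq_zero.mp e1]; rfl
        · rw [e2]; rfl
        · rw [e3]; rfl
        · rw [sub_eq_zero.mp e4]; rfl
      rw [Set.mem_singleton_iff]
      apply Subtype.ext
      rw [← hX, hX1, map_one]; rfl
  rw [this]
  exact hopen.preimage continuous_subtype_val

end Pool.Agent.H84
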