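import Mathlib
import Pool.Agent.H84.Fig8Embed

/-!
The figure-eight knot group is torsion free modulo the centre.
-/

set_option linter.unusedSectionVars false
set_option linter.unusedSimpArgs false

namespace Pool.Agent.H84

open Eis

/-! ### reduction modulo two -/

abbrev F4 := QuadraticAlgebra (ZMod 2) (-1) (-1)

/-- reduction mod 2 -/
def redE : Eis →+* F4 where
  toFun z := ⟨z.re, z.im⟩
  map_one' := rfl
  map_zero' := rfl
  map_add' x y := by ext <;> simp
  map_mul' x y := by ext <;> simp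

/-- rows as a quadruple -/
abbrev Q4 := F4 × F4 × F4 × F4

def mulQ (x y : Q4) : Q4 := (x.1 * y.1 + x.2.1 * y.2.2.1, x.1 * y.2.1 + x.2.1 * y.2.2.2,
  x.2.2.1 * y.1 + x.2.2.2 * y.2.2.1, x.2.2.1 * y.2.1 + x.2.2.2 * y.2.2.2)

def toQ (X : SLE) : Q4 := (redE (X 0 0), redE (X 0 1), redE (X 1 0), redE (X 1 1))

theorem toQ_mul (X Y : SLE) : toQ (X * Y) = mulQ (toQ X) (toQ Y) := by
  unfold toQ mulQ
  simp only [mul00, mul01, mul10, mul11, map_add, map_mul]

def S10 : List Q4 :=
  let a : Q4 := (1,1,0,1)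
  let b : Q4 := (1,0,⟨0,1⟩,1)
  let c := mulQ a b
  let c2 := mulQ c c
  let c3 := mulQ c2 c
  let c4 := mulQ c3 c
  [(1,0,0,1), c, c2, c3, c4, a, mulQ c a, mulQ c2 a, mulQ c3 a, mulQ c4 a]

theorem S10_closed : ∀ x ∈ S10, mulQ x (1,1,0,1) ∈ S10 ∧ mulQ x (1,0,⟨0,1⟩,1) ∈ S10 := by
  decide +kernel

theorem S10_trace : ∀ x ∈ S10, x.1 + x.2.2.2 ≠ 1 := by decide +kernel

theorem toQ_A : toQ A8 = (1,1,0,1) := rfl
theorem toQ_B : toQ B8 = (1,0,⟨0,1⟩,1) := by decide +kernel
theorem toQ_Ai : toQ A8⁻¹ = (1,1,0,1) := by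
  unfold toQ; rw [inv00, inv01, inv10, inv11]; decide +kernel
theorem toQ_Bi : toQ B8⁻¹ = (1,0,⟨0,1⟩,1) := by
  unfold toQ; rw [inv00, inv01, inv10, inv11]; decide +kernel

/-! ### the group -/

/-- the relator in the free group -/
def relw : FreeGroup (Fin 2) := rel8 (FreeGroup.of 0) (FreeGroup.of 1)

/-- the figure-eight knot group -/
abbrev G8 := PresentedGroup ({relw} : Set (FreeGroup (Fin 2)))

def a8 : G8 := PresentedGroup.of 0
def b8 : G8 := PresentedGroup.of 1

theorem rel_ab8 : rel8 a8 b8 = 1 := by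
  have h : ∀ (F : FreeGroup (Fin 2) →* G8), F relw = rel8 (F (FreeGroup.of 0)) (F (FreeGroup.of 1)) := by
    intro F
    simp only [relw, rel8, map_mul, map_inv]
  have h' := h (PresentedGroup.mk {relw})
  have h'' : rel8 a8 b8 = PresentedGroup.mk {relw} relw := h'.symm
  rw [h'']
  exact PresentedGroup.mk_eq_one_iff.mpr (Subgroup.subset_normalClosure rfl)

theorem gen_ab8 : Subgroup.closure ({a8, b8} : Set G8) = ⊤ := by
  have h := PresentedGroup.closure_range_of ({relw} : Set (FreeGroup (Fin 2)))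
  rw [← h]
  congr 1
  ext x
  constructor
  · rintro (rfl | hx)
    · exact ⟨0, rfl⟩
    · rw [Set.mem_singleton_iff] at hx
      exact ⟨1, hx.symm⟩
  · rintro ⟨i, rfl⟩
    fin_cases i
    · left; rfl
    · right; rfl

/-- the holonomy -/
def f8 : G8 →* SLE := PresentedGroup.toGroup (f := ![A8, B8]) (by
  intro r hr
  rw [Set.mem_singleton_iff] at hr
  subst hr
  unfold relw
  simp only [rel8, map_mul, map_inv, FreeGroup.lift_apply_of]
  exact rel8_AB)

theorem f8_a : f8 a8 = A8 := PresentedGroup.toGroup.of _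
theorem f8_b : f8 b8 = B8 := PresentedGroup.toGroup.of _

theorem toQ_f8 (g : G8) : toQ (f8 g) ∈ S10 := by
  have hg : g ∈ Subgroup.closure ({a8, b8} : Set G8) := by rw [gen_ab8]; trivial
  have key : (∀ X : SLE, toQ X ∈ S10 → toQ (X * f8 g) ∈ S10) ∧
      (∀ X : SLE, toQ X ∈ S10 → toQ (X * (f8 g)⁻¹) ∈ S10) := by
    induction hg using Subgroup.closure_induction with
    | mem x hx =>
      rcases hx with rfl | hx
      · rw [f8_a]
        refine ⟨fun X hX => ?_, fun X hX => ?_⟩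
        · rw [toQ_mul, toQ_A]; exact (S10_closed _ hX).1
        · rw [toQ_mul, toQ_Ai]; exact (S10_closed _ hX).1
      · rw [Set.mem_singleton_iff] at hx
        rw [hx, f8_b]
        refine ⟨fun X hX => ?_, fun X hX => ?_⟩
        · rw [toQ_mul, toQ_B]; exact (S10_closed _ hX).2
        · rw [toQ_mul, toQ_Bi]; exact (S10_closed _ hX).2
    | one => simp
    | mul x y _ _ hx hy =>
      refine ⟨fun X hX => ?_, fun X hX => ?_⟩
      · rw [map_mul, ← mul_assoc]; exact hy.1 _ (hx.1 _ hX)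
      · rw [map_mul, mul_inv_rev, ← mul_assoc]; exact hx.2 _ (hy.2 _ hX)
    | inv x _ hx =>
      refine ⟨fun X hX => ?_, fun X hX => ?_⟩
      · rw [map_inv]; exact hx.2 _ hX
      · rw [map_inv, inv_inv]; exact hx.1 _ hX
  have h1 : toQ (1 : SLE) ∈ S10 := by
    have : toQ (1 : SLE) = (1,0,0,1) := by decide +kernel
    rw [this]; decide +kernel
  have := key.1 1 h1
  rwa [one_mul] at this

theorem trace_ne_neg_one (g : G8) : (f8 g) 0 0 + (f8 g) 1 1 ≠ -1 := by
  intro h
  apply S10_trace _ (toQ_f8 g)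
  have : redE ((f8 g) 0 0 + (f8 g) 1 1) = redE (-1) := by rw [h]
  rw [map_add] at this
  change redE ((f8 g) 0 0) + redE ((f8 g) 1 1) = 1
  rw [this]; decide +kernel

theorem f8_offdiag {g : G8} (h1 : (f8 g) 0 1 = 0) (h2 : (f8 g) 1 0 = 0) : g = 1 :=
  faithful8 a8 b8 rel_ab8 f8 f8_a f8_b gen_ab8 h1 h2

theorem f8_ne_neg {g : G8} (h1 : (f8 g) 0 1 = 0) (h2 : (f8 g) 1 0 = 0)
    (h3 : (f8 g) 0 0 = -1) : False := by
  have := f8_offdiag h1 h2
  rw [this, map_one, one00] at h3
  exact absurd h3 (by decide)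

/-- Cayley-Hamilton entries -/
theorem sq01 (X : SLE) : (X * X) 0 1 = (X 0 0 + X 1 1) * X 0 1 := by rw [mul01]; ring
theorem sq10 (X : SLE) : (X * X) 1 0 = (X 0 0 + X 1 1) * X 1 0 := by rw [mul10]; ring
theorem sq00 (X : SLE) : (X * X) 0 0 = (X 0 0 + X 1 1) * X 0 0 - 1 := by
  rw [mul00]; linear_combination -(detE X)
theorem sq11 (X : SLE) : (X * X) 1 1 = (X 0 0 + X 1 1) * X 1 1 - 1 := by
  rw [mul11]; linear_combination -(detE X)

theorem pow_rec (X : SLE) (n : ℕ) (i j : Fin 2) :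
    (X ^ (n + 2)) i j = (X 0 0 + X 1 1) * (X ^ (n + 1)) i j - (X ^ n) i j := by
  have hd := detE X
  rw [pow_succ' X (n + 1), pow_succ' X n]
  fin_cases i <;> fin_cases j
  · change (X * (X * X ^ n)) 0 0 = (X 0 0 + X 1 1) * (X * X ^ n) 0 0 - (X ^ n) 0 0
    rw [mul00 X (X * X ^ n), mul00 X (X ^ n), mul10 X (X ^ n)]
    linear_combination (-(X ^ n) 0 0) * hd
  · change (X * (X * X ^ n)) 0 1 = (X 0 0 + X 1 1) * (X * X ^ n) 0 1 - (X ^ n) 0 1
    rw [mul01 X (X * X ^ n), mul01 X (X ^ n), mul11 X (X ^ n)]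
    linear_combination (-(X ^ n) 0 1) * hd
  · change (X * (X * X ^ n)) 1 0 = (X 0 0 + X 1 1) * (X * X ^ n) 1 0 - (X ^ n) 1 0
    rw [mul10 X (X * X ^ n), mul10 X (X ^ n), mul00 X (X ^ n)]
    linear_combination (-(X ^ n) 1 0) * hd
  · change (X * (X * X ^ n)) 1 1 = (X 0 0 + X 1 1) * (X * X ^ n) 1 1 - (X ^ n) 1 1
    rw [mul11 X (X * X ^ n), mul11 X (X ^ n), mul01 X (X ^ n)]
    linear_combination (-(X ^ n) 1 1) * hd

theorem parab_pow (X : SLE) (c : Eis) (hc : c * c = 1) (ht : X 0 0 + X 1 1 = 2 * c) (i j : Fin 2)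
    (hij : i ≠ j) (n : ℕ) : (X ^ n) i j = n * c ^ (n + 1) * X i j := by
  have key : ∀ n : ℕ, (X ^ n) i j = n * c ^ (n + 1) * X i j ∧
      (X ^ (n + 1)) i j = (n + 1 : ℕ) * c ^ (n + 2) * X i j := by
    intro n
    induction n with
    | zero =>
      constructor
      · simp [hij]
      · simp only [zero_add, pow_one, Nat.cast_one, one_mul]
        rw [pow_two, hc, one_mul]
    | succ n ih =>
      refine ⟨ih.2, ?_⟩
      rw [show n + 1 + 1 = n + 2 by ring, pow_rec, ih.1, ih.2, ht]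
      have e : c ^ (n + 2 + 1) = c * c * c ^ (n + 1) := by ring
      rw [show n + 1 + 2 = n + 2 + 1 by ring, e, show c ^ (n + 2) = c * c ^ (n + 1) by ring, hc]
      push_cast
      linear_combination ((2 * (n : Eis) + 2) * c ^ (n + 1) * X i j) * hc
  exact (key n).1

theorem nat_mul_eq_zero {n : ℕ} (hn : 0 < n) {c z : Eis} (hc : c * c = 1)
    (h : (n : Eis) * c ^ (n + 1) * z = 0) : z = 0 := by
  have hcn : N c = 1 := by
    have h1 : N c * N c = 1 := by rw [← N_mul, hc, N_one]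
    exact Int.eq_one_of_mul_eq_one_right (N_nonneg _) h1
  have hNp : ∀ k : ℕ, N (c ^ k) = 1 := by
    intro k
    induction k with
    | zero => rw [pow_zero, N_one]
    | succ k ih => rw [pow_succ, N_mul, ih, hcn, one_mul]
  have hNn : N (n : Eis) = n * n := by simp [N]
  have h2 : N ((n : Eis) * c ^ (n + 1) * z) = 0 := by rw [h, N_zero]
  rw [N_mul, N_mul, hNp, hNn] at h2
  apply N_eq_zero
  have hn' : (n : ℤ) * n ≠ 0 := by positivity
  have h3 : ((n : ℤ) * n) * N z = 0 := by linarith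
  exact (mul_eq_zero.mp h3).resolve_left hn'

/-- trace of an element of finite order modulo the centre -/
theorem trace_of_pow (Y : SLC) (n : ℕ) (hn : 0 < n) (hY : Y ^ n = 1 ∨ Y ^ n = -1) :
    (Y 0 0 + Y 1 1).im = 0 ∧ |(Y 0 0 + Y 1 1).re| ≤ 2 := by
  set t : ℂ := Y 0 0 + Y 1 1 with ht
  obtain ⟨s, hs⟩ : ∃ s : ℂ, s ^ 2 = t ^ 2 - 4 := IsAlgClosed.exists_pow_nat_eq _ (by norm_num)
  set x : ℂ := (t + s) / 2 with hx
  have hx2 : x * x = t * x - 1 := by rw [hx]; linear_combination hs / 4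
  have hdet : ((Y : Matrix (Fin 2) (Fin 2) ℂ) - x • (1 : Matrix (Fin 2) (Fin 2) ℂ)).det = 0 := by
    rw [Matrix.det_fin_two]
    simp only [Matrix.sub_apply, Matrix.smul_apply, Matrix.one_apply, smul_eq_mul]
    simp
    linear_combination (cdet Y) + hx2 - x * ht
  obtain ⟨v, hv0, hv⟩ := Matrix.exists_mulVec_eq_zero_iff.mpr hdet
  have hYv : (Y : Matrix (Fin 2) (Fin 2) ℂ).mulVec v = x • v := by
    rw [Matrix.sub_mulVec, Matrix.smul_mulVec, Matrix.one_mulVec] at hv
    exact sub_eq_zero.mp hv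
  have hpow : ∀ k : ℕ, ((Y ^ k : SLC) : Matrix (Fin 2) (Fin 2) ℂ).mulVec v = x ^ k • v := by
    intro k
    induction k with
    | zero => simp
    | succ k ih =>
      rw [pow_succ, Matrix.SpecialLinearGroup.coe_mul, ← Matrix.mulVec_mulVec, hYv,
        Matrix.mulVec_smul, ih, smul_smul, pow_succ]
      congr 1; ring
  have hxn : ‖x‖ = 1 := by
    have h1 := hpow n
    have h2 : x ^ n = 1 ∨ x ^ n = -1 := by
      rcases hY with h | h
      · left
        rw [h, Matrix.SpecialLinearGroup.coe_one, Matrix.one_mulVec] at h1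
        by_contra hne
        apply hv0
        have : (1 - x ^ n) • v = 0 := by rw [sub_smul, one_smul, ← h1, sub_self]
        exact (smul_eq_zero.mp this).resolve_left (sub_ne_zero.mpr (Ne.symm hne))
      · right
        rw [h, Matrix.SpecialLinearGroup.coe_neg, Matrix.SpecialLinearGroup.coe_one,
          Matrix.neg_mulVec, Matrix.one_mulVec] at h1
        by_contra hne
        apply hv0
        have : (-1 - x ^ n) • v = 0 := by rw [sub_smul, neg_smul, one_smul, ← h1, sub_self]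
        exact (smul_eq_zero.mp this).resolve_left (sub_ne_zero.mpr (Ne.symm hne))
    have h3 : ‖x‖ ^ n = 1 := by
      rw [← norm_pow]
      rcases h2 with h | h <;> rw [h] <;> simp
    exact (pow_eq_one_iff_of_nonneg (norm_nonneg x) hn.ne').mp h3
  have hconj : x * (starRingEnd ℂ) x = 1 := by
    rw [Complex.mul_conj, Complex.normSq_eq_norm_sq, hxn]; simp
  have hx0 : x ≠ 0 := by
    intro h0; rw [h0, norm_zero] at hxn; exact zero_ne_one hxn
  have ht2 : t = x + (starRingEnd ℂ) x := by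
    have : x * t = x * (x + (starRingEnd ℂ) x) := by
      linear_combination -hx2 - hconj
    exact mul_left_cancel₀ hx0 this
  constructor
  · rw [ht2]; simp
  · rw [ht2]
    have : (x + (starRingEnd ℂ) x).re = 2 * x.re := by simp; ring
    rw [this, abs_mul]
    have h1 := Complex.abs_re_le_norm x
    rw [hxn] at h1
    norm_num
    exact h1

/-- torsion-freeness modulo the centre -/
theorem torsion_free8 (g : G8) (n : ℕ) (hn : 0 < n)
    (h : (f8 g) ^ n = 1 ∨ (f8 g) ^ n = -1) : g = 1 := by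
  set X := f8 g with hX
  have hY : (embSL X) ^ n = 1 ∨ (embSL X) ^ n = -1 := by
    rcases h with h | h
    · left; rw [← map_pow, h, map_one]
    · right
      rw [← map_pow, h]
      apply cext4 <;> simp [embSL_apply]
  obtain ⟨h1, h2⟩ := trace_of_pow (embSL X) n hn hY
  have he : (embSL X) 0 0 + (embSL X) 1 1 = emb (X 0 0 + X 1 1) := by
    rw [embSL_apply, embSL_apply, map_add]
  rw [he, emb_im] at h1
  rw [he, emb_re] at h2
  set t : Eis := X 0 0 + X 1 1 with ht
  have hs3 : Real.sqrt 3 / 2 ≠ 0 := by positivity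
  have him : t.im = 0 := by
    have := (mul_eq_zero.mp h1).resolve_right hs3
    exact_mod_cast this
  rw [him] at h2
  have hre : |t.re| ≤ 2 := by
    have : |(t.re : ℝ)| ≤ 2 := by simpa using h2
    exact_mod_cast this
  obtain ⟨hlo, hhi⟩ := abs_le.mp hre
  -- the off-diagonal entries of X ^ n vanish
  have ho : ∀ i j : Fin 2, i ≠ j → (X ^ n) i j = 0 := by
    intro i j hij
    rcases h with h | h
    · rw [h]; simp [hij]
    · rw [h]; simp [hij]
  have hcases : t.re = -2 ∨ t.re = -1 ∨ t.re = 0 ∨ t.re = 1 ∨ t.re = 2 := by omega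
  have htq : ∀ k : ℤ, t.re = k → t = ⟨k, 0⟩ := by
    intro k hk; ext <;> simp [hk, him]
  rcases hcases with hk | hk | hk | hk | hk
  · have htt := htq _ hk
    have hp : ∀ i j : Fin 2, i ≠ j → X i j = 0 := by
      intro i j hij
      have h3 := parab_pow X (-1) (by ring) (by rw [← ht, htt]; decide) i j hij n
      rw [ho i j hij] at h3
      exact nat_mul_eq_zero hn (by ring : (-1 : Eis) * (-1) = 1) h3.symm
    exact f8_offdiag (hp 0 1 (by decide)) (hp 1 0 (by decide))
  · exfalso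
    have htt := htq _ hk
    apply trace_ne_neg_one g
    rw [← hX, ← ht, htt]; rfl
  · exfalso
    have htt := htq _ hk
    have hz : t = 0 := by rw [htt]; rfl
    refine f8_ne_neg (g := g * g) ?_ ?_ ?_
    · rw [map_mul, ← hX, sq01, ← ht, hz]; ring
    · rw [map_mul, ← hX, sq10, ← ht, hz]; ring
    · rw [map_mul, ← hX, sq00, ← ht, hz]; ring
  · exfalso
    have htt := htq _ hk
    have hz : t = 1 := by rw [htt]; rfl
    refine f8_ne_neg (g := g * (g * g)) ?_ ?_ ?_
    · rw [map_mul, map_mul, ← hX, mul01 X, sq01, sq11, ← ht, hz]; 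
      linear_combination (X 0 1) * ht.symm + (X 0 1) * hz
    · rw [map_mul, map_mul, ← hX, mul10 X, sq00, sq10, ← ht, hz]
      linear_combination (X 1 0) * ht.symm + (X 1 0) * hz
    · rw [map_mul, map_mul, ← hX, mul00 X, sq00, sq10, ← ht, hz]
      have := detE X
      linear_combination (X 0 0) * ht.symm + (X 0 0) * hz - this
  · have htt := htq _ hk
    have hp : ∀ i j : Fin 2, i ≠ j → X i j = 0 := by
      intro i j hij
      have h3 := parab_pow X 1 (by ring) (by rw [← ht, htt]; decide) i j hij n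
      rw [ho i j hij] at h3
      exact nat_mul_eq_zero hn (by ring : (1 : Eis) * 1 = 1) h3.symm
    exact f8_offdiag (hp 0 1 (by decide)) (hp 1 0 (by decide))

end Pool.Agent.H84
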