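import Mathlib
import Pool.Agent.H84.Fig8Torsion

/-!
The lifts of the holonomy of the figure-eight knot to `SL(2, ℂ)`.
-/

set_option linter.unusedSectionVars false
set_option linter.unusedSimpArgs false

namespace Pool.Agent.H84

open Eis

theorem ginv_neg {H : Type*} [Group H] [HasDistribNeg H] (a : H) : (-a)⁻¹ = -a⁻¹ := by
  rw [inv_eq_iff_mul_eq_one, neg_mul_neg, mul_inv_cancel]

theorem rel8_neg {H : Type*} [Group H] [HasDistribNeg H] (a b : H) :
    rel8 (-a) (-b) = rel8 a b := by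
  unfold rel8; simp [ginv_neg]

theorem lam_neg {H : Type*} [Group H] [HasDistribNeg H] (a b : H) :
    lam (-a) (-b) = lam a b := by
  unfold lam; simp [ginv_neg]

theorem neg_one_zpow_cases {H : Type*} [Group H] [HasDistribNeg H] (q : ℤ) :
    (Even q ∧ (-1 : H) ^ q = 1) ∨ (Odd q ∧ (-1 : H) ^ q = -1) := by
  rcases Int.even_or_odd q with h | h
  · left; exact ⟨h, h.neg_one_zpow⟩
  · right
    refine ⟨h, ?_⟩
    obtain ⟨k, rfl⟩ := h
    rw [zpow_add, zpow_mul, zpow_one]
    have : (-1 : H) ^ (2 : ℤ) = 1 := by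
      rw [zpow_ofNat]; simp
    rw [this, one_zpow, one_mul]

/-- the twisted holonomy -/
noncomputable def fC (q : ℤ) : G8 →* SLC :=
  PresentedGroup.toGroup (f := ![(-1) ^ q * embSL A8, (-1) ^ q * embSL B8]) (by
    intro r hr
    rw [Set.mem_singleton_iff] at hr
    subst hr
    have h1 : rel8 (embSL A8) (embSL B8) = 1 := by
      have : rel8 (embSL A8) (embSL B8) = embSL (rel8 A8 B8) := by
        simp only [rel8, map_mul, map_inv]
      rw [this, rel8_AB, map_one]
    unfold relw
    simp only [rel8, map_mul, map_inv, FreeGroup.lift_apply_of]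
    change rel8 ((-1) ^ q * embSL A8) ((-1) ^ q * embSL B8) = 1
    rcases neg_one_zpow_cases (H := SLC) q with ⟨_, h⟩ | ⟨_, h⟩
    · rw [h, one_mul, one_mul]; exact h1
    · rw [h, neg_one_mul, neg_one_mul, rel8_neg]; exact h1)

theorem fC_a (q : ℤ) : fC q a8 = (-1) ^ q * embSL A8 := PresentedGroup.toGroup.of _
theorem fC_b (q : ℤ) : fC q b8 = (-1) ^ q * embSL B8 := PresentedGroup.toGroup.of _

theorem fC_lam (q : ℤ) : fC q (lam a8 b8) = embSL (lam A8 B8) := by
  have h1 : fC q (lam a8 b8) = lam (fC q a8) (fC q b8) := by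
    simp only [lam, map_mul, map_inv]
  have h2 : embSL (lam A8 B8) = lam (embSL A8) (embSL B8) := by
    simp only [lam, map_mul, map_inv]
  rw [h1, h2, fC_a, fC_b]
  rcases neg_one_zpow_cases (H := SLC) q with ⟨_, h⟩ | ⟨_, h⟩
  · rw [h, one_mul, one_mul]
  · rw [h, neg_one_mul, neg_one_mul, lam_neg]

theorem fC_eq_or (q : ℤ) (g : G8) : fC q g = embSL (f8 g) ∨ fC q g = - embSL (f8 g) := by
  have hg : g ∈ Subgroup.closure ({a8, b8} : Set G8) := by rw [gen_ab8]; trivial
  induction hg using Subgroup.closure_induction with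
  | mem x hx =>
    rcases hx with rfl | hx
    · rw [fC_a, f8_a]
      rcases neg_one_zpow_cases (H := SLC) q with ⟨_, h⟩ | ⟨_, h⟩
      · left; rw [h, one_mul]
      · right; rw [h, neg_one_mul]
    · rw [Set.mem_singleton_iff] at hx
      rw [hx, fC_b, f8_b]
      rcases neg_one_zpow_cases (H := SLC) q with ⟨_, h⟩ | ⟨_, h⟩
      · left; rw [h, one_mul]
      · right; rw [h, neg_one_mul]
  | one => left; simp
  | mul x y _ _ hx hy =>
    rw [map_mul, map_mul, map_mul]
    rcases hx with hx | hx <;> rcases hy with hy | hy <;> rw [hx, hy]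
    · left; rfl
    · right; rw [mul_neg]
    · right; rw [neg_mul]
    · left; rw [neg_mul_neg]
  | inv x _ hx =>
    rw [map_inv, map_inv, map_inv]
    rcases hx with hx | hx
    · left; rw [hx]
    · right; rw [hx, ginv_neg]

theorem fC_offdiag (q : ℤ) {g : G8} (h1 : (fC q g) 0 1 = 0) (h2 : (fC q g) 1 0 = 0) : g = 1 := by
  rcases fC_eq_or q g with h | h
  · rw [h] at h1 h2
    exact f8_offdiag (emb_injective (by rw [map_zero]; exact h1))
      (emb_injective (by rw [map_zero]; exact h2))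
  · rw [h] at h1 h2
    have h1' : -(emb ((f8 g) 0 1)) = 0 := h1
    have h2' : -(emb ((f8 g) 1 0)) = 0 := h2
    exact f8_offdiag (emb_injective (by rw [map_zero]; exact neg_eq_zero.mp h1'))
      (emb_injective (by rw [map_zero]; exact neg_eq_zero.mp h2'))

theorem fC_injective (q : ℤ) : Function.Injective (fC q) := by
  rw [injective_iff_map_eq_one]
  intro g hg
  apply fC_offdiag q <;> rw [hg] <;> simp

/-- the lattice point of a slope -/
noncomputable def slopeC (p q : ℤ) : ℂ := (p : ℂ) + 2 * (q : ℂ) * (Real.sqrt 3 : ℂ) * Complex.I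

/-- translation matrices -/
noncomputable def trans (z : ℂ) : SLC := ⟨!![1, z; 0, 1], by simp [Matrix.det_fin_two]⟩

theorem trans00 (z : ℂ) : trans z 0 0 = 1 := rfl
theorem trans01 (z : ℂ) : trans z 0 1 = z := rfl
theorem trans10 (z : ℂ) : trans z 1 0 = 0 := rfl
theorem trans11 (z : ℂ) : trans z 1 1 = 1 := rfl

theorem emb_lattice (p q : ℤ) : emb ⟨p + 2 * q, 4 * q⟩ = slopeC p q := by
  rw [emb_apply]
  unfold slopeC om
  apply Complex.ext
  · simp; ring
  · simp; ring

theorem emb_sg (j : ℤ) : emb (sg j) = (-1 : ℂ) ^ j := by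
  unfold sg
  rcases Int.even_or_odd j with h | h
  · rw [h.neg_one_zpow, h.neg_one_zpow]; simp
  · rw [h.neg_one_zpow, h.neg_one_zpow]; simp

theorem embSL_Tm (j i : ℤ) : embSL (Tm j i) = (-1) ^ j * trans (slopeC i j) := by
  rcases neg_one_zpow_cases (H := SLC) j with ⟨h, h'⟩ | ⟨h, h'⟩
  · rw [h', one_mul]
    have hs : emb (sg j) = 1 := by rw [emb_sg, h.neg_one_zpow]
    apply cext4
    · rw [embSL_apply, Tm00, hs]; rfl
    · rw [embSL_apply, Tm01, map_mul, hs, emb_lattice, one_mul]; rfl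
    · rw [embSL_apply, Tm10, map_zero]; rfl
    · rw [embSL_apply, Tm11, hs]; rfl
  · rw [h', neg_one_mul]
    have hs : emb (sg j) = -1 := by rw [emb_sg, h.neg_one_zpow]
    apply cext4
    · rw [embSL_apply, Tm00, hs]; rfl
    · rw [embSL_apply, Tm01, map_mul, hs, emb_lattice, neg_one_mul]; rfl
    · rw [embSL_apply, Tm10, map_zero]
      change (0 : ℂ) = -0
      ring
    · rw [embSL_apply, Tm11, hs]; rfl

/-- peripheral elements under the twisted holonomy -/
theorem fC_periph (q j i : ℤ) :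
    fC q (lam a8 b8 ^ j * a8 ^ i) = (-1) ^ (q * i + j) * trans (slopeC i j) := by
  rw [map_mul, map_zpow, map_zpow, fC_lam, fC_a]
  have hc : Commute ((-1 : SLC) ^ q) (embSL A8) := (Commute.neg_one_left _).zpow_left q
  rw [hc.mul_zpow, ← zpow_mul]
  have hc2 : Commute ((-1 : SLC) ^ (q * i)) (embSL (lam A8 B8) ^ j) :=
    (Commute.neg_one_left _).zpow_left (q * i)
  rw [← mul_assoc, ← hc2.eq, mul_assoc, ← map_zpow, ← map_zpow, ← map_mul, zpow_add, mul_assoc,
    ← embSL_Tm]
  congr 2
  rw [lam_eq, A8_eq, Tm_zpow, Tm_zpow, ← Tm_add]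
  congr 1 <;> ring

theorem fC_mer (p q : ℤ) (hp : Odd p) :
    fC q (lam a8 b8 ^ q * a8 ^ p) = trans (slopeC p q) := by
  rw [fC_periph]
  have : Even (q * p + q) := by
    rw [show q * p + q = q * (p + 1) by ring]
    exact (hp.add_one).mul_left q
  rw [this.neg_one_zpow, one_mul]

end Pool.Agent.H84
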