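import Mathlib

/-!
Hyperbolic knots in `ℤ/2`-homology spheres, encoded by the knot group `π`, the distinguished
representation `α : π → SL(2,ℂ)` and the meridian `μ ∈ π`.
-/

open Matrix MeasureTheory LaurentPolynomial

namespace Pool.Agent.H84

/-- The denominator in the Poincaré extension. -/
noncomputable def poincareDen (A : Matrix (Fin 2) (Fin 2) ℂ) (x : ℂ × ℝ) : ℝ :=
  Complex.normSq (A 1 0 * x.1 + A 1 1) + Complex.normSq (A 1 0) * x.2 ^ 2

/-- Poincaré extension: the isometry of the upper half-space `{(z,t) : ℂ × ℝ | 0 < t}` defined by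
a matrix of determinant one. -/
noncomputable def poincareAct (A : Matrix (Fin 2) (Fin 2) ℂ) (x : ℂ × ℝ) : ℂ × ℝ :=
  (((A 0 0 * x.1 + A 0 1) * star (A 1 0 * x.1 + A 1 1) + A 0 0 * star (A 1 0) * (x.2 : ℂ) ^ 2) /
    (poincareDen A x : ℂ), x.2 / poincareDen A x)

/-- The image of `α` has finite covolume: a measurable subset of upper half-space of finite
hyperbolic volume meets every orbit. -/
def FiniteCovolume {π : Type} (α : π → Matrix (Fin 2) (Fin 2) ℂ) : Prop :=
  ∃ D : Set (ℂ × ℝ), MeasurableSet D ∧ (∀ x ∈ D, 0 < x.2) ∧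
    (∫⁻ x in D, ENNReal.ofReal (1 / x.2 ^ 3)) < ⊤ ∧
    ∀ x : ℂ × ℝ, 0 < x.2 → ∃ g : π, poincareAct (α g) x ∈ D

/-- `π` is the group of a hyperbolic knot with meridian `μ`, and `α` is its distinguished
representation: the quotient of hyperbolic space by `α(π)` is a complete hyperbolic manifold of
finite volume with one cusp, `μ` is a primitive element of its peripheral group, and
`tr α(μ) = 2`. -/
structure IsHyperbolicKnot {π : Type} [Group π] (α : π → Matrix (Fin 2) (Fin 2) ℂ) (μ : π) :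
    Prop where
  map_mul : ∀ g h, α (g * h) = α g * α h
  det_eq_one : ∀ g, (α g).det = 1
  discrete : ∃ ε : ℝ, 0 < ε ∧ ∀ g, (∀ i j, ‖(α g - 1) i j‖ < ε) → g = 1
  torsionFree : ∀ g, ∀ n : ℕ, 0 < n → (α (g ^ n) = 1 ∨ α (g ^ n) = -1) → g = 1
  finiteCovolume : FiniteCovolume α
  oneCusp : ∀ g, ((α g).trace = 2 ∨ (α g).trace = -2) → ∃ h, Commute (h * g * h⁻¹) μ
  meridian_ne_one : μ ≠ 1
  meridian_trace : (α μ).trace = 2
  meridian_primitive : ∀ g, ∀ n : ℤ, g ^ n = μ → n = 1 ∨ n = -1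

/-- the filled manifold `Y` has `H¹(Y;ℤ/2) = 0` -/
def IsModTwoHomologySphere {π : Type} [Group π] (μ : π) : Prop :=
  ∀ χ : π →* Multiplicative (ZMod 2), χ μ = 1 → ∀ g, χ g = 1

/-- `H₁(Y;ℤ) ≅ ℤ/n` for the filled manifold `Y` -/
def FirstHomologyIsCyclic {π : Type} [Group π] (μ : π) (n : ℕ) : Prop :=
  Nonempty (Abelianization (π ⧸ Subgroup.normalClosure {μ}) ≃* Multiplicative (ZMod n))

/-- generators `x` and relators `r` present `π` -/
def IsPresentation {π : Type} [Group π] {k n : ℕ} (x : Fin k → π)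
    (r : Fin n → FreeGroup (Fin k)) : Prop :=
  Function.Surjective (FreeGroup.lift x) ∧
    ∀ w, FreeGroup.lift x w = 1 ↔ w ∈ Subgroup.normalClosure (Set.range r)

/-- `g ↦ t^φ(g) α(g)` -/
noncomputable def twisted {π : Type} (α : π → Matrix (Fin 2) (Fin 2) ℂ) (φ : π → ℤ) (g : π) :
    Matrix (Fin 2) (Fin 2) ℂ[T;T⁻¹] :=
  Matrix.of fun i j => T (φ g) * C (α g i j)

/-- `D j` is the image of the `j`-th Fox derivative under the representation `ρ` -/
def IsFoxCalculus {k : ℕ} (ρ : FreeGroup (Fin k) → Matrix (Fin 2) (Fin 2) ℂ[T;T⁻¹])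
    (D : Fin k → FreeGroup (Fin k) → Matrix (Fin 2) (Fin 2) ℂ[T;T⁻¹]) : Prop :=
  (∀ j i, D j (FreeGroup.of i) = if i = j then 1 else 0) ∧
    ∀ j u v, D j (u * v) = D j u + ρ u * D j v

/-- the block matrix of the Fox derivatives of the relators, last generator deleted -/
noncomputable def foxMatrix {n : ℕ}
    (D : Fin (n + 1) → FreeGroup (Fin (n + 1)) → Matrix (Fin 2) (Fin 2) ℂ[T;T⁻¹])
    (r : Fin n → FreeGroup (Fin (n + 1))) : Matrix (Fin n × Fin 2) (Fin n × Fin 2) ℂ[T;T⁻¹] :=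
  Matrix.of fun s t => D t.1.castSucc (r s.1) s.2 t.2

/-- `P` is the torsion polynomial of `α`, by Wada's formula for a presentation of deficiency
one; it is normalised by `P(t⁻¹) = P(t)`, and well defined up to sign. -/
def IsTorsionPolynomial {π : Type} [Group π] (α : π → Matrix (Fin 2) (Fin 2) ℂ)
    (P : ℂ[T;T⁻¹]) : Prop :=
  invert P = P ∧
  ∃ φ : π → ℤ, (∀ g h, φ (g * h) = φ g + φ h) ∧ Function.Surjective φ ∧
  ∃ (n : ℕ) (x : Fin (n + 1) → π) (r : Fin n → FreeGroup (Fin (n + 1))),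
    IsPresentation x r ∧ φ (x (Fin.last n)) ≠ 0 ∧
    ∃ D, IsFoxCalculus (fun w => twisted α φ (FreeGroup.lift x w)) D ∧
      ∃ k : ℤ, (foxMatrix D r).det = T k * P * (twisted α φ (x (Fin.last n)) - 1).det ∨
        (foxMatrix D r).det = -(T k * P * (twisted α φ (x (Fin.last n)) - 1).det)

/-- There is an orientation-reversing isometry of hyperbolic space (these are the maps
`x ↦ A x̄`) which normalises the image of `α` in `PSL(2,ℂ)`, and the induced automorphism `θ`
sends the meridian to a conjugate of itself or its inverse. -/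
def IsAmphichiral {π : Type} [Group π] (α : π → Matrix (Fin 2) (Fin 2) ℂ) (μ : π) : Prop :=
  ∃ (θ : π ≃* π) (A : Matrix (Fin 2) (Fin 2) ℂ), A.det = 1 ∧
    (∀ g, A * (α g).map star = α (θ g) * A ∨ A * (α g).map star = -(α (θ g) * A)) ∧
    ∃ h, θ μ = h * μ * h⁻¹ ∨ θ μ = h * μ⁻¹ * h⁻¹

/-- An automorphism of `π` which sends the meridian to itself or its inverse and acts on the
peripheral subgroup `⟨μ, l⟩ ≅ ℤ²` (the centraliser of `μ`) with determinant `-1`. Every
orientation-reversing homeomorphism of the pair `(Y,K)` induces one. -/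
def HasOrientationReversingAutomorphism {π : Type} [Group π] (μ : π) : Prop :=
  ∃ (θ : π ≃* π) (l : π) (ε k : ℤ), (ε = 1 ∨ ε = -1) ∧
    (∀ x, Commute x μ ↔ x ∈ Subgroup.closure {μ, l}) ∧
    θ μ = μ ^ ε ∧ θ l = l ^ (-ε) * μ ^ k

end Pool.Agent.H84
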