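import Mathlib

/-!
Internal versions of the notions for subgroups of `SL(2,ℂ)`.
-/

open Matrix MeasureTheory LaurentPolynomial

namespace Pool.Agent.H84

abbrev SL2C := SpecialLinearGroup (Fin 2) ℂ

noncomputable def denS (g : SL2C) (x : ℂ × ℝ) : ℝ :=
  Complex.normSq (g 1 0 * x.1 + g 1 1) + Complex.normSq (g 1 0) * x.2 ^ 2

noncomputable def actS (g : SL2C) (x : ℂ × ℝ) : ℂ × ℝ :=
  (((g 0 0 * x.1 + g 0 1) * star (g 1 0 * x.1 + g 1 1) + g 0 0 * star (g 1 0) * (x.2 : ℂ) ^ 2) /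
    (denS g x : ℂ), x.2 / denS g x)

def FiniteCovolumeS (Γ : Subgroup SL2C) : Prop :=
  ∃ D : Set (ℂ × ℝ), MeasurableSet D ∧ (∀ x ∈ D, 0 < x.2) ∧
    (∫⁻ x in D, ENNReal.ofReal (1 / x.2 ^ 3)) < ⊤ ∧
    ∀ x : ℂ × ℝ, 0 < x.2 → ∃ g ∈ Γ, actS g x ∈ D

noncomputable def conjSL : SL2C →* SL2C := SpecialLinearGroup.map (starRingEnd ℂ)

end Pool.Agent.H84
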