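import Mathlib
import Pool.Agent.H84.Fig8Lift
import Pool.Agent.H84.OldDefs
import Pool.Agent.H84.KnotDefs

/-!
The action on upper half-space, and finite covolume.
-/

set_option linter.unusedSectionVars false
set_option linter.unusedSimpArgs false

namespace Pool.Agent.H84

open Eis MeasureTheory

theorem den_pos (g : SLC) (x : ℂ × ℝ) (hx : 0 < x.2) : 0 < denS g x := by
  unfold denS
  have h1 := Complex.normSq_nonneg (g 1 0 * x.1 + g 1 1)
  have h2 := Complex.normSq_nonneg (g 1 0)
  by_cases h : g 1 0 = 0
  · have h3 : g 1 1 ≠ 0 := by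
      intro h0
      have := cdet g
      rw [h, h0] at this; simp at this
    rw [h]; simp
    exact h3
  · have : 0 < Complex.normSq (g 1 0) := Complex.normSq_pos.mpr h
    have : 0 < Complex.normSq (g 1 0) * x.2 ^ 2 := by positivity
    linarith

theorem act_snd (g : SLC) (x : ℂ × ℝ) : (actS g x).2 = x.2 / denS g x := rfl

theorem act_fst (g : SLC) (x : ℂ × ℝ) : (actS g x).1 =
    ((g 0 0 * x.1 + g 0 1) * star (g 1 0 * x.1 + g 1 1) + g 0 0 * star (g 1 0) * (x.2 : ℂ) ^ 2) /
    (denS g x : ℂ) := rfl

theorem act_pos (g : SLC) (x : ℂ × ℝ) (hx : 0 < x.2) : 0 < (actS g x).2 := by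
  rw [act_snd]; exact div_pos hx (den_pos g x hx)

theorem den_cast (g : SLC) (x : ℂ × ℝ) : (denS g x : ℂ) =
    (g 1 0 * x.1 + g 1 1) * star (g 1 0 * x.1 + g 1 1) + g 1 0 * star (g 1 0) * (x.2 : ℂ) ^ 2 := by
  unfold denS
  push_cast
  rw [← Complex.mul_conj, ← Complex.mul_conj]; rfl

theorem den_mul (g h : SLC) (x : ℂ × ℝ) (hx : 0 < x.2) :
    denS (g * h) x = denS g (actS h x) * denS h x := by
  have hd := den_pos h x hx
  have hd' : (denS h x : ℂ) ≠ 0 := by exact_mod_cast hd.ne'
  have key : (denS (g * h) x : ℂ) = (denS g (actS h x) : ℂ) * (denS h x : ℂ) := by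
    rw [den_cast (g * h), den_cast g, act_fst, act_snd]
    have hdc := den_cast h x
    have hstar : star (denS h x : ℂ) = (denS h x : ℂ) := Complex.conj_ofReal _
    have hstart : star (x.2 : ℂ) = (x.2 : ℂ) := Complex.conj_ofReal _
    have hdet := cdet h
    have hdet' : star (h 0 0) * star (h 1 1) - star (h 0 1) * star (h 1 0) = 1 := by
      rw [← star_mul', ← star_mul', ← star_sub, hdet, star_one]
    simp only [cmul10, cmul11, star_add, star_mul', star_div₀, star_pow, star_star, hstar, hstart]
      at hdc ⊢
    push_cast
    set E : ℂ := (denS h x : ℂ) with hE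
    clear_value E
    field_simp
    rw [show (x.2 : ℂ) ^ 2 = x.2 * x.2 by ring] at *
    generalize (x.2 : ℂ) = t at *
    generalize x.1 = z at *
    generalize star z = zb at *
    generalize h 0 0 = a at *
    generalize h 0 1 = b at *
    generalize h 1 0 = c at *
    generalize h 1 1 = d at *
    generalize g 1 0 = c' at *
    generalize g 1 1 = d' at *
    generalize star a = ab at *
    generalize star b = bb at *
    generalize star c = cb at *
    generalize star d = db at *
    generalize star c' = c'b at *
    generalize star d' = d'b at *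
    subst hdc
    linear_combination (t * t * c' * c'b * (ab * db - bb * cb)) * hdet + (t * t * c' * c'b) * hdet'
  exact_mod_cast key

theorem act_mul (g h : SLC) (x : ℂ × ℝ) (hx : 0 < x.2) :
    actS (g * h) x = actS g (actS h x) := by
  have hd := den_pos h x hx
  have hd' : (denS h x : ℂ) ≠ 0 := by exact_mod_cast hd.ne'
  have hg := den_pos g (actS h x) (act_pos h x hx)
  have hg' : (denS g (actS h x) : ℂ) ≠ 0 := by exact_mod_cast hg.ne'
  apply Prod.ext
  · rw [act_fst (g * h), act_fst g, act_fst h, act_snd, den_mul g h x hx]
    push_cast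
    rw [div_eq_div_iff (mul_ne_zero hg' hd') hg']
    have hdc := den_cast h x
    have hstar : star (denS h x : ℂ) = (denS h x : ℂ) := Complex.conj_ofReal _
    have hstart : star (x.2 : ℂ) = (x.2 : ℂ) := Complex.conj_ofReal _
    have hdet := cdet h
    have hdet' : star (h 0 0) * star (h 1 1) - star (h 0 1) * star (h 1 0) = 1 := by
      rw [← star_mul', ← star_mul', ← star_sub, hdet, star_one]
    generalize (denS g (actS h x) : ℂ) = F at *
    simp only [cmul00, cmul01, cmul10, cmul11, star_add, star_mul', star_div₀, star_pow, star_star,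
      hstar, hstart] at hdc ⊢
    set E : ℂ := (denS h x : ℂ) with hE
    clear_value E
    field_simp
    rw [show (x.2 : ℂ) ^ 2 = x.2 * x.2 by ring] at *
    generalize (x.2 : ℂ) = t at *
    generalize x.1 = z at *
    generalize star z = zb at *
    generalize h 0 0 = a at *
    generalize h 0 1 = b at *
    generalize h 1 0 = c at *
    generalize h 1 1 = d at *
    generalize g 0 0 = a' at *
    generalize g 0 1 = b' at *
    generalize g 1 0 = c' at *
    generalize g 1 1 = d' at *
    generalize star a = ab at *
    generalize star b = bb at *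
    generalize star c = cb at *
    generalize star d = db at *
    generalize star c' = c'b at *
    generalize star d' = d'b at *
    subst hdc
    linear_combination (t * t * a' * c'b * (ab * db - bb * cb)) * hdet + (t * t * a' * c'b) * hdet'
  · rw [act_snd (g * h), act_snd g, act_snd h, den_mul g h x hx, div_div, mul_comm (denS h x)]

end Pool.Agent.H84
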