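import Mathlib
import Pool.Agent.H84.Fig8Act

/-!
Finite covolume of the figure-eight knot group.
-/

set_option linter.unusedSectionVars false
set_option linter.unusedSimpArgs false

namespace Pool.Agent.H84

open Eis MeasureTheory

theorem den_neg (g : SLC) (x : ℂ × ℝ) : denS (-g) x = denS g x := by
  unfold denS
  have h1 : (-g) 1 0 = -(g 1 0) := rfl
  have h2 : (-g) 1 1 = -(g 1 1) := rfl
  rw [h1, h2, Complex.normSq_neg, show -(g 1 0) * x.1 + -(g 1 1) = -(g 1 0 * x.1 + g 1 1) by ring,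
    Complex.normSq_neg]

theorem act_neg (g : SLC) (x : ℂ × ℝ) : actS (-g) x = actS g x := by
  unfold actS
  rw [den_neg]
  have h1 : (-g) 1 0 = -(g 1 0) := rfl
  have h2 : (-g) 1 1 = -(g 1 1) := rfl
  have h3 : (-g) 0 0 = -(g 0 0) := rfl
  have h4 : (-g) 0 1 = -(g 0 1) := rfl
  rw [h1, h2, h3, h4]
  congr 1
  congr 1
  rw [show -(g 1 0) * x.1 + -(g 1 1) = -(g 1 0 * x.1 + g 1 1) by ring, star_neg, star_neg]
  ring

/-- nearest Eisenstein integer -/
theorem nearest (z : ℂ) : ∃ k : Eis, Complex.normSq (emb k - z) ≤ 3 / 4 := by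
  have h3 : Real.sqrt 3 * Real.sqrt 3 = 3 := Real.mul_self_sqrt (by norm_num)
  have h3p : 0 < Real.sqrt 3 := by positivity
  set y : ℝ := z.im / (Real.sqrt 3 / 2) with hy
  set x : ℝ := z.re + y / 2 with hx
  refine ⟨⟨round x, round y⟩, ?_⟩
  have hx' := abs_le.mp (abs_sub_round x)
  have hy' := abs_le.mp (abs_sub_round y)
  rw [Complex.normSq_apply, Complex.sub_re, Complex.sub_im, emb_re, emb_im]
  have e1 : z.im = y * (Real.sqrt 3 / 2) := by rw [hy]; field_simp
  have e2 : z.re = x - y / 2 := by rw [hx]; ring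
  rw [e1, e2]
  set u := x - round x with hu
  set v := y - round y with hv
  have e3 : ((round x : ℤ) : ℝ) - ((round y : ℤ) : ℝ) / 2 - (x - y / 2) = -(u - v / 2) := by
    rw [hu, hv]; ring
  have e4 : ((round y : ℤ) : ℝ) * (Real.sqrt 3 / 2) - y * (Real.sqrt 3 / 2) =
      -(v * (Real.sqrt 3 / 2)) := by rw [hv]; ring
  simp only
  rw [e3, e4]
  have e5 : -(u - v / 2) * -(u - v / 2) + -(v * (Real.sqrt 3 / 2)) * -(v * (Real.sqrt 3 / 2)) =
      u * u - u * v + v * v / 4 + v * v * (Real.sqrt 3 * Real.sqrt 3) / 4 := by ring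
  rw [e5, h3]
  nlinarith [mul_nonneg (sub_nonneg.mpr hx'.1) (sub_nonneg.mpr hx'.2),
    mul_nonneg (sub_nonneg.mpr hy'.1) (sub_nonneg.mpr hy'.2),
    mul_nonneg (sub_nonneg.mpr hx'.1) (sub_nonneg.mpr hy'.1),
    mul_nonneg (sub_nonneg.mpr hx'.2) (sub_nonneg.mpr hy'.2)]

theorem N_gam10 (k : Eis) : N ((f8 (gam a8 b8 k.re k.im)) 1 0) = 1 := by
  set M := f8 (gam a8 b8 k.re k.im) with hM
  have h1 : M 0 0 = k * M 1 0 := f_gam a8 b8 f8 f8_a f8_b k.re k.im
  have h2 := detE M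
  rw [h1] at h2
  have h3 : M 1 0 * (k * M 1 1 - M 0 1) = 1 := by linear_combination h2
  have h4 : N (M 1 0) * N (k * M 1 1 - M 0 1) = 1 := by rw [← N_mul, h3, N_one]
  exact Int.eq_one_of_mul_eq_one_right (N_nonneg _) h4

theorem den_fC (q : ℤ) (g : G8) (x : ℂ × ℝ) : denS (fC q g) x = denS (embSL (f8 g)) x := by
  rcases fC_eq_or q g with h | h
  · rw [h]
  · rw [h, den_neg]

theorem step (q : ℤ) (x : ℂ × ℝ) (hx : 0 < x.2) (hx3 : x.2 < 1 / 3) :
    ∃ g : G8, 8 / 7 * x.2 ≤ (actS (fC q g) x).2 := by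
  obtain ⟨k, hk⟩ := nearest x.1
  refine ⟨(gam a8 b8 k.re k.im)⁻¹, ?_⟩
  rw [act_snd, den_fC, map_inv, map_inv]
  set M := f8 (gam a8 b8 k.re k.im) with hM
  have h1 : M 0 0 = k * M 1 0 := f_gam a8 b8 f8 f8_a f8_b k.re k.im
  have hN : N (M 1 0) = 1 := N_gam10 k
  have hden : denS (embSL M)⁻¹ x = Complex.normSq (emb k - x.1) + x.2 ^ 2 := by
    unfold denS
    rw [cinv10, cinv11, embSL_apply, embSL_apply, h1, map_mul]
    have : -emb (M 1 0) * x.1 + emb k * emb (M 1 0) = emb (M 1 0) * (emb k - x.1) := by ring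
    rw [this, Complex.normSq_mul, Complex.normSq_neg, normSq_emb, hN]
    push_cast; ring
  rw [hden]
  have h0 : 0 ≤ Complex.normSq (emb k - x.1) := Complex.normSq_nonneg _
  have hpos : 0 < Complex.normSq (emb k - x.1) + x.2 ^ 2 := by positivity
  rw [le_div_iff₀ hpos]
  have h2 : x.2 ^ 2 ≤ 1 / 9 := by nlinarith
  have h3 : Complex.normSq (emb k - x.1) + x.2 ^ 2 ≤ 7 / 8 := by linarith
  calc 8 / 7 * x.2 * (Complex.normSq (emb k - x.1) + x.2 ^ 2) ≤ 8 / 7 * x.2 * (7 / 8) := by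
        apply mul_le_mul_of_nonneg_left h3; positivity
    _ = x.2 := by ring

theorem height (q : ℤ) (n : ℕ) : ∀ x : ℂ × ℝ, 0 < x.2 → 1 / 3 ≤ (8 / 7 : ℝ) ^ n * x.2 →
    ∃ g : G8, 1 / 3 ≤ (actS (fC q g) x).2 := by
  induction n with
  | zero =>
    intro x hx h
    refine ⟨1, ?_⟩
    rw [map_one, act_snd]
    have : denS (1 : SLC) x = 1 := by
      unfold denS; simp
    rw [this, div_one]; simpa using h
  | succ n ih =>
    intro x hx h
    by_cases hx3 : x.2 < 1 / 3
    · obtain ⟨g, hg⟩ := step q x hx hx3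
      have hpos := act_pos (fC q g) x hx
      obtain ⟨g', hg'⟩ := ih (actS (fC q g) x) hpos (by
        calc (1 : ℝ) / 3 ≤ (8 / 7 : ℝ) ^ (n + 1) * x.2 := h
          _ = (8 / 7 : ℝ) ^ n * (8 / 7 * x.2) := by ring
          _ ≤ _ := by apply mul_le_mul_of_nonneg_left hg; positivity)
      refine ⟨g' * g, ?_⟩
      rw [map_mul, act_mul _ _ _ hx]; exact hg'
    · refine ⟨1, ?_⟩
      rw [map_one, act_snd]
      have : denS (1 : SLC) x = 1 := by
        unfold denS; simp
      rw [this, div_one]; linarith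

theorem act_trans (s : ℂ) (x : ℂ × ℝ) : actS (trans s) x = (x.1 + s, x.2) := by
  have hd : denS (trans s) x = 1 := by
    unfold denS; rw [trans10, trans11]; simp
  apply Prod.ext
  · rw [act_fst, hd, trans00, trans01, trans10, trans11]; simp
  · rw [act_snd, hd, div_one]

/-- the fundamental region -/
def region : Set (ℂ × ℝ) := {z : ℂ | |z.re| ≤ 1 ∧ |z.im| ≤ 2} ×ˢ Set.Ioi (1 / 4 : ℝ)

theorem act_fC_periph (q i j : ℤ) (x : ℂ × ℝ) :
    actS (fC q (lam a8 b8 ^ j * a8 ^ i)) x = (x.1 + slopeC i j, x.2) := by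
  rw [fC_periph]
  rcases neg_one_zpow_cases (H := SLC) (q * i + j) with ⟨_, h⟩ | ⟨_, h⟩
  · rw [h, one_mul, act_trans]
  · rw [h, neg_one_mul, act_neg, act_trans]

theorem exists_region (q : ℤ) (x : ℂ × ℝ) (hx : 0 < x.2) :
    ∃ g : G8, actS (fC q g) x ∈ region := by
  obtain ⟨n, hn⟩ := pow_unbounded_of_one_lt (1 / 3 / x.2) (show (1 : ℝ) < 8 / 7 by norm_num)
  have hn' : 1 / 3 ≤ (8 / 7 : ℝ) ^ n * x.2 := by
    rw [div_lt_iff₀ hx] at hn; exact hn.le
  obtain ⟨g, hg⟩ := height q n x hx hn'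
  set y := actS (fC q g) x with hy
  have h3 : Real.sqrt 3 * Real.sqrt 3 = 3 := Real.mul_self_sqrt (by norm_num)
  have h3p : 0 < Real.sqrt 3 := by positivity
  set j := round (y.1.im / (2 * Real.sqrt 3)) with hj
  set i := round y.1.re with hi
  refine ⟨lam a8 b8 ^ (-j) * a8 ^ (-i) * g, ?_⟩
  rw [map_mul, act_mul _ _ _ hx, act_fC_periph]
  rw [← hy]
  refine ⟨⟨?_, ?_⟩, ?_⟩
  · have : (y.1 + slopeC (-i) (-j)).re = y.1.re - i := by
      unfold slopeC; simp; ring
    simp only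
    rw [this]
    exact (abs_sub_round _).trans (by norm_num)
  · have : (y.1 + slopeC (-i) (-j)).im = (y.1.im / (2 * Real.sqrt 3) - j) * (2 * Real.sqrt 3) := by
      unfold slopeC; simp; field_simp; ring
    simp only
    rw [this, abs_mul]
    have h1 := abs_sub_round (y.1.im / (2 * Real.sqrt 3))
    rw [← hj] at h1
    have h2 : |2 * Real.sqrt 3| = 2 * Real.sqrt 3 := abs_of_pos (by positivity)
    rw [h2]
    have h4 : Real.sqrt 3 ≤ 2 := by
      rw [show (2 : ℝ) = Real.sqrt 4 by rw [show (4 : ℝ) = 2 ^ 2 by norm_num]; simp]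
      exact Real.sqrt_le_sqrt (by norm_num)
    nlinarith [abs_nonneg (y.1.im / (2 * Real.sqrt 3) - j)]
  · change 1 / 4 < y.2
    linarith

theorem region_measurable : MeasurableSet region := by
  apply MeasurableSet.prod
  · apply MeasurableSet.inter
    · exact measurableSet_le (Complex.measurable_re.abs) measurable_const
    · exact measurableSet_le (Complex.measurable_im.abs) measurable_const
  · exact measurableSet_Ioi

theorem region_volume : (∫⁻ x in region, ENNReal.ofReal (1 / x.2 ^ 3)) < ⊤ := by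
  unfold region
  rw [Measure.volume_eq_prod, ← Measure.prod_restrict]
  have hm : Measurable fun x : ℝ => ENNReal.ofReal (1 / x ^ 3) := by fun_prop
  rw [lintegral_prod _ (by fun_prop)]
  simp only
  rw [lintegral_const]
  apply ENNReal.mul_lt_top
  · have h1 : IntegrableOn (fun x : ℝ => x ^ (-3 : ℝ)) (Set.Ioi (1 / 4)) :=
      integrableOn_Ioi_rpow_of_lt (by norm_num) (by norm_num)
    have h2 : IntegrableOn (fun x : ℝ => 1 / x ^ 3) (Set.Ioi (1 / 4)) := by
      refine h1.congr_fun ?_ measurableSet_Ioi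
      intro x hx
      have hx0 : (0 : ℝ) < x := lt_trans (by norm_num) hx
      simp only
      rw [Real.rpow_neg hx0.le, one_div]
      congr 1
      exact_mod_cast Real.rpow_natCast x 3
    exact h2.lintegral_lt_top
  · rw [Measure.restrict_apply_univ]
    refine lt_of_le_of_lt (measure_mono (t := Metric.closedBall (0 : ℂ) 3) ?_)
      measure_closedBall_lt_top
    rintro z ⟨h1, h2⟩
    rw [mem_closedBall_zero_iff]
    calc ‖z‖ ≤ |z.re| + |z.im| := Complex.norm_le_abs_re_add_abs_im z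
      _ ≤ 3 := by linarith

/-- the matrix-valued holonomy -/
noncomputable def al (q : ℤ) (g : G8) : Matrix (Fin 2) (Fin 2) ℂ := (fC q g).1

theorem finiteCovolume8 (q : ℤ) : FiniteCovolume (al q) := by
  refine ⟨region, region_measurable, ?_, region_volume, ?_⟩
  · rintro x ⟨_, h⟩
    exact lt_trans (by norm_num) h
  · intro x hx
    obtain ⟨g, hg⟩ := exists_region q x hx
    exact ⟨g, hg⟩

end Pool.Agent.H84
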