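import Mathlib
import Pool.Agent.H84.Fig8Covol

/-!
The pair (figure-eight knot group, slope) is a hyperbolic knot in a mod two homology sphere.
-/

set_option linter.unusedSectionVars false
set_option linter.unusedSimpArgs false

namespace Pool.Agent.H84

open Eis MeasureTheory

theorem Eis_mul_eq_zero {x y : Eis} (h : x * y = 0) (hx : x ≠ 0) : y = 0 := by
  have h1 : N x * N y = 0 := by rw [← N_mul, h, N_zero]
  exact N_eq_zero ((mul_eq_zero.mp h1).resolve_left (N_pos hx).ne')

/-- descent on vectors -/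
theorem descend (n : ℕ) : ∀ v w : Eis, (N w).toNat = n → ∃ h : G8,
    (f8 h) 1 0 * v + (f8 h) 1 1 * w = 0 := by
  induction n using Nat.strong_induction_on with
  | _ n ih =>
    intro v w hw
    by_cases h0 : w = 0
    · exact ⟨1, by rw [map_one, h0, one10]; ring⟩
    · obtain ⟨k, hk⟩ := euclid (-v) w h0
      set M := f8 (gam a8 b8 k.re k.im) with hM
      have h1 : M 0 0 = k * M 1 0 := f_gam a8 b8 f8 f8_a f8_b k.re k.im
      have hN : N (M 1 0) = 1 := N_gam10 k
      have hpos := N_pos h0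
      have e : M⁻¹ 1 0 * v + M⁻¹ 1 1 * w = M 1 0 * (k * w + -v) := by
        rw [inv10, inv11, h1]; ring
      have hlt : (N (M⁻¹ 1 0 * v + M⁻¹ 1 1 * w)).toNat < n := by
        rw [e, N_mul, hN, one_mul, ← hw]
        have := N_nonneg (k * w + -v)
        omega
      obtain ⟨h, hh⟩ := ih _ hlt (M⁻¹ 0 0 * v + M⁻¹ 0 1 * w) (M⁻¹ 1 0 * v + M⁻¹ 1 1 * w) rfl
      refine ⟨h * (gam a8 b8 k.re k.im)⁻¹, ?_⟩
      rw [map_mul, map_inv, ← hM, mul10, mul11]
      linear_combination hh

theorem trace_cast (q : ℤ) (g : G8) (h : (fC q g).1.trace = 2 ∨ (fC q g).1.trace = -2) :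
    ∃ c : Eis, c * c = 1 ∧ (f8 g) 0 0 + (f8 g) 1 1 = 2 * c := by
  have h1 : emb ((f8 g) 0 0 + (f8 g) 1 1) = 2 ∨ emb ((f8 g) 0 0 + (f8 g) 1 1) = -2 := by
    rw [Matrix.trace_fin_two] at h
    rw [map_add]
    rcases fC_eq_or q g with hg | hg
    · rw [hg] at h; exact h
    · rw [hg] at h
      have e1 : (-embSL (f8 g)).1 0 0 = -emb ((f8 g) 0 0) := rfl
      have e2 : (-embSL (f8 g)).1 1 1 = -emb ((f8 g) 1 1) := rfl
      rw [e1, e2] at h
      rcases h with h | h
      · right; linear_combination -h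
      · left; linear_combination -h
  rcases h1 with h1 | h1
  · refine ⟨1, by ring, ?_⟩
    apply emb_injective; rw [h1, mul_one, map_ofNat]
  · refine ⟨-1, by ring, ?_⟩
    apply emb_injective; rw [h1, mul_neg_one, map_neg, map_ofNat]

theorem commute_trans_of (q i j : ℤ) (s : ℂ) :
    Commute (fC q (lam a8 b8 ^ j * a8 ^ i)) (trans s) := by
  rw [fC_periph]
  have h1 : Commute (trans (slopeC i j)) (trans s) := by
    apply cext4
    · rw [cmul00, cmul00, trans00, trans00, trans01, trans01, trans10, trans10]; ring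
    · rw [cmul01, cmul01, trans00, trans00, trans01, trans01, trans11, trans11]; ring
    · rw [cmul10, cmul10, trans10, trans10, trans11, trans11]; ring
    · rw [cmul11, cmul11, trans10, trans10, trans11, trans11]; ring
  rcases neg_one_zpow_cases (H := SLC) (q * i + j) with ⟨_, h⟩ | ⟨_, h⟩
  · rw [h, one_mul]; exact h1
  · rw [h, neg_one_mul]; exact h1.neg_left

theorem oneCusp8 (q : ℤ) (s : ℂ) : ∀ g ∈ (fC q).range, (g.1.trace = 2 ∨ g.1.trace = -2) →
    ∃ h ∈ (fC q).range, Commute (h * g * h⁻¹) (trans s) := by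
  rintro _ ⟨x, rfl⟩ ht
  obtain ⟨c, hc, htr⟩ := trace_cast q x ht
  set X := f8 x with hX
  -- find h with f8 (h x h⁻¹) upper triangular
  obtain ⟨h, hh⟩ : ∃ h : G8, (f8 (h * x * h⁻¹)) 1 0 = 0 := by
    by_cases hX10 : X 1 0 = 0
    · exact ⟨1, by simp [← hX, hX10]⟩
    · obtain ⟨h, hh⟩ := descend _ (X 0 0 - c) (X 1 0) rfl
      refine ⟨h, ?_⟩
      set H := f8 h with hH
      have hdet := detE H
      have hdX := detE X
      -- X v = c v with v = (X00 - c, X10)
      have e1 : X 0 0 * (X 0 0 - c) + X 0 1 * X 1 0 = c * (X 0 0 - c) := by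
        linear_combination (X 0 0) * htr - hdX + hc
      have e2 : X 1 0 * (X 0 0 - c) + X 1 1 * X 1 0 = c * X 1 0 := by
        linear_combination (X 1 0) * htr
      -- H v = (w, 0)
      set w := H 0 0 * (X 0 0 - c) + H 0 1 * X 1 0 with hw
      have hw0 : w ≠ 0 := by
        intro h0
        apply hX10
        have : X 1 0 = (H 0 0 * H 1 1 - H 0 1 * H 1 0) * X 1 0 := by rw [hdet]; ring
        rw [this]
        linear_combination (H 0 0) * hh - (H 1 0) * h0
      have e4 : H 1 1 * w = X 0 0 - c := by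
        rw [hw]; linear_combination (X 0 0 - c) * hdet + (H 0 1) * hh
      have e5 : H 1 0 * w = - X 1 0 := by
        rw [hw]; linear_combination (H 0 0) * hh - (X 1 0) * hdet
      have e3 : w * (f8 (h * x * h⁻¹)) 1 0 = 0 := by
        rw [map_mul, map_mul, map_inv, ← hH, ← hX, mul10, inv00, inv10, mul10, mul11]
        linear_combination (H 1 0 * X 0 0 + H 1 1 * X 1 0) * e4 -
          (H 1 0 * X 0 1 + H 1 1 * X 1 1) * e5 + (H 1 0) * e1 + (H 1 1) * e2 + c * hh
      exact Eis_mul_eq_zero e3 hw0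
  have hU : f8 (h * x * h⁻¹) ∈ U := hh
  obtain ⟨i, j, hij, _⟩ := exists_ij a8 b8 rel_ab8 f8 f8_a f8_b gen_ab8 hU
  refine ⟨fC q h, ⟨h, rfl⟩, ?_⟩
  rw [← map_inv, ← map_mul, ← map_mul, hij]
  exact commute_trans_of q i j s

theorem slopeC_ne_zero {p q : ℤ} (h : p ≠ 0 ∨ q ≠ 0) : slopeC p q ≠ 0 := by
  intro h0
  have h3 : Real.sqrt 3 ≠ 0 := by positivity
  have h1 : (slopeC p q).re = p := by unfold slopeC; simp
  have h2 : (slopeC p q).im = 2 * q * Real.sqrt 3 := by unfold slopeC; simp
  rw [h0] at h1 h2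
  have hp : p = 0 := by
    have : (p : ℝ) = 0 := h1.symm
    exact_mod_cast this
  have hq : q = 0 := by
    have : (2 * q * Real.sqrt 3 : ℝ) = 0 := h2.symm
    have := (mul_eq_zero.mp this).resolve_right h3
    have : (q : ℝ) = 0 := by linarith
    exact_mod_cast this
  rcases h with h | h
  · exact h hp
  · exact h hq

theorem slopeC_inj {p q p' q' : ℤ} (h : slopeC p q = slopeC p' q') : p = p' ∧ q = q' := by
  have h3 : Real.sqrt 3 ≠ 0 := by positivity
  have h1 : ∀ p q : ℤ, (slopeC p q).re = p := by intro p q; unfold slopeC; simp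
  have h2 : ∀ p q : ℤ, (slopeC p q).im = 2 * q * Real.sqrt 3 := by
    intro p q; unfold slopeC; simp
  have e1 : (p : ℝ) = p' := by rw [← h1 p q, ← h1 p' q', h]
  have e2 : 2 * q * Real.sqrt 3 = 2 * q' * Real.sqrt 3 := by rw [← h2 p q, ← h2 p' q', h]
  have e3 := mul_right_cancel₀ h3 e2
  constructor
  · exact_mod_cast e1
  · have : (q : ℝ) = q' := by linarith
    exact_mod_cast this

/-- elements commuting with a nontrivial translation are peripheral -/
theorem periph_of_commute (q : ℤ) (g : G8) (s : ℂ) (hs : s ≠ 0) (hc : Commute (fC q g) (trans s)) :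
    ∃ i j : ℤ, g = lam a8 b8 ^ j * a8 ^ i := by
  have h := hc.eq
  have h11 : (fC q g * trans s) 1 1 = (trans s * fC q g) 1 1 := by rw [h]
  rw [cmul11, cmul11, trans01, trans11, trans10] at h11
  have h10 : (fC q g) 1 0 = 0 := by
    have : (fC q g) 1 0 * s = 0 := by linear_combination h11
    exact (mul_eq_zero.mp this).resolve_right hs
  have hU : f8 g ∈ U := by
    rw [mem_U]
    apply emb_injective
    rw [map_zero]
    rcases fC_eq_or q g with hg | hg
    · rw [hg] at h10; exact h10
    · rw [hg] at h10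
      have : -(emb ((f8 g) 1 0)) = 0 := h10
      exact neg_eq_zero.mp this
  obtain ⟨i, j, hij, _⟩ := exists_ij a8 b8 rel_ab8 f8 f8_a f8_b gen_ab8 hU
  exact ⟨i, j, hij⟩

theorem periph_exponents {i j i' j' : ℤ}
    (h : lam a8 b8 ^ j * a8 ^ i = lam a8 b8 ^ j' * a8 ^ i') : i = i' ∧ j = j' := by
  have h1 := congrArg (fC 0) h
  rw [fC_periph, fC_periph] at h1
  have h2 : slopeC i j = slopeC i' j' := by
    have e00 := congrArg (fun X : SLC => X 0 0) h1
    have e01 := congrArg (fun X : SLC => X 0 1) h1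
    rcases neg_one_zpow_cases (H := SLC) (0 * i + j) with ⟨_, ha⟩ | ⟨_, ha⟩ <;>
    rcases neg_one_zpow_cases (H := SLC) (0 * i' + j') with ⟨_, hb⟩ | ⟨_, hb⟩
    · rw [ha, hb, one_mul, one_mul] at e01; exact e01
    · exfalso
      rw [ha, hb, one_mul, neg_one_mul] at e00
      have : (1 : ℂ) = -1 := e00
      norm_num at this
    · exfalso
      rw [ha, hb, one_mul, neg_one_mul] at e00
      have : (-1 : ℂ) = 1 := e00
      norm_num at this
    · rw [ha, hb, neg_one_mul, neg_one_mul] at e01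
      have : -(slopeC i j) = -(slopeC i' j') := e01
      exact neg_injective this
  exact slopeC_inj h2

theorem comm8 : Commute a8 (lam a8 b8) := comm_al a8 b8 rel_ab8

theorem primitive8 (p q : ℤ) (hp : Odd p) (hpq : IsCoprime p q) :
    ∀ g ∈ (fC q).range, ∀ n : ℤ, g ^ n = trans (slopeC p q) → n = 1 ∨ n = -1 := by
  rintro _ ⟨x, rfl⟩ n hn
  have hne : slopeC p q ≠ 0 := slopeC_ne_zero (Or.inl (by rintro rfl; exact absurd hp (by decide)))
  have hc : Commute (fC q x) (trans (slopeC p q)) := by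
    rw [← hn]; exact Commute.self_zpow _ _
  obtain ⟨i, j, hij⟩ := periph_of_commute q x _ hne hc
  rw [← fC_mer p q hp, ← map_zpow] at hn
  have h1 := fC_injective q hn
  rw [hij] at h1
  have hcc : Commute (lam a8 b8 ^ j) (a8 ^ i) := (comm8.symm).zpow_zpow j i
  rw [hcc.mul_zpow, ← zpow_mul, ← zpow_mul] at h1
  obtain ⟨h2, h3⟩ := periph_exponents h1
  -- n divides p and q
  obtain ⟨u, v, huv⟩ := hpq
  have : n * (u * i + v * j) = 1 := by rw [← huv, ← h2, ← h3]; ring
  exact Int.eq_one_or_neg_one_of_mul_eq_one this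

/-- relation of characters -/
theorem char_ab {A : Type*} [CommGroup A] (χ : G8 →* A) : χ a8 = χ b8 := by
  have h := congrArg χ rel_ab8
  simp only [rel8, map_mul, map_inv, map_one] at h
  have h2 : χ a8 * (χ b8)⁻¹ = 1 := by
    rw [← h]
    simp [mul_comm, mul_left_comm, mul_assoc]
  exact mul_inv_eq_one.mp h2

theorem char_lam {A : Type*} [CommGroup A] (χ : G8 →* A) : χ (lam a8 b8) = 1 := by
  simp only [lam, map_mul, map_inv]
  rw [char_ab χ]
  simp

/-- peripheral elements -/
def per (i j : ℤ) : G8 := lam a8 b8 ^ j * a8 ^ i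

theorem modTwo8 (p q : ℤ) (hp : Odd p) : IsModTwoHomologySphere (per p q) := by
  intro χ' h2
  unfold per at h2
  rw [map_mul, map_zpow, map_zpow, char_lam, one_zpow, one_mul] at h2
  have h3 : ∀ y : Multiplicative (ZMod 2), y ^ p = 1 → y = 1 := by
    intro y hy
    obtain ⟨k, rfl⟩ := hp
    rw [zpow_add, zpow_mul, zpow_one] at hy
    have : ∀ y : Multiplicative (ZMod 2), y ^ (2 : ℤ) = 1 := by decide
    rw [this y, one_zpow, one_mul] at hy
    exact hy
  have ha := h3 _ h2
  have hb : χ' b8 = 1 := by rw [← char_ab, ha]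
  intro g
  have hg : g ∈ Subgroup.closure ({a8, b8} : Set G8) := by rw [gen_ab8]; trivial
  induction hg using Subgroup.closure_induction with
  | mem x hx =>
    rcases hx with rfl | hx
    · exact ha
    · rw [Set.mem_singleton_iff] at hx
      rw [hx]; exact hb
  | one => exact map_one _
  | mul x y _ _ hx hy => rw [map_mul, hx, hy, one_mul]
  | inv x _ hx => rw [map_inv, hx, inv_one]

theorem al_eq_one {q : ℤ} {x : G8} (h : al q x = 1) : fC q x = 1 := Subtype.ext h

theorem al_eq_neg_one {q : ℤ} {x : G8} (h : al q x = -1) : fC q x = -1 := Subtype.ext h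

theorem torsionFree8' (q : ℤ) : ∀ x : G8, ∀ n : ℕ, 0 < n →
    (al q (x ^ n) = 1 ∨ al q (x ^ n) = -1) → x = 1 := by
  intro x n hn h0
  have h : fC q (x ^ n) = 1 ∨ fC q (x ^ n) = -1 := by
    rcases h0 with h | h
    · left; exact al_eq_one h
    · right; exact al_eq_neg_one h
  apply torsion_free8 x n hn
  rw [← map_pow]
  have hinj : Function.Injective embSL := embSL_injective
  have hneg1 : embSL (-1) = -1 := by
    apply cext4 <;> simp [embSL_apply]
  rcases fC_eq_or q (x ^ n) with hx | hx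
  · rw [hx] at h
    rcases h with h | h
    · left; apply hinj; rw [h, map_one]
    · right; apply hinj; rw [h, hneg1]
  · rw [hx] at h
    rcases h with h | h
    · right; apply hinj; rw [hneg1, ← h, neg_neg]
    · left; apply hinj; rw [map_one]; exact neg_injective h

theorem trans_ne_one {s : ℂ} (hs : s ≠ 0) : trans s ≠ 1 := by
  intro h
  apply hs
  have : (trans s) 0 1 = (1 : SLC) 0 1 := by rw [h]
  rw [trans01] at this
  simpa using this

theorem normSq_lt_of_norm_lt {z : ℂ} (h : ‖z‖ < 1) : Complex.normSq z < 1 := by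
  rw [Complex.normSq_eq_norm_sq]
  nlinarith [norm_nonneg z]

theorem discrete8 (q : ℤ) : ∃ ε : ℝ, 0 < ε ∧ ∀ g : G8,
    (∀ i j, ‖(al q g - 1) i j‖ < ε) → g = 1 := by
  refine ⟨1, one_pos, ?_⟩
  intro g hg
  have e : ∀ z : Eis, Complex.normSq (emb z) < 1 → z = 0 := by
    intro z hz
    rw [normSq_emb] at hz
    have h0 : N z < 1 := by exact_mod_cast hz
    have := N_nonneg z
    exact N_eq_zero (by omega)
  have h01 := normSq_lt_of_norm_lt (hg 0 1)
  have h10 := normSq_lt_of_norm_lt (hg 1 0)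
  have e01 : (al q g - 1) 0 1 = (fC q g) 0 1 := by
    rw [Matrix.sub_apply]; simp [al]
  have e10 : (al q g - 1) 1 0 = (fC q g) 1 0 := by
    rw [Matrix.sub_apply]; simp [al]
  rw [e01] at h01
  rw [e10] at h10
  apply fC_offdiag q
  · rcases fC_eq_or q g with h | h
    · rw [h] at h01 ⊢
      change Complex.normSq (emb ((f8 g) 0 1)) < 1 at h01
      change emb ((f8 g) 0 1) = 0
      rw [e _ h01, map_zero]
    · rw [h] at h01 ⊢
      change Complex.normSq (-emb ((f8 g) 0 1)) < 1 at h01
      change -emb ((f8 g) 0 1) = 0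
      rw [Complex.normSq_neg] at h01
      rw [e _ h01, map_zero, neg_zero]
  · rcases fC_eq_or q g with h | h
    · rw [h] at h10 ⊢
      change Complex.normSq (emb ((f8 g) 1 0)) < 1 at h10
      change emb ((f8 g) 1 0) = 0
      rw [e _ h10, map_zero]
    · rw [h] at h10 ⊢
      change Complex.normSq (-emb ((f8 g) 1 0)) < 1 at h10
      change -emb ((f8 g) 1 0) = 0
      rw [Complex.normSq_neg] at h10
      rw [e _ h10, map_zero, neg_zero]

theorem fC_per (p q : ℤ) (hp : Odd p) : fC q (per p q) = trans (slopeC p q) := fC_mer p q hp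

/-- **The cores of the odd Dehn fillings of the figure-eight exterior are hyperbolic knots.** -/
theorem isHyperbolicKnot8 (p q : ℤ) (hp : Odd p) (hpq : IsCoprime p q) :
    IsHyperbolicKnot (al q) (per p q) where
  map_mul := fun g h => by
    unfold al; rw [map_mul]; rfl
  det_eq_one := fun g => (fC q g).2
  discrete := discrete8 q
  torsionFree := torsionFree8' q
  finiteCovolume := finiteCovolume8 q
  oneCusp := by
    intro g hg
    obtain ⟨_, ⟨h, rfl⟩, hc⟩ := oneCusp8 q (slopeC p q) (fC q g) ⟨g, rfl⟩ hg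
    refine ⟨h, ?_⟩
    apply fC_injective q
    rw [← fC_per p q hp, ← map_inv, ← map_mul, ← map_mul] at hc
    have := hc.eq
    rw [← map_mul, ← map_mul] at this
    exact this
  meridian_ne_one := by
    intro h
    have h1 := fC_per p q hp
    rw [h, map_one] at h1
    exact trans_ne_one
      (slopeC_ne_zero (Or.inl (by rintro rfl; exact absurd hp (by decide)))) h1.symm
  meridian_trace := by
    unfold al
    rw [fC_per p q hp, Matrix.trace_fin_two]
    change (1 : ℂ) + 1 = 2
    norm_num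
  meridian_primitive := by
    intro g n hn
    refine primitive8 p q hp hpq (fC q g) ⟨g, rfl⟩ n ?_
    rw [← map_zpow, hn]; exact fC_per p q hp

end Pool.Agent.H84
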