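import Mathlib
import Pool.Agent.H84.Fig8Knot

/-!
The cores of the fillings are not amphichiral.
-/

set_option linter.unusedSectionVars false
set_option linter.unusedSimpArgs false

namespace Pool.Agent.H84

open Eis MeasureTheory

/-- the abelianisation -/
def degG : G8 →* Multiplicative ℤ :=
  PresentedGroup.toGroup (f := ![Multiplicative.ofAdd 1, Multiplicative.ofAdd 1]) (by
    intro r hr
    rw [Set.mem_singleton_iff] at hr
    subst hr
    unfold relw
    simp only [rel8, map_mul, map_inv, FreeGroup.lift_apply_of]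
    decide)

theorem degG_a : degG a8 = Multiplicative.ofAdd 1 := PresentedGroup.toGroup.of _
theorem degG_b : degG b8 = Multiplicative.ofAdd 1 := PresentedGroup.toGroup.of _
theorem degG_lam : degG (lam a8 b8) = 1 := char_lam degG

theorem fC_neg_eq {q : ℤ} {g h : G8} (e : fC q g = -fC q h) : False := by
  have h1 : fC q (g * h⁻¹) = -1 := by
    rw [map_mul, map_inv, e, neg_mul, mul_inv_cancel]
  have h2 : g * h⁻¹ = 1 := by
    apply fC_offdiag q <;> rw [h1] <;> simp
  rw [h2, map_one] at h1
  have : (1 : SLC) 0 0 = (-1 : SLC) 0 0 := by rw [← h1]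
  simp at this
  norm_num at this

theorem conjSL_apply (X : SLC) (i j : Fin 2) : (conjSL X) i j = (starRingEnd ℂ) (X i j) := rfl

theorem conjSL_trans (s : ℂ) : conjSL (trans s) = trans ((starRingEnd ℂ) s) := by
  apply cext4
  · rw [conjSL_apply, trans00, map_one]; rfl
  · rw [conjSL_apply, trans01]; rfl
  · rw [conjSL_apply, trans10, map_zero]; rfl
  · rw [conjSL_apply, trans11, map_one]; rfl

theorem trans_inv (s : ℂ) : (trans s)⁻¹ = trans (-s) := by
  apply cext4
  · rw [cinv00]; rfl
  · rw [cinv01]; rfl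
  · rw [cinv10, trans10, trans10, neg_zero]
  · rw [cinv11]; rfl

theorem conjSL_neg (X : SLC) : conjSL (-X) = -conjSL X := by
  apply cext4
  · exact map_neg (starRingEnd ℂ) _
  · exact map_neg (starRingEnd ℂ) _
  · exact map_neg (starRingEnd ℂ) _
  · exact map_neg (starRingEnd ℂ) _

/-- conjugation of a translation by an upper triangular matrix -/
theorem conj_trans (A : SLC) (h10 : A 1 0 = 0) (s : ℂ) :
    A * trans s * A⁻¹ = trans (A 0 0 * A 0 0 * s) := by
  have hd := cdet A
  rw [h10] at hd
  apply cext4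
  · rw [cmul00, cmul00, cmul01, cinv00, cinv10, h10, trans00, trans01, trans10, trans11, trans00]
    linear_combination hd
  · rw [cmul01, cmul00, cmul01, cinv01, cinv11, trans00, trans01, trans10, trans11, trans01]
    ring
  · rw [cmul10, cmul10, cmul11, cinv00, cinv10, h10, trans00, trans01, trans10, trans11, trans10]
    ring
  · rw [cmul11, cmul10, cmul11, cinv01, cinv11, h10, trans00, trans01, trans10, trans11, trans11]
    linear_combination hd

theorem trans_inj {s t : ℂ} (h : trans s = trans t) : s = t := by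
  have : (trans s) 0 1 = (trans t) 0 1 := by rw [h]
  exact this

theorem trans_ne_neg {s t : ℂ} (h : trans s = -trans t) : False := by
  have : (trans s) 0 0 = (-trans t) 0 0 := by rw [h]
  have h2 : (1 : ℂ) = -1 := this
  norm_num at h2

/-- **Chirality.** -/
theorem not_amphichiral8 (p q : ℤ) (hp : Odd p) (hq : q ≠ 0) :
    ¬ IsAmphichiral (al q) (per p q) := by
  rintro ⟨θ0, A00, hdet, hnorm00, h0, hm00⟩
  set A0 : SLC := ⟨A00, hdet⟩ with hA0
  have hnorm0 : ∀ g : G8, A0 * conjSL (fC q g) * A0⁻¹ = fC q (θ0 g) ∨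
      A0 * conjSL (fC q g) * A0⁻¹ = -fC q (θ0 g) := by
    intro g
    rcases hnorm00 g with h | h
    · left
      have : A0 * conjSL (fC q g) = fC q (θ0 g) * A0 := by
        apply Subtype.ext
        exact h
      rw [this]; group
    · right
      have : A0 * conjSL (fC q g) = (-fC q (θ0 g)) * A0 := by
        rw [neg_mul]
        apply Subtype.ext
        exact h
      rw [this]; group
  have hp0 : p ≠ 0 := by rintro rfl; exact absurd hp (by decide)
  -- absorb the conjugating element
  set A : SLC := (fC q h0)⁻¹ * A0 with hA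
  set τ := slopeC p q with hτ
  have hτ0 : τ ≠ 0 := slopeC_ne_zero (Or.inl hp0)
  set Θ : G8 →* G8 := (MulAut.conj h0⁻¹).toMonoidHom.comp θ0.toMonoidHom with hΘ
  set θ : G8 → G8 := fun g => h0⁻¹ * θ0 g * h0 with hθdef
  have hθΘ : ∀ g, θ g = Θ g := by
    intro g
    rw [hΘ, hθdef]
    simp [MulAut.conj_apply]
  have hθ : ∀ g : G8, A * conjSL (fC q g) * A⁻¹ = fC q (θ g) ∨
      A * conjSL (fC q g) * A⁻¹ = -fC q (θ g) := by
    intro g
    have e : A * conjSL (fC q g) * A⁻¹ =
        (fC q h0)⁻¹ * (A0 * conjSL (fC q g) * A0⁻¹) * fC q h0 := by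
      rw [hA]; group
    rcases hnorm0 g with h | h
    · left
      rw [e, h, hθdef]; simp only [map_mul, map_inv]
    · right
      rw [e, h, hθdef]; simp only [map_mul, map_inv, mul_neg, neg_mul]
  obtain ⟨σ, hσ, hm⟩ : ∃ σ : ℂ, (σ = τ ∨ σ = -τ) ∧ A * conjSL (trans τ) * A⁻¹ = trans σ := by
    have hneg : ∀ σ : ℂ, A * conjSL (trans τ) * A⁻¹ = -trans σ → False := by
      intro σ h
      have h1 : (A * conjSL (trans τ) * A⁻¹).1.trace = (-trans σ).1.trace := by rw [h]
      have h2 : (A * conjSL (trans τ) * A⁻¹).1.trace = (conjSL (trans τ)).1.trace := by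
        rw [Matrix.SpecialLinearGroup.coe_mul, Matrix.trace_mul_comm,
          ← Matrix.SpecialLinearGroup.coe_mul, ← mul_assoc, inv_mul_cancel, one_mul]
      rw [h2, conjSL_trans, Matrix.trace_fin_two, Matrix.trace_fin_two] at h1
      change (1 : ℂ) + 1 = -1 + -1 at h1
      norm_num at h1
    have hθm : θ (per p q) = per p q ∨ θ (per p q) = (per p q)⁻¹ := by
      rcases hm00 with h | h
      · left; rw [hθdef]; simp only; rw [h]; group
      · right; rw [hθdef]; simp only; rw [h]; group
    have h1 := hθ (per p q)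
    rw [fC_per p q hp] at h1
    rcases hθm with h | h
    · refine ⟨τ, Or.inl rfl, ?_⟩
      rw [h, fC_per p q hp] at h1
      exact h1.resolve_right (hneg _)
    · refine ⟨-τ, Or.inr rfl, ?_⟩
      rw [h, map_inv, fC_per p q hp, trans_inv] at h1
      exact h1.resolve_right (hneg _)
  rw [conjSL_trans] at hm
  have hσ0 : σ ≠ 0 := by
    rcases hσ with rfl | rfl
    · exact hτ0
    · exact neg_ne_zero.mpr hτ0
  -- A fixes infinity
  have hA10 : A 1 0 = 0 := by
    have h1 : A * trans ((starRingEnd ℂ) τ) = trans σ * A := by rw [← hm]; group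
    have h2 : (A * trans ((starRingEnd ℂ) τ)) 0 0 = (trans σ * A) 0 0 := by rw [h1]
    rw [cmul00 A, cmul00 (trans σ), trans00, trans10, trans00, trans01] at h2
    have : σ * A 1 0 = 0 := by linear_combination -h2
    exact (mul_eq_zero.mp this).resolve_left hσ0
  set κ : ℂ := A 0 0 * A 0 0 with hκ
  have hκτ : κ * (starRingEnd ℂ) τ = σ := by
    rw [conj_trans A hA10] at hm
    exact trans_inj hm
  have hdeg : degG (θ (lam a8 b8)) = 1 := by rw [hθΘ]; exact char_lam (degG.comp Θ)
  -- the image of the longitude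
  have hL : fC q (lam a8 b8) = (-1) * trans (slopeC 0 1) := by
    have := fC_periph q 1 0
    simpa using this
  have hcl : A * conjSL (fC q (lam a8 b8)) * A⁻¹ = -trans (κ * (starRingEnd ℂ) (slopeC 0 1)) := by
    rw [hL, neg_one_mul, conjSL_neg, conjSL_trans, mul_neg, neg_mul, conj_trans A hA10]
  have hcomm : Commute (fC q (θ (lam a8 b8))) (trans τ) := by
    have hct : ∀ s t : ℂ, Commute (trans s) (trans t) := by
      intro s t
      apply cext4
      · rw [cmul00, cmul00, trans00, trans00, trans01, trans01, trans10, trans10]; ring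
      · rw [cmul01, cmul01, trans00, trans00, trans01, trans01, trans11, trans11]; ring
      · rw [cmul10, cmul10, trans10, trans10, trans11, trans11]; ring
      · rw [cmul11, cmul11, trans10, trans10, trans11, trans11]; ring
    rcases hθ (lam a8 b8) with h | h
    · rw [← h, hcl]; exact (hct _ _).neg_left
    · have : fC q (θ (lam a8 b8)) = trans (κ * (starRingEnd ℂ) (slopeC 0 1)) := by
        rw [hcl] at h; exact (neg_injective h).symm
      rw [this]; exact hct _ _
  obtain ⟨i, j, hij⟩ := periph_of_commute q _ τ hτ0 hcomm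
  have hi : i = 0 := by
    rw [hij, map_mul, map_zpow, map_zpow, degG_lam, degG_a, one_zpow, one_mul] at hdeg
    have := congrArg Multiplicative.toAdd hdeg
    simpa using this
  have hkj : κ * (starRingEnd ℂ) (slopeC 0 1) = slopeC 0 j := by
    have h1 := fC_periph q j i
    rw [← hij, hi, mul_zero, zero_add] at h1
    rcases hθ (lam a8 b8) with h | h
    · rw [hcl, h1] at h
      rcases neg_one_zpow_cases (H := SLC) j with ⟨_, h2⟩ | ⟨_, h2⟩
      · exfalso
        rw [h2, one_mul] at h
        exact trans_ne_neg h.symm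
      · rw [h2, neg_one_mul] at h
        exact trans_inj (neg_injective h)
    · rw [hcl, h1] at h
      rcases neg_one_zpow_cases (H := SLC) j with ⟨_, h2⟩ | ⟨_, h2⟩
      · rw [h2, one_mul] at h
        exact trans_inj (neg_injective h)
      · exfalso
        rw [h2, neg_one_mul, neg_neg] at h
        exact trans_ne_neg h.symm
  have hs3 : (Real.sqrt 3 : ℂ) ≠ 0 := by
    have : Real.sqrt 3 ≠ 0 := by positivity
    exact_mod_cast this
  have hκj : κ = -(j : ℂ) := by
    have e1 : (starRingEnd ℂ) (slopeC 0 1) = -(2 * (Real.sqrt 3 : ℂ) * Complex.I) := by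
      unfold slopeC
      simp only [map_add, map_mul, map_ofNat, Complex.conj_ofReal, Complex.conj_I, map_intCast]
      push_cast
      ring
    have e2 : slopeC 0 j = 2 * j * (Real.sqrt 3 : ℂ) * Complex.I := by
      unfold slopeC; simp
    rw [e1, e2] at hkj
    have hI := Complex.I_ne_zero
    have : (2 * (Real.sqrt 3 : ℂ) * Complex.I) * (κ + j) = 0 := by linear_combination -hkj
    have h2 : (2 * (Real.sqrt 3 : ℂ) * Complex.I) ≠ 0 := by
      exact mul_ne_zero (mul_ne_zero two_ne_zero hs3) hI
    have h3 := (mul_eq_zero.mp this).resolve_left h2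
    linear_combination h3
  -- norms
  have hj : j = 1 ∨ j = -1 := by
    have h1 : ‖κ‖ * ‖τ‖ = ‖τ‖ := by
      have h2 := congrArg norm hκτ
      rw [norm_mul, Complex.norm_conj] at h2
      rw [h2]
      rcases hσ with rfl | rfl
      · rfl
      · rw [norm_neg]
    have h3 : ‖τ‖ ≠ 0 := norm_ne_zero_iff.mpr hτ0
    have h4 : ‖κ‖ = 1 := by
      have : (‖κ‖ - 1) * ‖τ‖ = 0 := by linarith
      have := (mul_eq_zero.mp this).resolve_right h3
      linarith
    rw [hκj, norm_neg, Complex.norm_intCast] at h4
    have h5 : |j| = 1 := by exact_mod_cast h4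
    exact (abs_eq (by norm_num)).mp h5
  have hre : τ.re = p := by rw [hτ]; unfold slopeC; simp
  have him : τ.im = 2 * q * Real.sqrt 3 := by rw [hτ]; unfold slopeC; simp
  have hpR : (p : ℝ) ≠ 0 := by exact_mod_cast hp0
  have hqR : (2 * q * Real.sqrt 3 : ℝ) ≠ 0 := by
    have : (q : ℝ) ≠ 0 := by exact_mod_cast hq
    have h3 : Real.sqrt 3 ≠ 0 := by positivity
    positivity
  rw [hκj] at hκτ
  have hr := congrArg Complex.re hκτ
  have hi' := congrArg Complex.im hκτ
  rcases hj with rfl | rfl <;> rcases hσ with hs | hs <;> rw [hs] at hr hi' <;>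
    simp [hre, him] at hr hi'
  · exact hpR (by linarith)
  · exact hqR (by linarith)
  · exact hqR (by linarith)
  · exact hpR (by linarith)

end Pool.Agent.H84
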