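import Mathlib
import Pool.Agent.H84.Fig8Chiral

/-!
No orientation-reversing automorphism of the peripheral system when `3 ≤ |p|`.
-/

set_option linter.unusedSectionVars false
set_option linter.unusedSimpArgs false

namespace Pool.Agent.H84

theorem per_mul (i j i' j' : ℤ) : per i j * per i' j' = per (i + i') (j + j') := by
  unfold per
  have hcc : a8 ^ i * lam a8 b8 ^ j' = lam a8 b8 ^ j' * a8 ^ i := ((comm8).zpow_zpow i j').eq
  calc lam a8 b8 ^ j * a8 ^ i * (lam a8 b8 ^ j' * a8 ^ i')
      = lam a8 b8 ^ j * (a8 ^ i * lam a8 b8 ^ j') * a8 ^ i' := by simp only [mul_assoc]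
    _ = _ := by rw [hcc, zpow_add, zpow_add]; simp only [mul_assoc]

theorem per_zpow (i j n : ℤ) : per i j ^ n = per (n * i) (n * j) := by
  unfold per
  have hcc : Commute (lam a8 b8 ^ j) (a8 ^ i) := (comm8.symm).zpow_zpow j i
  rw [hcc.mul_zpow, ← zpow_mul, ← zpow_mul, mul_comm j n, mul_comm i n]

theorem per_inj {i j i' j' : ℤ} (h : per i j = per i' j') : i = i' ∧ j = j' :=
  periph_exponents h

theorem per_comm (i j i' j' : ℤ) : Commute (per i j) (per i' j') := by
  unfold Commute SemiconjBy
  rw [per_mul, per_mul, add_comm i, add_comm j]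

/-- the isomorphism with the image -/
noncomputable def isoG (q : ℤ) : G8 ≃* (fC q).range := MonoidHom.ofInjective (fC_injective q)

theorem isoG_apply (q : ℤ) (g : G8) : ((isoG q g : (fC q).range) : SLC) = fC q g := rfl

theorem commute_per (p q : ℤ) (hp : Odd p) {g : G8} (h : Commute g (per p q)) :
    ∃ i j : ℤ, g = per i j := by
  have h1 : Commute (fC q g) (trans (slopeC p q)) := by
    rw [← fC_mer p q hp]
    exact h.map (fC q)
  exact periph_of_commute q g _
    (slopeC_ne_zero (Or.inl (by rintro rfl; exact absurd hp (by decide)))) h1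

theorem no_aut8 (p q : ℤ) (hp : Odd p) (hpq : IsCoprime p q) (hp3 : 3 ≤ |p|) :
    ¬ HasOrientationReversingAutomorphism (per p q) := by
  rintro ⟨Θ, L, ε, k, hε, hcen, hΘM0, hΘL0⟩
  have hp0 : p ≠ 0 := by rintro rfl; exact absurd hp (by decide)
  have hΘM : Θ (per p q) = per (ε * p) (ε * q) := by rw [hΘM0, per_zpow]
  have hΘL : Θ L = L ^ (-ε) * per (k * p) (k * q) := by rw [hΘL0, per_zpow]
  -- L is peripheral
  obtain ⟨r, s, hLrs⟩ := commute_per p q hp ((hcen L).mpr (Subgroup.subset_closure (by simp)))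
  -- images of peripheral elements are peripheral
  have hper : ∀ i j : ℤ, ∃ x y : ℤ, Θ (per i j) = per x y := by
    intro i j
    have h1 : Commute (Θ (per i j)) (Θ (per p q)) := (per_comm i j p q).map Θ
    rw [hΘM, ← per_zpow] at h1
    have h2 : Commute (Θ (per i j)) (per p q) := by
      rcases hε with rfl | rfl
      · simpa using h1
      · rw [zpow_neg, zpow_one] at h1
        exact Commute.inv_right_iff.mp h1
    exact commute_per p q hp h2
  obtain ⟨x, y, hxy⟩ := hper 1 0
  obtain ⟨i, j, hij⟩ := hper 0 1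
  have hi : i = 0 := by
    have h1 : degG (Θ (per 0 1)) = 1 := by
      have h2 := char_lam (degG.comp (Θ : G8 →* G8))
      have h3 : per 0 1 = lam a8 b8 := by unfold per; simp
      rw [h3]; exact h2
    rw [hij] at h1
    unfold per at h1
    rw [map_mul, map_zpow, map_zpow, degG_lam, degG_a, one_zpow, one_mul] at h1
    have := congrArg Multiplicative.toAdd h1
    simpa using this
  subst hi
  have hgen : ∀ u v : ℤ, Θ (per u v) = per (u * x) (u * y + v * j) := by
    intro u v
    have h1 : per u v = per 1 0 ^ u * per 0 1 ^ v := by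
      rw [per_zpow, per_zpow, per_mul]; congr 1 <;> ring
    rw [h1, map_mul, map_zpow, map_zpow, hxy, hij, per_zpow, per_zpow, per_mul]
    congr 1; ring
  rw [hgen] at hΘM
  obtain ⟨h1, h2⟩ := per_inj hΘM
  rw [hLrs, hgen, per_zpow, per_mul] at hΘL
  obtain ⟨h3, h4⟩ := per_inj hΘL
  have hx : x = ε := by
    have : p * (x - ε) = 0 := by linear_combination h1
    have := (mul_eq_zero.mp this).resolve_left hp0
    linarith
  rw [hx] at h3
  -- determinant nonzero
  have hclos : ∀ g ∈ Subgroup.closure {per p q, L}, ∃ u v : ℤ, g = per (u * p + v * r) (u * q + v * s) := by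
    intro g hg
    induction hg using Subgroup.closure_induction with
    | mem z hz =>
      rcases hz with rfl | hz
      · exact ⟨1, 0, by congr 1 <;> ring⟩
      · rw [Set.mem_singleton_iff] at hz
        rw [hz, hLrs]
        exact ⟨0, 1, by congr 1 <;> ring⟩
    | one => exact ⟨0, 0, by unfold per; simp⟩
    | mul z w _ _ hz hw =>
      obtain ⟨u, v, rfl⟩ := hz
      obtain ⟨u', v', rfl⟩ := hw
      exact ⟨u + u', v + v', by rw [per_mul]; congr 1 <;> ring⟩
    | inv z _ hz =>
      obtain ⟨u, v, rfl⟩ := hz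
      refine ⟨-u, -v, ?_⟩
      rw [← zpow_neg_one, per_zpow]; congr 1 <;> ring
  obtain ⟨u1, v1, e1⟩ := hclos _ ((hcen (per 1 0)).mp (per_comm 1 0 p q))
  obtain ⟨u2, v2, e2⟩ := hclos _ ((hcen (per 0 1)).mp (per_comm 0 1 p q))
  obtain ⟨e11, e12⟩ := per_inj e1
  obtain ⟨e21, e22⟩ := per_inj e2
  have hdet : p * s - q * r ≠ 0 := by
    intro h0
    have : (u1 * v2 - u2 * v1) * (p * s - q * r) = 1 := by
      have h5 : (u1 * p + v1 * r) * (u2 * q + v2 * s) - (u1 * q + v1 * s) * (u2 * p + v2 * r) = 1 := by
        rw [← e11, ← e12, ← e21, ← e22]; ring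
      linear_combination h5
    rw [h0, mul_zero] at this
    exact zero_ne_one this
  have hj : j = -ε := by
    have : (j + ε) * (p * s - q * r) = 0 := by
      linear_combination p * h4 - r * h2 - q * h3
    have := (mul_eq_zero.mp this).resolve_right hdet
    linarith
  rw [hj] at h2
  have h6 : p * y = 2 * ε * q := by linear_combination h2
  have h7 : p ∣ 2 * ε := by
    have : p ∣ (2 * ε) * q := ⟨y, by linear_combination -h6⟩
    exact hpq.dvd_of_dvd_mul_right this
  have h8 : |p| ≤ 2 := by
    have h9 : p ∣ 2 := by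
      rcases hε with rfl | rfl
      · simpa using h7
      · rw [show (2 : ℤ) * -1 = -2 by ring] at h7
        exact (dvd_neg).mp h7
    have := Int.natAbs_dvd_natAbs.mpr h9
    have h10 := Nat.le_of_dvd (by norm_num) this
    rw [Int.abs_eq_natAbs]
    exact_mod_cast h10
  linarith

end Pool.Agent.H84
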