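import Mathlib

/-!
Existence of Fox derivatives with respect to a representation.
-/

namespace Pool.Agent.H84

/-- Existence of crossed homomorphisms on free groups. -/
theorem exists_fox {ι S : Type*} [Ring S] (ρ : FreeGroup ι →* S) (d : ι → S) :
    ∃ D : FreeGroup ι → S, (∀ i, D (FreeGroup.of i) = d i) ∧
      ∀ u v, D (u * v) = D u + ρ u * D v := by
  set ρ' : FreeGroup ι →* Sˣ := ρ.toHomUnits with hρ'
  -- the affine group acting on `S` by permutations
  let aff : Sˣ → S → Equiv.Perm S := fun u t =>
    { toFun := fun x => t + u * x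
      invFun := fun x => (u⁻¹ : Sˣ) * (x - t)
      left_inv := fun x => by simp
      right_inv := fun x => by simp }
  let F : FreeGroup ι →* Equiv.Perm S := FreeGroup.lift fun i => aff (ρ' (FreeGroup.of i)) (d i)
  have key : ∀ u : FreeGroup ι, ∀ x, F u x = F u 0 + ρ u * x := by
    intro u
    induction u using FreeGroup.induction_on with
    | C1 => intro x; simp
    | of i =>
      intro x
      have h1 : F (FreeGroup.of i) = aff (ρ' (FreeGroup.of i)) (d i) := FreeGroup.lift_apply_of
      rw [h1]
      change d i + (ρ' (FreeGroup.of i) : S) * x = d i + (ρ' (FreeGroup.of i) : S) * 0 + ρ _ * x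
      rw [mul_zero, add_zero]; rfl
    | inv_of i h =>
      intro x
      have h2 : ∀ x, F (FreeGroup.of i)⁻¹ x = (F (FreeGroup.of i)).symm x := by
        intro x; rw [map_inv]; rfl
      rw [h2, h2, Equiv.symm_apply_eq, h]
      have h3 := h ((F (FreeGroup.of i)).symm 0)
      rw [Equiv.apply_symm_apply] at h3
      rw [mul_add, ← mul_assoc, ← map_mul, mul_inv_cancel, map_one, one_mul, ← add_assoc, ← h3,
        zero_add]
    | mul a b ha hb =>
      intro x
      have h2 : ∀ x, F (a * b) x = F a (F b x) := by intro x; rw [map_mul]; rfl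
      rw [h2, h2, ha (F b x), ha (F b 0), hb x, map_mul, mul_add, mul_assoc, add_assoc]
  refine ⟨fun u => F u 0, ?_, ?_⟩
  · intro i
    have h1 : F (FreeGroup.of i) = aff (ρ' (FreeGroup.of i)) (d i) := FreeGroup.lift_apply_of
    simp only [h1]
    change d i + (ρ' (FreeGroup.of i) : S) * 0 = d i
    simp
  · intro u v
    have h2 : F (u * v) 0 = F u (F v 0) := by rw [map_mul]; rfl
    simp only [h2]
    rw [key u (F v 0)]

end Pool.Agent.H84
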