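import Mathlib
import Pool.Agent.H84.Fig8Chiral
import Pool.Agent.H84.Fig8Aut
import Pool.Agent.H84.Fox

/-!
The torsion polynomial of the figure-eight exterior (Wada's formula).
-/

set_option linter.unusedSectionVars false
set_option linter.unusedSimpArgs false

open Matrix LaurentPolynomial

namespace Pool.Agent.H84

open Eis

theorem fC_sign (q : ℤ) (g : G8) :
    fC q g = (-1) ^ (q * (degG g).toAdd) * embSL (f8 g) := by
  have hg : g ∈ Subgroup.closure ({a8, b8} : Set G8) := by rw [gen_ab8]; trivial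
  have hcen : ∀ (n : ℤ) (X : SLC), (-1 : SLC) ^ n * X = X * (-1 : SLC) ^ n := fun n X =>
    ((Commute.neg_one_left X).zpow_left n).eq
  induction hg using Subgroup.closure_induction with
  | mem x hx =>
    rcases hx with rfl | hx
    · rw [fC_a, f8_a, degG_a]; simp
    · rw [Set.mem_singleton_iff] at hx
      rw [hx, fC_b, f8_b, degG_b]; simp
  | one => simp
  | mul x y _ _ hx hy =>
    rw [map_mul (fC q), hx, hy, map_mul degG, map_mul f8, map_mul embSL, toAdd_mul, mul_add, _root_.zpow_add]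
    calc (-1) ^ (q * (degG x).toAdd) * embSL (f8 x) * ((-1) ^ (q * (degG y).toAdd) * embSL (f8 y))
        = (-1) ^ (q * (degG x).toAdd) * (embSL (f8 x) * (-1) ^ (q * (degG y).toAdd)) *
            embSL (f8 y) := by simp only [mul_assoc]
      _ = _ := by rw [← hcen]; simp only [mul_assoc]
  | inv x _ hx =>
    rw [map_inv (fC q), hx, map_inv degG, map_inv f8, map_inv embSL, toAdd_inv, _root_.mul_inv_rev,
      mul_neg, ← _root_.zpow_neg, hcen]

/-- explicit matrices -/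
noncomputable def WW (q d : ℤ) (X : SLE) : Matrix (Fin 2) (Fin 2) ℂ[T;T⁻¹] :=
  Matrix.of fun i j => T d * C ((-1 : ℂ) ^ (q * d) * emb (X i j))

def phiG (g : G8) : ℤ := (degG g).toAdd

theorem neg_one_zpow_mul_apply (n : ℤ) (X : SLC) (i j : Fin 2) :
    ((-1 : SLC) ^ n * X) i j = (-1 : ℂ) ^ n * X i j := by
  rcases Int.even_or_odd n with h | h
  · rw [h.neg_one_zpow, h.neg_one_zpow, one_mul, one_mul]
  · rcases neg_one_zpow_cases (H := SLC) n with ⟨h', _⟩ | ⟨_, h'⟩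
    · exact absurd h (by rw [Int.not_odd_iff_even]; exact h')
    · rw [h', h.neg_one_zpow, neg_one_mul, neg_one_mul]; rfl

theorem twisted_eq (q : ℤ) (g : G8) :
    twisted (al q) phiG g = WW q (degG g).toAdd (f8 g) := by
  unfold twisted WW phiG al
  ext1 i j
  rw [Matrix.of_apply, Matrix.of_apply]
  congr 2
  rw [fC_sign]
  exact neg_one_zpow_mul_apply _ _ _ _

/-- the twisted representation as a homomorphism -/
noncomputable def rhoG (q : ℤ) : FreeGroup (Fin 2) →* Matrix (Fin 2) (Fin 2) ℂ[T;T⁻¹] where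
  toFun w := twisted (al q) phiG (FreeGroup.lift ![a8, b8] w)
  map_one' := by
    rw [map_one]
    unfold twisted phiG al
    rw [map_one degG, map_one (fC q), Matrix.SpecialLinearGroup.coe_one, toAdd_one]
    ext1 i j
    rw [Matrix.of_apply, T_zero, one_mul]
    fin_cases i <;> fin_cases j <;> simp [Matrix.one_apply]
  map_mul' u v := by
    rw [map_mul]
    unfold twisted phiG al
    rw [map_mul degG, map_mul (fC q), toAdd_mul, T_add, Matrix.SpecialLinearGroup.coe_mul]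
    ext1 i j
    rw [Matrix.mul_apply, Matrix.of_apply, Matrix.mul_apply, map_sum, Finset.mul_sum]
    refine Finset.sum_congr rfl fun k _ => ?_
    rw [Matrix.of_apply, Matrix.of_apply, map_mul]
    ring

theorem lift_eq (w : FreeGroup (Fin 2)) :
    FreeGroup.lift ![a8, b8] w = PresentedGroup.mk {relw} w := by
  have : FreeGroup.lift ![a8, b8] = (PresentedGroup.mk {relw}) := by
    ext i
    fin_cases i
    · simp; rfl
    · simp; rfl
  rw [this]

theorem rhoG_eq (q : ℤ) (w : FreeGroup (Fin 2)) :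
    rhoG q w = WW q (degG (PresentedGroup.mk {relw} w)).toAdd (f8 (PresentedGroup.mk {relw} w)) := by
  change twisted _ _ _ = _
  rw [lift_eq, twisted_eq]

/-- the torsion polynomial `t - 4σ + t⁻¹`, `σ = (-1)^q` -/
noncomputable def tors (q : ℤ) : ℂ[T;T⁻¹] := T 1 - C (4 * (-1 : ℂ) ^ q) + T (-1)

theorem tors_invert (q : ℤ) : invert (tors q) = tors q := by
  unfold tors
  simp only [map_add, map_sub, invert_T, invert_C, neg_neg]
  ring

theorem mk_word (w : FreeGroup (Fin 2)) (X : SLE) (d : ℤ) (q : ℤ)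
    (h1 : f8 (PresentedGroup.mk {relw} w) = X)
    (h2 : degG (PresentedGroup.mk {relw} w) = Multiplicative.ofAdd d) :
    rhoG q w = WW q d X := by
  rw [rhoG_eq, h1, h2]; rfl

theorem f8_mk (w : FreeGroup (Fin 2)) :
    f8 (PresentedGroup.mk {relw} w) = FreeGroup.lift ![A8, B8] w := rfl

theorem degG_mk (w : FreeGroup (Fin 2)) :
    degG (PresentedGroup.mk {relw} w) =
      FreeGroup.lift ![Multiplicative.ofAdd 1, Multiplicative.ofAdd 1] w := rfl

/-- the free generators -/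
abbrev fa : FreeGroup (Fin 2) := FreeGroup.of 0
abbrev fb : FreeGroup (Fin 2) := FreeGroup.of 1

theorem w1 (q : ℤ) : rhoG q (fa⁻¹) = WW q (-1) ⟨!![1, -1; 0, 1], by decide⟩ := by
  apply mk_word
  · rw [f8_mk]
    simp only [map_mul, map_inv, FreeGroup.lift_apply_of]
    change A8⁻¹ = _
    apply ext4 <;> simp only [mul00, mul01, mul10, mul11, inv00, inv01, inv10, inv11, A800, A801,
      A810, A811, B800, B801, B810, B811] <;> decide
  · rw [degG_mk]
    simp only [map_mul, map_inv, FreeGroup.lift_apply_of]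
    decide

theorem w2 (q : ℤ) : rhoG q (fa⁻¹ * fb) = WW q 0 ⟨!![⟨1, 1⟩, -1; ⟨0, -1⟩, 1], by decide⟩ := by
  apply mk_word
  · rw [f8_mk]
    simp only [map_mul, map_inv, FreeGroup.lift_apply_of]
    change A8⁻¹ * B8 = _
    apply ext4 <;> simp only [mul00, mul01, mul10, mul11, inv00, inv01, inv10, inv11, A800, A801,
      A810, A811, B800, B801, B810, B811] <;> decide
  · rw [degG_mk]
    simp only [map_mul, map_inv, FreeGroup.lift_apply_of]
    decide

theorem w3 (q : ℤ) : rhoG q (fa⁻¹ * fb * fa * fb⁻¹) =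
    WW q 0 ⟨!![0, ⟨0, 1⟩; ⟨1, 1⟩, ⟨1, -1⟩], by decide⟩ := by
  apply mk_word
  · rw [f8_mk]
    simp only [map_mul, map_inv, FreeGroup.lift_apply_of]
    change A8⁻¹ * B8 * A8 * B8⁻¹ = _
    apply ext4 <;> simp only [mul00, mul01, mul10, mul11, inv00, inv01, inv10, inv11, A800, A801,
      A810, A811, B800, B801, B810, B811] <;> decide
  · rw [degG_mk]
    simp only [map_mul, map_inv, FreeGroup.lift_apply_of]
    decide

theorem w4 (q : ℤ) : rhoG q (fa⁻¹ * fb * fa * fb⁻¹ * fa * fb * fa⁻¹) =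
    WW q 1 ⟨!![⟨1, 1⟩, -1; ⟨1, -1⟩, ⟨1, 1⟩], by decide⟩ := by
  apply mk_word
  · rw [f8_mk]
    simp only [map_mul, map_inv, FreeGroup.lift_apply_of]
    change A8⁻¹ * B8 * A8 * B8⁻¹ * A8 * B8 * A8⁻¹ = _
    apply ext4 <;> simp only [mul00, mul01, mul10, mul11, inv00, inv01, inv10, inv11, A800, A801,
      A810, A811, B800, B801, B810, B811] <;> decide
  · rw [degG_mk]
    simp only [map_mul, map_inv, FreeGroup.lift_apply_of]
    decide

theorem w5 (q : ℤ) : rhoG q (fa⁻¹ * fb * fa * fb⁻¹ * fa * fb * fa⁻¹ * fb⁻¹) =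
    WW q 0 ⟨!![1, -1; ⟨0, -1⟩, ⟨1, 1⟩], by decide⟩ := by
  apply mk_word
  · rw [f8_mk]
    simp only [map_mul, map_inv, FreeGroup.lift_apply_of]
    change A8⁻¹ * B8 * A8 * B8⁻¹ * A8 * B8 * A8⁻¹ * B8⁻¹ = _
    apply ext4 <;> simp only [mul00, mul01, mul10, mul11, inv00, inv01, inv10, inv11, A800, A801,
      A810, A811, B800, B801, B810, B811] <;> decide
  · rw [degG_mk]
    simp only [map_mul, map_inv, FreeGroup.lift_apply_of]
    decide

theorem wb (q : ℤ) : rhoG q fb = WW q 1 ⟨!![1, 0; ⟨0, -1⟩, 1], by decide⟩ := by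
  apply mk_word
  · rw [f8_mk]
    simp only [map_mul, map_inv, FreeGroup.lift_apply_of]
    change B8 = _
    rfl
  · rw [degG_mk]
    simp only [map_mul, map_inv, FreeGroup.lift_apply_of]
    decide

/-- the Fox derivative of the relator -/
theorem fox_relw (q : ℤ) (D : FreeGroup (Fin 2) → Matrix (Fin 2) (Fin 2) ℂ[T;T⁻¹])
    (ha : D fa = 1) (hb : D fb = 0) (hm : ∀ u v, D (u * v) = D u + rhoG q u * D v) :
    D relw = -rhoG q fa⁻¹ + rhoG q (fa⁻¹ * fb) + rhoG q (fa⁻¹ * fb * fa * fb⁻¹)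
      - rhoG q (fa⁻¹ * fb * fa * fb⁻¹ * fa * fb * fa⁻¹)
      + rhoG q (fa⁻¹ * fb * fa * fb⁻¹ * fa * fb * fa⁻¹ * fb⁻¹) := by
  have h1 : D 1 = 0 := by
    have := hm 1 1
    rw [mul_one, map_one, one_mul] at this
    simpa using this
  have hai : D fa⁻¹ = -rhoG q fa⁻¹ := by
    have := hm fa⁻¹ fa
    rw [inv_mul_cancel, h1, ha, mul_one] at this
    exact eq_neg_of_add_eq_zero_left this.symm
  have hbi : D fb⁻¹ = 0 := by
    have := hm fb⁻¹ fb
    rw [inv_mul_cancel, h1, hb, mul_zero, add_zero] at this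
    exact this.symm
  unfold relw rel8
  rw [hm _ fb⁻¹, hm _ fa, hm _ fb⁻¹, hm _ fa⁻¹, hm _ fb, hm _ fa, hm _ fb⁻¹, hm _ fa, hm _ fb,
    hai, hbi, ha, hb]
  rw [map_mul (rhoG q) _ fa⁻¹]
  simp only [mul_zero, add_zero, mul_one, mul_neg]
  abel

theorem WW00 (q n : ℤ) (a b c d : Eis) (h) :
    WW q n ⟨!![a, b; c, d], h⟩ 0 0 = T n * C ((-1 : ℂ) ^ (q * n) * emb a) := rfl
theorem WW01 (q n : ℤ) (a b c d : Eis) (h) :
    WW q n ⟨!![a, b; c, d], h⟩ 0 1 = T n * C ((-1 : ℂ) ^ (q * n) * emb b) := rfl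
theorem WW10 (q n : ℤ) (a b c d : Eis) (h) :
    WW q n ⟨!![a, b; c, d], h⟩ 1 0 = T n * C ((-1 : ℂ) ^ (q * n) * emb c) := rfl
theorem WW11 (q n : ℤ) (a b c d : Eis) (h) :
    WW q n ⟨!![a, b; c, d], h⟩ 1 1 = T n * C ((-1 : ℂ) ^ (q * n) * emb d) := rfl

theorem main_det (q : ℤ) (D : FreeGroup (Fin 2) → Matrix (Fin 2) (Fin 2) ℂ[T;T⁻¹])
    (ha : D fa = 1) (hb : D fb = 0) (hm : ∀ u v, D (u * v) = D u + rhoG q u * D v) :
    (D relw).det = T (-1) * tors q * (rhoG q fb - 1).det := by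
  rw [fox_relw q D ha hb hm, w1, w2, w3, w4, w5, wb]
  have hs2 : (C ((-1 : ℂ) ^ q) : ℂ[T;T⁻¹]) * C ((-1 : ℂ) ^ q) = 1 := by
    rw [← map_mul, ← mul_zpow]; simp
  have hw2 : (C om : ℂ[T;T⁻¹]) * C om = -1 - C om := by
    rw [← map_mul, om_mul_om]; simp
  have huv : (T 1 : ℂ[T;T⁻¹]) * T (-1) = 1 := by rw [← T_add]; simp
  have hinv : (-1 : ℂ) ^ (q * -1) = (-1 : ℂ) ^ q := by
    rw [mul_neg_one, _root_.zpow_neg]
    have h1 : ((-1 : ℂ) ^ q) * ((-1 : ℂ) ^ q) = 1 := by rw [← mul_zpow]; simp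
    exact inv_eq_of_mul_eq_one_left h1
  have e11 : emb (⟨1, 1⟩ : Eis) = 1 + om := by rw [emb_apply]; simp
  have e12 : emb (⟨0, -1⟩ : Eis) = -om := by rw [emb_apply]; simp
  have e13 : emb (⟨0, 1⟩ : Eis) = om := by rw [emb_apply]; simp
  have e14 : emb (⟨1, -1⟩ : Eis) = 1 - om := by rw [emb_apply]; simp; ring
  have e2 : emb (1 : Eis) = 1 := map_one _
  have e3 : emb (0 : Eis) = 0 := map_zero _
  have e4 : emb (-1 : Eis) = -1 := by rw [map_neg, map_one]
  have hT0 : (T 0 : ℂ[T;T⁻¹]) = 1 := T_zero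
  have hL : ∀ M : Matrix (Fin 2) (Fin 2) ℂ[T;T⁻¹], M.det = M 0 0 * M 1 1 - M 0 1 * M 1 0 :=
    fun M => Matrix.det_fin_two M
  rw [hL, hL]
  simp only [Matrix.add_apply, Matrix.sub_apply, Matrix.neg_apply, WW00, WW01, WW10, WW11,
    Matrix.one_apply, hinv, mul_zero, _root_.zpow_zero, mul_one, tors, e11, e12, e13, e14, e2, e3, e4, hT0,
    map_mul, map_add, map_sub, map_neg, map_one, map_zero, Fin.isValue, if_true, if_false]
  simp only [Int.cast_one, Int.cast_zero, Int.cast_neg, map_one, map_zero, map_neg, map_ofNat,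
    zero_ne_one, one_ne_zero, if_true, if_false, zero_mul, one_mul, mul_one, mul_zero, add_zero,
    zero_add, sub_zero]
  generalize (C ((-1 : ℂ) ^ q) : ℂ[T;T⁻¹]) = s at *
  generalize (C om : ℂ[T;T⁻¹]) = w at *
  generalize (T 1 : ℂ[T;T⁻¹]) = u at *
  generalize (T (-1) : ℂ[T;T⁻¹]) = v at *
  linear_combination (-1 - 6*s^2 + s^2*w + 2*v*s + 2*u*s + 4*u*s^3 - u*v*s^2 - u^2*s^2) * huv +
    (-6 + w + v^2 + 4*u*s + u^2 + u^2*w + u^2*w^2) * hs2 + (1 - 2*u*s + u^2) * hw2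

theorem ker_lift (w : FreeGroup (Fin 2)) :
    FreeGroup.lift ![a8, b8] w = 1 ↔ w ∈ Subgroup.normalClosure {relw} := by
  rw [lift_eq]
  exact PresentedGroup.mk_eq_one_iff

theorem surj_lift : Function.Surjective (FreeGroup.lift ![a8, b8]) := by
  intro y
  obtain ⟨w, hw⟩ := PresentedGroup.mk_surjective ({relw} : Set (FreeGroup (Fin 2))) y
  exact ⟨w, by rw [lift_eq, hw]⟩

theorem phiG_surj : Function.Surjective phiG := by
  intro n
  refine ⟨a8 ^ n, ?_⟩
  unfold phiG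
  simp [degG_a]

theorem phiG_mul (g h : G8) : phiG (g * h) = phiG g + phiG h := by
  unfold phiG; rw [map_mul]; rfl

/-- **The torsion polynomial is `t - 4σ + t⁻¹`.** -/
theorem isTorsion8 (q : ℤ) : IsTorsionPolynomial (al q) (tors q) := by
  refine ⟨tors_invert q, phiG, phiG_mul, phiG_surj, 1, ![a8, b8], fun _ => relw,
    ⟨surj_lift, ?_⟩, ?_, ?_⟩
  · intro w
    rw [ker_lift]
    have : Set.range (fun _ : Fin 1 => relw) = {relw} := by ext w; simp [eq_comm]
    rw [this]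
  · intro h
    have h1 : phiG b8 = 1 := by unfold phiG; rw [degG_b]; rfl
    have h2 : phiG b8 = 0 := h
    rw [h1] at h2
    exact absurd h2 (by decide)
  · choose D hD1 hD2 using fun j : Fin 2 =>
      exists_fox (rhoG q) (fun i : Fin 2 => if i = j then
        (1 : Matrix (Fin 2) (Fin 2) ℂ[T;T⁻¹]) else 0)
    refine ⟨D, ⟨fun j i => hD1 j i, fun j u v => hD2 j u v⟩, -1, Or.inl ?_⟩
    have h1 := main_det q (D 0) (by rw [hD1]; simp) (by rw [hD1]; simp) (hD2 0)
    have h2 : (foxMatrix D (fun _ => relw)).det = (D 0 relw).det := by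
      rw [← Matrix.det_submatrix_equiv_self (Equiv.uniqueProd (Fin 2) (Fin 1)).symm]
      congr 1
    rw [h2, h1]
    have h3 : rhoG q fb = twisted (al q) phiG (![a8, b8] (Fin.last 1)) := by
      change twisted _ _ _ = _
      congr 1
    rw [h3]

theorem tors_real (q n : ℤ) : ((tors q).coeff n).im = 0 := by
  have h : ∃ σ : ℝ, (-1 : ℂ) ^ q = (σ : ℂ) := by
    rcases Int.even_or_odd q with h | h
    · exact ⟨1, by rw [h.neg_one_zpow]; simp⟩
    · exact ⟨-1, by rw [h.neg_one_zpow]; simp⟩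
  obtain ⟨σ, hσ⟩ := h
  unfold tors
  rw [hσ]
  have h4 : (4 * (σ : ℂ)) = ((4 * σ : ℝ) : ℂ) := by push_cast; ring
  rw [h4]
  simp only [AddMonoidAlgebra.coeff_add, AddMonoidAlgebra.coeff_sub, Finsupp.add_apply,
    Finsupp.sub_apply, T_apply, C_apply]
  split_ifs <;> simp

end Pool.Agent.H84
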