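import Mathlib
import Pool.Agent.H84.Fig8Wada

/-!
First homology of the filled manifold.
-/

set_option linter.unusedSectionVars false
set_option linter.unusedSimpArgs false

namespace Pool.Agent.H84

theorem homology8 (p q : ℤ) : FirstHomologyIsCyclic (per p q) p.natAbs := by
  set n := p.natAbs with hn
  -- reduction modulo n
  let red : Multiplicative ℤ →* Multiplicative (ZMod n) :=
    AddMonoidHom.toMultiplicative (Int.castAddHom (ZMod n))
  let ψ : G8 →* Multiplicative (ZMod n) := red.comp degG
  have hpm : degG (per p q) = Multiplicative.ofAdd p := by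
    unfold per
    simp only [map_mul, map_zpow, degG_a, degG_lam, one_zpow, one_mul]
    rw [← ofAdd_zsmul]; simp
  have hψm : ψ (per p q) = 1 := by
    change red (degG (per p q)) = 1
    rw [hpm]
    change Multiplicative.ofAdd ((p : ℤ) : ZMod n) = 1
    have : ((p : ℤ) : ZMod n) = 0 := by
      rw [ZMod.intCast_zmod_eq_zero_iff_dvd]
      exact Int.natAbs_dvd.mpr dvd_rfl
    rw [this]; rfl
  have hker : Subgroup.normalClosure {per p q} ≤ ψ.ker := by
    apply Subgroup.normalClosure_le_normal
    intro x hx
    rw [Set.mem_singleton_iff] at hx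
    rw [hx]; exact hψm
  let ψ' : G8 ⧸ Subgroup.normalClosure {per p q} →* Multiplicative (ZMod n) :=
    QuotientGroup.lift _ ψ hker
  let F : Abelianization (G8 ⧸ Subgroup.normalClosure {per p q}) →* Multiplicative (ZMod n) :=
    Abelianization.lift ψ'
  -- the projection from G8
  let π : G8 →* Abelianization (G8 ⧸ Subgroup.normalClosure {per p q}) :=
    (Abelianization.of.comp (QuotientGroup.mk' _))
  have hπsurj : Function.Surjective π := by
    intro y
    obtain ⟨z, rfl⟩ := QuotientGroup.mk_surjective y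
    obtain ⟨w, rfl⟩ := QuotientGroup.mk_surjective z
    exact ⟨w, rfl⟩
  have hπpow : ∀ g : G8, ∃ k : ℤ, π g = π a8 ^ k ∧ degG g = Multiplicative.ofAdd k := by
    intro g
    have hg : g ∈ Subgroup.closure ({a8, b8} : Set G8) := by rw [gen_ab8]; trivial
    induction hg using Subgroup.closure_induction with
    | mem x hx =>
      rcases hx with rfl | hx
      · exact ⟨1, by simp, degG_a⟩
      · rw [Set.mem_singleton_iff] at hx
        rw [hx]
        exact ⟨1, by rw [zpow_one]; exact (char_ab π).symm, degG_b⟩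
    | one => exact ⟨0, by simp, by simp⟩
    | mul x y _ _ hx hy =>
      obtain ⟨k, h1, h2⟩ := hx
      obtain ⟨l, h3, h4⟩ := hy
      exact ⟨k + l, by rw [map_mul, h1, h3, zpow_add], by rw [map_mul, h2, h4]; rfl⟩
    | inv x _ hx =>
      obtain ⟨k, h1, h2⟩ := hx
      exact ⟨-k, by rw [map_inv, h1, zpow_neg], by rw [map_inv, h2]; rfl⟩
  have hπM : π a8 ^ p = 1 := by
    have h1 : π (per p q) = 1 := by
      change Abelianization.of (QuotientGroup.mk' _ (per p q)) = _
      have : (QuotientGroup.mk' (Subgroup.normalClosure {per p q})) (per p q) = 1 :=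
        (QuotientGroup.eq_one_iff (per p q)).mpr (Subgroup.subset_normalClosure rfl)
      rw [this, map_one]
    have h2 : π (per p q) = π (lam a8 b8) ^ q * π a8 ^ p := by
      have : per p q = lam a8 b8 ^ q * a8 ^ p := rfl
      rw [show π (per p q) = π (lam a8 b8 ^ q * a8 ^ p) from rfl, map_mul π, map_zpow π,
        map_zpow π]
    rw [h2, char_lam π, one_zpow, one_mul] at h1
    exact h1
  have hF : ∀ g : G8, F (π g) = red (degG g) := by
    intro g; rfl
  have hFinj : Function.Injective F := by
    rw [injective_iff_map_eq_one]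
    intro y hy
    obtain ⟨g, rfl⟩ := hπsurj y
    obtain ⟨k, h1, h2⟩ := hπpow g
    rw [hF, h2] at hy
    have h3 : ((k : ℤ) : ZMod n) = 0 := hy
    rw [ZMod.intCast_zmod_eq_zero_iff_dvd] at h3
    obtain ⟨c, hc⟩ := Int.natAbs_dvd.mp h3
    rw [h1, hc, zpow_mul, hπM, one_zpow]
  have hFsurj : Function.Surjective F := by
    intro y
    obtain ⟨k, hk⟩ := ZMod.intCast_surjective (Multiplicative.toAdd y)
    refine ⟨π (a8 ^ k), ?_⟩
    rw [hF]
    have : degG (a8 ^ k) = Multiplicative.ofAdd k := by
      rw [map_zpow, degG_a, ← ofAdd_zsmul]; simp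
    rw [this]
    exact hk
  exact ⟨MulEquiv.ofBijective F ⟨hFinj, hFsurj⟩⟩

end Pool.Agent.H84
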