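import Mathlib
import Pool.Agent.H84.Fig8Hom

/-!
Assembly of the result on the figure-eight fillings.
-/

open Matrix LaurentPolynomial

namespace Pool.Agent.H84

theorem al_a (q : ℤ) : al q a8 = (-1 : ℂ) ^ q • !![1, 1; 0, 1] := by
  unfold al
  rw [fC_a]
  ext i j
  have h := neg_one_zpow_mul_apply q (embSL A8) i j
  refine h.trans ?_
  rw [Matrix.smul_apply, smul_eq_mul]
  congr 1
  fin_cases i <;> fin_cases j
  · exact map_one emb
  · exact map_one emb
  · exact map_zero emb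
  · exact map_one emb

theorem al_b (q : ℤ) :
    al q b8 = (-1 : ℂ) ^ q • !![1, 0; (1 - (Real.sqrt 3 : ℂ) * Complex.I) / 2, 1] := by
  unfold al
  rw [fC_b]
  ext i j
  have h := neg_one_zpow_mul_apply q (embSL B8) i j
  refine h.trans ?_
  rw [Matrix.smul_apply, smul_eq_mul]
  congr 1
  fin_cases i <;> fin_cases j
  · exact map_one emb
  · exact map_zero emb
  · change emb ⟨0, -1⟩ = (1 - (Real.sqrt 3 : ℂ) * Complex.I) / 2
    rw [emb_apply]
    unfold om
    apply Complex.ext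
    · simp; norm_num
    · simp; ring
  · exact map_one emb

theorem al_per (p q : ℤ) (hp : Odd p) :
    al q (per p q) = !![1, (p : ℂ) + 2 * (q : ℂ) * (Real.sqrt 3 : ℂ) * Complex.I; 0, 1] := by
  unfold al
  rw [fC_per p q hp]; rfl

theorem figureEight_main (p q : ℤ) (hp : Odd p) (hq : q ≠ 0) (hpq : IsCoprime p q) :
    ∃ (π : Type) (_ : Group π) (α : π → Matrix (Fin 2) (Fin 2) ℂ) (a b μ : π),
      Subgroup.closure {a, b} = ⊤ ∧
      α a = (-1 : ℂ) ^ q • !![1, 1; 0, 1] ∧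
      α b = (-1 : ℂ) ^ q • !![1, 0; (1 - (Real.sqrt 3 : ℂ) * Complex.I) / 2, 1] ∧
      α μ = !![1, (p : ℂ) + 2 * (q : ℂ) * (Real.sqrt 3 : ℂ) * Complex.I; 0, 1] ∧
      IsHyperbolicKnot α μ ∧ IsModTwoHomologySphere μ ∧ FirstHomologyIsCyclic μ p.natAbs ∧
      (∃ P : ℂ[T;T⁻¹], IsTorsionPolynomial α P ∧ ∀ n, (P.coeff n).im = 0) ∧
      ¬ IsAmphichiral α μ ∧ (3 ≤ |p| → ¬ HasOrientationReversingAutomorphism μ) :=
  ⟨G8, inferInstance, al q, a8, b8, per p q, gen_ab8, al_a q, al_b q, al_per p q hp,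
    isHyperbolicKnot8 p q hp hpq, modTwo8 p q hp, homology8 p q,
    ⟨tors q, isTorsion8 q, tors_real q⟩, not_amphichiral8 p q hp hq, no_aut8 p q hp hpq⟩

end Pool.Agent.H84
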